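import Mathlib

/-!
# Devices with guesses and negated variables: definitions

A device is given by functions `F y` of the literals: `Sum.inl i` is the variable `i`, `Sum.inr i`
the negated variable `i`; `y` ranges over the guesses. The input `x` is accepted if `F y` has the
value `1` at the literals of `x` for some `y`.
-/

namespace Pool.Agent.GB24

/-- The devices `F y` (`y` a guess) accept the input `x` with at most `w` negated variables: for some
guess `y` and some set `Z` of at most `w` variables which are `0` in `x`, the device `F y` accepts
already when among the negated variables only those of `Z` have the value `1`. -/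
def AccNeg {ι Y : Type} (w : ℕ) (F : Y → (ι ⊕ ι → Bool) → Bool) (x : ι → Bool) : Prop :=
  ∃ (y : Y) (Z : Finset ι), Z.card ≤ w ∧ (∀ i ∈ Z, x i = false) ∧
    F y (Sum.elim x (Set.indicator (Z : Set ι) fun _ => true)) = true

/-- Some nonempty set `M` of inputs with `f x` is such that for all devices `F y` (`y ∈ Y` a guess)
on the literals which belong to the class `K` and accept only inputs with `f x`, at most
`|Y| n ^ w |M| / Q` elements of `M` are accepted with at most `w` negated variables. -/
def HardInputs {ι : Type} (f : (ι → Bool) → Prop) (K : ((ι ⊕ ι → Bool) → Bool) → Prop)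
    (n Q : ℕ) : Prop :=
  ∃ M : Finset (ι → Bool), M.Nonempty ∧ (∀ x ∈ M, f x) ∧
    ∀ (Y : Type) [Fintype Y] (w : ℕ) (F : Y → (ι ⊕ ι → Bool) → Bool), (∀ y, K (F y)) →
      (∀ y x, F y (Sum.elim x fun i => !x i) = true → f x) →
      Q * {x | x ∈ M ∧ AccNeg w F x}.ncard ≤ Fintype.card Y * n ^ w * M.card

end Pool.Agent.GB24
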