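import Pool.Agent.NTR.GenDefs

/-!
# Guess bits do not help monotone devices to compute a conjunction of copies

`f (x¹, …, xʳ) = g (x¹) ∧ … ∧ g (xʳ)`. If `f` is the disjunction of fewer than `q ^ r` functions
of a class `K` closed under substitutions, then `g` is a disjunction of at most `b q` functions of
the class, `b ≥ 1` the number of variables of `g`.
-/

namespace Pool.Agent.GB24

open Finset Pool.Agent.NTR.Gen

/-- `2 (q - 1) ^ q < q ^ q`. -/
lemma two_mul_pow_lt {q : ℕ} (hq : 1 ≤ q) : 2 * (q - 1) ^ q < q ^ q := by
  obtain ⟨k, rfl⟩ : ∃ k, q = k + 1 := ⟨q - 1, by omega⟩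
  rw [Nat.add_sub_cancel]
  have h1 : k ^ (k + 1) + (k + 1) * k ^ k ≤ (k + 1) ^ (k + 1) := by
    rw [add_pow, Finset.sum_range_succ, Finset.sum_range_succ]
    simp only [one_pow, mul_one, Nat.choose_self, Nat.cast_one, Nat.choose_succ_self_right,
      Nat.cast_id]
    have := Nat.zero_le (∑ x ∈ range k, k ^ x * (k + 1).choose x)
    linarith [mul_comm (k ^ k) (k + 1)]
  have h3 : k ^ (k + 1) = k * k ^ k := by rw [pow_succ, mul_comm]
  have h4 : 0 < k ^ k := by
    rcases Nat.eq_zero_or_pos k with h | h
    · subst h; simp
    · exact pow_pos h k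
  nlinarith

/-- One step of the greedy covering. -/
lemma exists_good {P Y : Type} (R : Y → P → Prop) [∀ y u, Decidable (R y u)] (A : Finset Y)
    (S : Finset P) {q : ℕ} (hS : S.Nonempty)
    (h : ∀ u ∈ S, A.card < q * (A.filter fun y => R y u).card) :
    ∃ y ∈ A, S.card ≤ q * (S.filter fun u => R y u).card := by
  by_contra hcon
  push Not at hcon
  have h1 : ∑ y ∈ A, (q * (S.filter fun u => R y u).card) ≤ A.card * S.card := by
    calc ∑ y ∈ A, (q * (S.filter fun u => R y u).card) ≤ ∑ _y ∈ A, S.card :=
          Finset.sum_le_sum fun y hy => (hcon y hy).le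
      _ = A.card * S.card := by rw [Finset.sum_const, smul_eq_mul]
  have h2 : S.card * A.card < ∑ u ∈ S, (q * (A.filter fun y => R y u).card) := by
    calc S.card * A.card = ∑ _u ∈ S, A.card := by rw [Finset.sum_const, smul_eq_mul]
      _ < ∑ u ∈ S, (q * (A.filter fun y => R y u).card) :=
          Finset.sum_lt_sum_of_nonempty hS fun u hu => h u hu
  have h3 : ∑ u ∈ S, (q * (A.filter fun y => R y u).card)
      = ∑ y ∈ A, (q * (S.filter fun u => R y u).card) := by
    rw [← Finset.mul_sum, ← Finset.mul_sum]
    congr 1
    simp only [Finset.card_filter]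
    exact Finset.sum_comm
  rw [h3, mul_comm] at h2
  exact absurd (h2.trans_le h1) (lt_irrefl _)

/-- **Greedy covering.** If every point of `S` lies in more than the `q`-th part of the sets
`{u | R y u}`, `y ∈ A`, then `m` of these sets cover all but the part `(1 - 1/q) ^ m` of `S`. -/
lemma exists_list {P Y : Type} (R : Y → P → Prop) [∀ y u, Decidable (R y u)] (A : Finset Y)
    (S : Finset P) {q : ℕ} (hq : 1 ≤ q)
    (h : ∀ u ∈ S, A.card < q * (A.filter fun y => R y u).card) (m : ℕ) :
    ∃ l : List Y, l.length ≤ m ∧ (∀ y ∈ l, y ∈ A) ∧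
      q ^ m * (S.filter fun u => ∀ y ∈ l, ¬ R y u).card ≤ (q - 1) ^ m * S.card := by
  induction m with
  | zero => exact ⟨[], le_rfl, by simp, by simp⟩
  | succ m ih =>
    obtain ⟨l, hl, hA, hc⟩ := ih
    set S' := S.filter fun u => ∀ y ∈ l, ¬ R y u with hS'
    rcases S'.eq_empty_or_nonempty with h0 | h0
    · refine ⟨l, by omega, hA, ?_⟩
      rw [← hS', h0]
      simp
    · obtain ⟨y, hy, hyc⟩ := exists_good R A S' h0 fun u hu => h u (Finset.mem_filter.1 hu).1
      refine ⟨y :: l, by simpa using hl, ?_, ?_⟩
      · intro z hz
        rcases List.mem_cons.1 hz with rfl | hz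
        · exact hy
        · exact hA z hz
      · have h1 : (S.filter fun u => ∀ z ∈ y :: l, ¬ R z u) = S'.filter fun u => ¬ R y u := by
          ext u
          simp only [hS', Finset.mem_filter, List.mem_cons, forall_eq_or_imp]
          tauto
        have h2 := Finset.card_filter_add_card_filter_not (s := S') (fun u => R y u)
        rw [h1]
        have h3 : q * (S'.filter fun u => ¬ R y u).card ≤ (q - 1) * S'.card := by
          obtain ⟨k, rfl⟩ : ∃ k, q = k + 1 := ⟨q - 1, by omega⟩
          rw [Nat.add_sub_cancel]
          nlinarith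
        calc q ^ (m + 1) * (S'.filter fun u => ¬ R y u).card
            = q ^ m * (q * (S'.filter fun u => ¬ R y u).card) := by ring
          _ ≤ q ^ m * ((q - 1) * S'.card) := Nat.mul_le_mul_left _ h3
          _ = (q - 1) * (q ^ m * S'.card) := by ring
          _ ≤ (q - 1) * ((q - 1) ^ m * S.card) := Nat.mul_le_mul_left _ hc
          _ = (q - 1) ^ (m + 1) * S.card := by ring

/-- The input whose block `i` is `u` and whose other blocks are full. -/
def block {β : Type} {r : ℕ} (i : Fin r) (u : β → Bool) (e : Fin r × β) : Bool :=
  if e.1 = i then u e.2 else true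

lemma mem_block (K : MonoClass) {β : Type} {r : ℕ} (i : Fin r)
    (F : (Fin r × β → Bool) → Bool) (hF : K.mem _ F) : K.mem β fun u => F (block i u) := by
  have h := K.subst _ β F
    (fun e => if e.1 = i then (Sum.inl e.2 : β ⊕ Bool) else Sum.inr true) hF
  convert h using 2 with u
  congr 1
  funext e
  by_cases he : e.1 = i <;> simp [block, he]

/-- **Guess bits do not help.** Let `f (x¹, …, xʳ) = g (x¹) ∧ … ∧ g (xʳ)` be the disjunction of
fewer than `q ^ r` functions of the class `K`. Then `g`, a function of `b ≥ 1` variables, is a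
disjunction of at most `b q` functions of the class. -/
theorem guess_cover (K : MonoClass) {β : Type} [Fintype β] [Nonempty β] {r q : ℕ}
    (g : (β → Bool) → Bool) {Y : Type} [Fintype Y] (C : Y → (Fin r × β → Bool) → Bool)
    (hC : ∀ y, K.mem _ (C y)) (hY : Fintype.card Y < q ^ r)
    (hf : ∀ x : Fin r × β → Bool, (∃ y, C y x = true) ↔ ∀ i, g (fun j => x (i, j)) = true) :
    ∃ Gs : List ((β → Bool) → Bool), Gs.length ≤ Fintype.card β * q ∧
      (∀ G ∈ Gs, K.mem β G) ∧ ∀ u, g u = true ↔ ∃ G ∈ Gs, G u = true := by
  classical
  by_contra hcon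
  -- for every set of guesses and every block some one of `g` kills most of them
  have key : ∀ (A : Finset Y) (i : Fin r), ∃ u, g u = true ∧
      q * (A.filter fun y => C y (block i u) = true).card ≤ A.card := by
    intro A i
    by_contra hno
    push Not at hno
    apply hcon
    rcases Nat.eq_zero_or_pos q with h0 | hq
    · subst h0
      refine ⟨[], by simp, by simp, fun u => ?_⟩
      simp only [List.not_mem_nil, false_and, exists_false, iff_false]
      intro hu
      have := hno u hu
      omega
    · obtain ⟨l, hl, -, hc⟩ := exists_list (fun (y : Y) (u : β → Bool) => C y (block i u) = true)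
        A (univ.filter fun u => g u = true) hq
        (fun u hu => hno u (Finset.mem_filter.1 hu).2) (Fintype.card β * q)
      refine ⟨l.map fun y u => C y (block i u), by simpa using hl, ?_, ?_⟩
      · intro G hG
        obtain ⟨y, -, rfl⟩ := List.mem_map.1 hG
        exact mem_block K i _ (hC y)
      · intro u
        constructor
        · intro hu
          have hb : 0 < Fintype.card β := Fintype.card_pos
          have h1 : (univ.filter fun u => g u = true).card ≤ 2 ^ Fintype.card β := by
            refine (Finset.card_le_univ _).trans ?_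
            rw [Fintype.card_fun, Fintype.card_bool]
          have h2 : (q - 1) ^ (Fintype.card β * q) * 2 ^ Fintype.card β
              < q ^ (Fintype.card β * q) := by
            rw [mul_comm (Fintype.card β) q, pow_mul, pow_mul, ← mul_pow]
            refine Nat.pow_lt_pow_left ?_ hb.ne'
            rw [mul_comm]
            exact two_mul_pow_lt hq
          have h3 : ((univ.filter fun u => g u = true).filter
              fun u => ∀ y ∈ l, ¬ C y (block i u) = true).card = 0 := by
            by_contra hne
            have h4 : 1 ≤ ((univ.filter fun u => g u = true).filter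
              fun u => ∀ y ∈ l, ¬ C y (block i u) = true).card := Nat.one_le_iff_ne_zero.2 hne
            have h5 : q ^ (Fintype.card β * q) ≤ (q - 1) ^ (Fintype.card β * q)
                * 2 ^ Fintype.card β :=
              calc q ^ (Fintype.card β * q) = q ^ (Fintype.card β * q) * 1 := (mul_one _).symm
                _ ≤ _ := Nat.mul_le_mul_left _ h4
                _ ≤ (q - 1) ^ (Fintype.card β * q) *
                    (univ.filter fun u => g u = true).card := by convert hc
                _ ≤ _ := Nat.mul_le_mul_left _ h1
            exact absurd (h5.trans_lt h2) (lt_irrefl _)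
          rw [Finset.card_eq_zero, Finset.filter_eq_empty_iff] at h3
          have h4 := h3 (Finset.mem_filter.2 ⟨Finset.mem_univ u, hu⟩)
          push Not at h4
          obtain ⟨y, hy, hyu⟩ := h4
          exact ⟨_, List.mem_map.2 ⟨y, hy, rfl⟩, hyu⟩
        · rintro ⟨G, hG, hGu⟩
          obtain ⟨y, -, rfl⟩ := List.mem_map.1 hG
          have h1 := (hf (block i u)).1 ⟨y, hGu⟩ i
          simpa [block] using h1
  -- kill all guesses block by block
  have stage : ∀ k ≤ r, ∃ x : Fin r → β → Bool, (∀ i : Fin r, i.val < k → g (x i) = true) ∧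
      q ^ k * (univ.filter fun y : Y => ∀ i : Fin r, i.val < k → C y (block i (x i)) = true).card
        ≤ Fintype.card Y := by
    intro k
    induction k with
    | zero =>
      intro _
      exact ⟨fun _ _ => true, by simp, by simp [Finset.card_univ]⟩
    | succ k ih =>
      intro hk
      obtain ⟨x, hx, hc⟩ := ih (by omega)
      obtain ⟨u, hu, huc⟩ := key
        (univ.filter fun y : Y => ∀ i : Fin r, i.val < k → C y (block i (x i)) = true) ⟨k, hk⟩
      refine ⟨Function.update x ⟨k, hk⟩ u, ?_, ?_⟩
      · intro i hi
        by_cases h : i = ⟨k, hk⟩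
        · subst h
          simpa using hu
        · rw [Function.update_of_ne h]
          refine hx i ?_
          have : i.val ≠ k := fun h' => h (Fin.ext h')
          omega
      · have h1 : (univ.filter fun y : Y => ∀ i : Fin r, i.val < k + 1 →
            C y (block i (Function.update x ⟨k, hk⟩ u i)) = true)
            ⊆ (univ.filter fun y : Y => ∀ i : Fin r, i.val < k → C y (block i (x i)) = true).filter
              fun y => C y (block ⟨k, hk⟩ u) = true := by
          intro y hy
          have hy' := (Finset.mem_filter.1 hy).2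
          refine Finset.mem_filter.2 ⟨Finset.mem_filter.2 ⟨Finset.mem_univ _, fun i hi => ?_⟩, ?_⟩
          · have h2 := hy' i (by omega)
            rwa [Function.update_of_ne (fun h => by rw [h] at hi; exact absurd hi (lt_irrefl _))]
              at h2
          · have h2 := hy' ⟨k, hk⟩ (Nat.lt_succ_self k)
            simpa using h2
        calc q ^ (k + 1) * _ = q ^ k * (q * _) := by ring
          _ ≤ q ^ k * (q * _) :=
              Nat.mul_le_mul_left _ (Nat.mul_le_mul_left _ (Finset.card_le_card h1))
          _ ≤ q ^ k * _ := Nat.mul_le_mul_left _ huc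
          _ ≤ _ := hc
  obtain ⟨x, hx, hc⟩ := stage r le_rfl
  have h0 : (univ.filter fun y : Y => ∀ i : Fin r, i.val < r →
      C y (block i (x i)) = true).card = 0 := by
    by_contra hne
    have h1 := Nat.one_le_iff_ne_zero.2 hne
    have h2 : q ^ r ≤ Fintype.card Y :=
      calc q ^ r = q ^ r * 1 := (mul_one _).symm
        _ ≤ _ := Nat.mul_le_mul_left _ h1
        _ ≤ _ := hc
    omega
  obtain ⟨y, hy⟩ := (hf fun e => x e.1 e.2).2 fun i => hx i i.isLt
  rw [Finset.card_eq_zero, Finset.filter_eq_empty_iff] at h0
  refine h0 (Finset.mem_univ y) fun i _ => ?_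
  have h1 := K.mono _ _ (hC y) (show (fun e : Fin r × β => x e.1 e.2) ≤ block i (x i) by
    intro e
    by_cases he : e.1 = i
    · simp [block, he]
    · simp [block, he])
  rw [hy] at h1
  exact top_le_iff.1 h1

end Pool.Agent.GB24
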