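import Pool.Agent.NTR.GenDefs

set_option autoImplicit false

/-!
# Few negated variables in one accepting computation are guess bits

`F y` is a device of the class `K` which reads the variables and the negated variables (and depends
in any way on the guess `y`). If every accepted input has an accepting guess and a set `Z` of at
most `w` of its zeros such that the device accepts when only the negated variables in `Z` are
switched on, then the monotone function `f` computed is an OR of at most `|Y| (n + 1) ^ w` functions
of the class.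
-/

namespace Pool.Agent.GB24

open Pool.Agent.NTR.Gen Finset

theorem of_neg_aux (K : MonoClass) {ι Y : Type} [Fintype ι] [Fintype Y]
    (F : Y → (ι ⊕ ι → Bool) → Bool) (hF : ∀ y, K.mem _ (F y)) (f : (ι → Bool) → Bool)
    (hm : Monotone f) (hs : ∀ y x, F y (Sum.elim x fun i => !x i) = true → f x = true) (w : ℕ)
    (hw : ∀ x, f x = true → ∃ y, ∃ Z : Finset ι, Z.card ≤ w ∧ (∀ i ∈ Z, x i = false) ∧
      ∀ z : ι → Bool, (∀ i ∈ Z, z i = true) → F y (Sum.elim x z) = true) :
    ∃ (J : Type) (_ : Fintype J) (C : J → (ι → Bool) → Bool),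
      Fintype.card J ≤ Fintype.card Y * (Fintype.card ι + 1) ^ w ∧ (∀ j, K.mem _ (C j)) ∧
      ∀ x, f x = true ↔ ∃ j, C j x = true := by
  classical
  let Zs : (Fin w → Option ι) → Finset ι := fun s => univ.filter fun i => ∃ a, s a = some i
  let φ : (Fin w → Option ι) → ι ⊕ ι → ι ⊕ Bool := fun s =>
    Sum.elim (fun i => if i ∈ Zs s then .inr false else .inl i) fun i => .inr (decide (i ∈ Zs s))
  refine ⟨Y × (Fin w → Option ι), inferInstance,
    fun j x => F j.1 fun i => Sum.elim x id (φ j.2 i), ?_, ?_, ?_⟩
  · rw [Fintype.card_prod, Fintype.card_fun, Fintype.card_option, Fintype.card_fin]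
  · rintro ⟨y, s⟩
    exact K.subst _ _ (F y) (φ s) (hF y)
  · intro x
    have hval : ∀ s, (fun i => Sum.elim x id (φ s i)) =
        Sum.elim (fun i => if i ∈ Zs s then false else x i) fun i => decide (i ∈ Zs s) := by
      intro s
      funext i
      rcases i with i | i
      · by_cases h : i ∈ Zs s <;> simp [φ, h]
      · simp [φ]
    constructor
    · intro hx
      obtain ⟨y, Z, hZ, h0, hy⟩ := hw x hx
      let s : Fin w → Option ι := fun a =>
        if h : (a : ℕ) < Z.card then some (Z.equivFin.symm ⟨a, h⟩ : {i // i ∈ Z}).1 else none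
      have hsZ : Zs s = Z := by
        ext i
        simp only [Zs, s, mem_filter, mem_univ, true_and]
        constructor
        · rintro ⟨a, ha⟩
          by_cases h : (a : ℕ) < Z.card
          · rw [dif_pos h] at ha
            rw [← Option.some.inj ha]
            exact (Z.equivFin.symm ⟨a, h⟩).2
          · rw [dif_neg h] at ha
            exact absurd ha (by simp)
        · intro hi
          refine ⟨⟨Z.equivFin ⟨i, hi⟩, (Z.equivFin ⟨i, hi⟩).2.trans_le hZ⟩, ?_⟩
          rw [dif_pos (Z.equivFin ⟨i, hi⟩).2]
          simp
      refine ⟨(y, s), ?_⟩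
      show F y (fun i => Sum.elim x id (φ s i)) = true
      rw [hval, hsZ]
      have hxe : (fun i => if i ∈ Z then false else x i) = x := by
        funext i
        by_cases h : i ∈ Z
        · rw [if_pos h, h0 i h]
        · rw [if_neg h]
      rw [hxe]
      exact hy _ fun i hi => by simpa using hi
    · rintro ⟨⟨y, s⟩, hj⟩
      change F y (fun i => Sum.elim x id (φ s i)) = true at hj
      rw [hval] at hj
      have h1 := Bool.le_iff_imp.mp (K.mono _ (F y) (hF y) (show
        (Sum.elim (fun i => if i ∈ Zs s then false else x i) fun i => decide (i ∈ Zs s)) ≤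
        (Sum.elim (fun i => if i ∈ Zs s then false else x i) fun i =>
          !(if i ∈ Zs s then false else x i) : ι ⊕ ι → Bool) from by
          intro i
          rcases i with i | i
          · exact le_rfl
          · by_cases h : i ∈ Zs s <;> simp [h])) hj
      have h2 := hs y _ h1
      refine Bool.le_iff_imp.mp (hm (show (fun i => if i ∈ Zs s then false else x i) ≤ x from ?_)) h2
      intro i
      by_cases h : i ∈ Zs s <;> simp [h]

open Classical in
/-- If every accepted input has an accepting guess `y` and a set `Z` of at most `w` of its zeros such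
that `F y` accepts when only the negated variables in `Z` are switched on, then `f` is an OR of at
most `|Y| (n + 1) ^ w` functions of the class. -/
theorem of_neg (K : MonoClass) {ι Y : Type} [Fintype ι] [Fintype Y]
    (F : Y → (ι ⊕ ι → Bool) → Bool) (hF : ∀ y, K.mem _ (F y)) (f : (ι → Bool) → Bool)
    (hm : Monotone f) (hs : ∀ y x, F y (Sum.elim x fun i => !x i) = true → f x = true) (w : ℕ)
    (hw : ∀ x, f x = true → ∃ y, ∃ Z : Finset ι, Z.card ≤ w ∧ (∀ i ∈ Z, x i = false) ∧
      F y (Sum.elim x fun i => decide (i ∈ Z)) = true) :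
    ∃ (J : Type) (_ : Fintype J) (C : J → (ι → Bool) → Bool),
      Fintype.card J ≤ Fintype.card Y * (Fintype.card ι + 1) ^ w ∧ (∀ j, K.mem _ (C j)) ∧
      ∀ x, f x = true ↔ ∃ j, C j x = true := by
  refine of_neg_aux K F hF f hm hs w fun x hx => ?_
  obtain ⟨y, Z, h1, h2, h3⟩ := hw x hx
  refine ⟨y, Z, h1, h2, fun z hz => ?_⟩
  refine Bool.le_iff_imp.mp (K.mono _ (F y) (hF y) fun i => ?_) h3
  rcases i with i | i
  · exact le_rfl
  · by_cases h : i ∈ Z
    · simp [h, hz i h]
    · simp [h]

end Pool.Agent.GB24
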