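import Pool.Agent.GB24.Defs
import Pool.Agent.GB24.NegWidth
import Pool.Agent.GB24.Cover
import Pool.Agent.NTR.SelfAnd

set_option autoImplicit false

/-!
# Devices with few negated variables in one accepting computation
-/

namespace Pool.Agent.GB24

open Pool.Agent.NTR Pool.Agent.NTR.Gen Finset

open Classical in
/-- As `FewNeg`, but only the negated variables in `U` are counted: the devices `F y`, `y` ranging
over the guesses, read the variables (`Sum.inl v`) and the negated variables (`Sum.inr v`); if `F y`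
accepts `x`, then `f x`; and if `f x`, then for some guess `y` and some set `Z ⊆ U` of at most `w`
variables which are `0` in `x`, the device `F y` accepts even when among the negated variables in
`U` only those in `Z` are switched on. -/
def FewNegOn {V Y : Type} (U : Finset V) (w : ℕ) (F : Y → (V ⊕ V → Bool) → Bool)
    (f : (V → Bool) → Prop) : Prop :=
  (∀ y x, F y (Sum.elim x fun v => !x v) = true → f x) ∧
  ∀ x, f x → ∃ (y : Y) (Z : Finset V), Z ⊆ U ∧ Z.card ≤ w ∧ (∀ v ∈ Z, x v = false) ∧
    F y (Sum.elim x fun v => if v ∈ U then decide (v ∈ Z) else !x v) = true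

/-- The literals after a restriction. -/
def litMap {V κ : Type} (φ : V → κ ⊕ Bool) : V ⊕ V → (κ ⊕ κ) ⊕ Bool :=
  Sum.elim (fun v => Sum.map Sum.inl id (φ v)) fun v => Sum.map Sum.inr not (φ v)

theorem litMap_eq {V κ : Type} (φ : V → κ ⊕ Bool) (x z : κ → Bool) :
    (fun s => Sum.elim (Sum.elim x z) id (litMap φ s)) =
      Sum.elim (fun v => Sum.elim x id (φ v)) fun v => Sum.elim z not (φ v) := by
  funext s
  rcases s with v | v
  · cases h : φ v <;> simp [litMap, h]
  · cases h : φ v <;> simp [litMap, h]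

theorem litMap_not {V κ : Type} (φ : V → κ ⊕ Bool) (x : κ → Bool) :
    (fun s => Sum.elim (Sum.elim x fun k => !x k) id (litMap φ s)) =
      Sum.elim (fun v => Sum.elim x id (φ v)) fun v => !(Sum.elim x id (φ v) : Bool) := by
  rw [litMap_eq]
  funext s
  rcases s with v | v
  · rfl
  · cases h : φ v <;> simp [h]

theorem ind_eq {κ : Type} [DecidableEq κ] (Z : Finset κ) :
    (Set.indicator (Z : Set κ) fun _ => true) = fun k => decide (k ∈ Z) := by
  funext k
  by_cases h : k ∈ Z
  · simp [Set.indicator, h]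
  · simp only [Set.indicator, Finset.mem_coe, h, if_false, decide_false]
    rfl

/-- The negated variables switched on, after a restriction. -/
theorem restrict_core (K : MonoClass) {V κ : Type} [Fintype κ] {G : (V ⊕ V → Bool) → Bool}
    (hG : K.mem _ G) (φ : V → κ ⊕ Bool) (x : κ → Bool) (Z : Finset V) (z : V → Bool)
    (hz : ∀ v, z v = true → v ∈ Z ∨ ∃ c, φ v = .inr c)
    (h0 : ∀ v, z v = true → Sum.elim x id (φ v) = false)
    (hy : G (Sum.elim (fun v => Sum.elim x id (φ v)) z) = true) :
    ∃ Z' : Finset κ, Z'.card ≤ Z.card ∧ (∀ k ∈ Z', x k = false) ∧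
      G (fun s => Sum.elim (Sum.elim x (Set.indicator (Z' : Set κ) fun _ => true)) id
        (litMap φ s)) = true := by
  classical
  let Z' : Finset κ := univ.filter fun k => ∃ v ∈ Z, z v = true ∧ φ v = .inl k
  refine ⟨Z', ?_, ?_, ?_⟩
  · have h1 : Z'.image (Sum.inl : κ → κ ⊕ Bool) ⊆ Z.image φ := by
      intro s hs
      obtain ⟨k, hk, rfl⟩ := Finset.mem_image.1 hs
      obtain ⟨v, hv, -, hvk⟩ := (Finset.mem_filter.1 hk).2
      exact Finset.mem_image.2 ⟨v, hv, hvk⟩
    calc Z'.card = (Z'.image (Sum.inl : κ → κ ⊕ Bool)).card :=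
          (Finset.card_image_of_injective _ Sum.inl_injective).symm
      _ ≤ (Z.image φ).card := Finset.card_le_card h1
      _ ≤ Z.card := Finset.card_image_le
  · intro k hk
    obtain ⟨v, -, hv, hvk⟩ := (Finset.mem_filter.1 hk).2
    have := h0 v hv
    rwa [hvk] at this
  · rw [litMap_eq, ind_eq]
    refine Bool.le_iff_imp.mp (K.mono _ G hG fun s => ?_) hy
    rcases s with v | v
    · exact le_rfl
    · rw [Bool.le_iff_imp]
      intro hv
      change z v = true at hv
      have h1 := h0 v hv
      show Sum.elim (fun k => decide (k ∈ Z')) not (φ v) = true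
      rcases hs : φ v with k | c
      · rcases hz v hv with hvZ | ⟨c, hc⟩
        · exact decide_eq_true (Finset.mem_filter.2 ⟨Finset.mem_univ k, v, hvZ, hv, hs⟩)
        · rw [hs] at hc
          exact absurd hc (by simp)
      · rw [hs] at h1
        simp only [Sum.elim_inr, id] at h1
        simp [h1]

/-- **Guesses and few negated variables do not help: a conjunction of copies.** -/
theorem neg_cover_and (K : MonoClass) {β Y : Type} [Fintype β] [Nonempty β] [Fintype Y]
    {r q w : ℕ} (g : (β → Bool) → Bool) (hg : Monotone g)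
    (F : Y → (Fin r × β ⊕ Fin r × β → Bool) → Bool) (hF : ∀ y, K.mem _ (F y))
    (f : (Fin r × β → Bool) → Prop) (hf : ∀ x, f x ↔ ∀ i, g (fun b => x (i, b)) = true)
    (h : FewNeg w F f) (hY : Fintype.card Y * (r * Fintype.card β + 1) ^ w < q ^ r) :
    ∃ Gs : List ((β → Bool) → Bool), Gs.length ≤ Fintype.card β * q ∧
      (∀ G ∈ Gs, K.mem β G) ∧ ∀ u, g u = true ↔ ∃ G ∈ Gs, G u = true := by
  classical
  have hm : Monotone fun x => decide (f x) := by
    intro x y hxy
    rw [Bool.le_iff_imp]
    simp only [decide_eq_true_eq, hf]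
    intro hx i
    exact Bool.le_iff_imp.mp (hg fun b => hxy (i, b)) (hx i)
  obtain ⟨J, _, C, hJ, hC, hfC⟩ := of_neg_aux K F hF (fun x => decide (f x)) hm
    (fun y x hy => decide_eq_true (h.1 y x hy)) w (fun x hx => by
      obtain ⟨y, Z, h1, h2, h3⟩ := h.2 x (of_decide_eq_true hx)
      refine ⟨y, Z, h1, h2, fun z hz => ?_⟩
      refine Bool.le_iff_imp.mp (K.mono _ (F y) (hF y) fun s => ?_) h3
      rcases s with v | v
      · exact le_rfl
      · show Set.indicator (Z : Set (Fin r × β)) (fun _ => true) v ≤ z v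
        rw [ind_eq]
        show decide (v ∈ Z) ≤ z v
        by_cases hv : v ∈ Z
        · rw [hz v hv]
          exact Bool.le_true _
        · rw [decide_eq_false hv]
          exact Bool.false_le _)
  refine guess_cover K g C hC (r := r) (q := q) ?_ fun x => ?_
  · refine lt_of_le_of_lt hJ ?_
    rwa [Fintype.card_prod, Fintype.card_fin]
  · rw [← hfC x, decide_eq_true_eq, hf]

/-- **Guesses and few negated variables do not help.** Suppose that the substitution `φ` of
variables or constants for the variables turns `f` into the conjunction of `r` copies of the monotone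
function `g`, and that `f` is computed by devices of the class `K` with the guesses `y ∈ Y` and with
at most `w` negated variables in one accepting computation. If `|Y| (r b + 1) ^ w < q ^ r`, then `g`
is a disjunction of at most `b q` functions of the class. -/
theorem neg_cover (K : MonoClass) {ι β Y : Type} [Fintype β] [Nonempty β] [Fintype Y] {r q w : ℕ}
    (g : (β → Bool) → Bool) (hg : Monotone g) (φ : ι → (Fin r × β) ⊕ Bool)
    (f : (ι → Bool) → Prop)
    (hφ : ∀ x : Fin r × β → Bool, f (fun e => Sum.elim x id (φ e)) ↔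
      ∀ i, g (fun j => x (i, j)) = true)
    (F : Y → (ι ⊕ ι → Bool) → Bool) (hF : ∀ y, K.mem _ (F y)) (hf : FewNeg w F f)
    (hY : Fintype.card Y * (r * Fintype.card β + 1) ^ w < q ^ r) :
    ∃ Gs : List ((β → Bool) → Bool), Gs.length ≤ Fintype.card β * q ∧
      (∀ G ∈ Gs, K.mem β G) ∧ ∀ u, g u = true ↔ ∃ G ∈ Gs, G u = true := by
  classical
  refine neg_cover_and K g hg (fun y x => F y fun s => Sum.elim x id (litMap φ s))
    (fun y => K.subst _ _ (F y) (litMap φ) (hF y)) (fun x => f fun e => Sum.elim x id (φ e)) hφ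
    ⟨fun y x hy => hf.1 y _ ?_, fun x hx => ?_⟩ hY
  · change F y (fun s => Sum.elim (Sum.elim x fun k => !x k) id (litMap φ s)) = true at hy
    rw [litMap_not] at hy
    exact hy
  · obtain ⟨y, Z, hc, h0, hy⟩ := hf.2 _ hx
    have hv : ∀ v, Set.indicator (Z : Set ι) (fun _ => true) v = true → v ∈ Z := by
      intro v hv
      rw [ind_eq] at hv
      exact of_decide_eq_true hv
    obtain ⟨Z', h1, h2, h3⟩ := restrict_core K (hF y) φ x Z
      (Set.indicator (Z : Set ι) fun _ => true) (fun v h => Or.inl (hv v h))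
      (fun v h => h0 v (hv v h)) hy
    exact ⟨y, Z', h1.trans hc, h2, h3⟩

/-- **The same when only the negated variables in `U` are counted** and the variables outside `U`
become constants. -/
theorem neg_cover_on (K : MonoClass) {ι β Y : Type} [Fintype β] [Nonempty β] [Fintype Y]
    {r q w : ℕ} (g : (β → Bool) → Bool) (hg : Monotone g) (U : Finset ι)
    (φ : ι → (Fin r × β) ⊕ Bool) (hU : ∀ v, v ∉ U → ∃ c, φ v = .inr c) (f : (ι → Bool) → Prop)
    (hφ : ∀ x : Fin r × β → Bool, f (fun e => Sum.elim x id (φ e)) ↔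
      ∀ i, g (fun j => x (i, j)) = true)
    (F : Y → (ι ⊕ ι → Bool) → Bool) (hF : ∀ y, K.mem _ (F y)) (hf : FewNegOn U w F f)
    (hY : Fintype.card Y * (r * Fintype.card β + 1) ^ w < q ^ r) :
    ∃ Gs : List ((β → Bool) → Bool), Gs.length ≤ Fintype.card β * q ∧
      (∀ G ∈ Gs, K.mem β G) ∧ ∀ u, g u = true ↔ ∃ G ∈ Gs, G u = true := by
  classical
  refine neg_cover_and K g hg (fun y x => F y fun s => Sum.elim x id (litMap φ s))
    (fun y => K.subst _ _ (F y) (litMap φ) (hF y)) (fun x => f fun e => Sum.elim x id (φ e)) hφ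
    ⟨fun y x hy => hf.1 y _ ?_, fun x hx => ?_⟩ hY
  · change F y (fun s => Sum.elim (Sum.elim x fun k => !x k) id (litMap φ s)) = true at hy
    rw [litMap_not] at hy
    exact hy
  · obtain ⟨y, Z, -, hc, h0, hy⟩ := hf.2 _ hx
    have ha : ∀ v, (if v ∈ U then decide (v ∈ Z) else !(Sum.elim x id (φ v) : Bool)) = true →
        v ∈ Z ∨ ∃ c, φ v = .inr c := by
      intro v hv
      by_cases hvU : v ∈ U
      · rw [if_pos hvU] at hv
        exact Or.inl (of_decide_eq_true hv)
      · exact Or.inr (hU v hvU)
    have hb : ∀ v, (if v ∈ U then decide (v ∈ Z) else !(Sum.elim x id (φ v) : Bool)) = true →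
        Sum.elim x id (φ v) = false := by
      intro v hv
      by_cases hvU : v ∈ U
      · rw [if_pos hvU] at hv
        exact h0 v (of_decide_eq_true hv)
      · rw [if_neg hvU] at hv
        simpa using hv
    obtain ⟨Z', h1, h2, h3⟩ := restrict_core K (hF y) φ x Z _ ha hb (by convert hy)
    exact ⟨y, Z', h1.trans hc, h2, h3⟩

/-- **Every set `U` of variables**: the function with self-addressing selectors. -/
theorem neg_cover_self (K : MonoClass) {r L q w r' : ℕ} {β Y : Type} [Fintype β] [Nonempty β]
    [Fintype Y] (hL : 2 ≤ L) (code : SelfVar r L β → Fin L → Bool)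
    (hcode : Function.Injective code) (g : (β → Bool) → Bool) (hg : Monotone g)
    (h0 : g (fun _ => false) = false) (h1 : g (fun _ => true) = true)
    (U : Finset (SelfVar r L β)) (hr : r' * (4 * Fintype.card β * L) ≤ U.card)
    (F : Y → (SelfVar r L β ⊕ SelfVar r L β → Bool) → Bool) (hF : ∀ y, K.mem _ (F y))
    (h : FewNegOn U w F (SelfAnd code g)) (hY : Fintype.card Y * (U.card + 1) ^ w < q ^ r') :
    ∃ Gs : List ((β → Bool) → Bool), Gs.length ≤ Fintype.card β * q ∧
      (∀ G ∈ Gs, K.mem β G) ∧ ∀ u, g u = true ↔ ∃ G ∈ Gs, G u = true := by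
  obtain ⟨φ, hφ, -, hf⟩ := exists_selfAnd_restriction hL code hcode g h0 h1 U r' hr
  refine neg_cover_on K g hg U φ hφ (SelfAnd code g) hf F hF h (lt_of_le_of_lt ?_ hY)
  refine Nat.mul_le_mul_left _ (Nat.pow_le_pow_left (Nat.succ_le_succ ?_) w)
  refine le_trans ?_ hr
  refine Nat.mul_le_mul_left _ ?_
  calc Fintype.card β = Fintype.card β * 1 := (mul_one _).symm
    _ ≤ Fintype.card β * (4 * L) := Nat.mul_le_mul_left _ (by omega)
    _ = 4 * Fintype.card β * L := by ring

end Pool.Agent.GB24
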