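import Pool.Agent.GB24.Cover
import Pool.Agent.GB24.Neg
import Pool.Agent.GB24.AvgDefs

/-!
# Few negated variables do not help for almost all inputs of a fixed set

If `g` is not the disjunction of `b q` functions of a class `K`, then the greedy covering of the
ones of `g` gets stuck, so there is a nonempty set `S` of ones of `g` such that every function of the
class below `g` accepts at most the `q`-th part of `S`. For conjunctions of `r` copies of `g` the
functions of the class accept at most the `q ^ r`-th part of `S ^ r`.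
-/

namespace Pool.Agent.GB24

open Finset Pool.Agent.NTR.Gen

/-- **The greedy covering gets stuck.** -/
theorem exists_hard_set (K : MonoClass) {β : Type} [Fintype β] [Nonempty β] {q : ℕ}
    (g : (β → Bool) → Bool)
    (h : ¬ ∃ Gs : List ((β → Bool) → Bool), Gs.length ≤ Fintype.card β * q ∧
      (∀ G ∈ Gs, K.mem β G) ∧ ∀ u, g u = true ↔ ∃ G ∈ Gs, G u = true) :
    ∃ S : Finset (β → Bool), S.Nonempty ∧ (∀ u ∈ S, g u = true) ∧
      ∀ G, K.mem β G → (∀ u, G u = true → g u = true) →
        q * (S.filter fun u => G u = true).card ≤ S.card := by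
  classical
  by_contra hcon
  push Not at hcon
  apply h
  rcases Nat.eq_zero_or_pos q with h0 | hq
  · subst h0
    refine ⟨[], by simp, by simp, fun u => ?_⟩
    simp only [List.not_mem_nil, false_and, exists_false, iff_false]
    intro hu
    obtain ⟨G, -, -, hG⟩ := hcon {u} (singleton_nonempty u) (by simpa using hu)
    omega
  · have step : ∀ m : ℕ, ∃ Gs : List ((β → Bool) → Bool), Gs.length ≤ m ∧
        (∀ G ∈ Gs, K.mem β G ∧ ∀ u, G u = true → g u = true) ∧
        q ^ m * (univ.filter fun u => g u = true ∧ ∀ G ∈ Gs, ¬ G u = true).card ≤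
          (q - 1) ^ m * 2 ^ Fintype.card β := by
      intro m
      induction m with
      | zero =>
        refine ⟨[], le_rfl, by simp, ?_⟩
        rw [pow_zero, pow_zero, one_mul, one_mul]
        refine (Finset.card_le_univ _).trans ?_
        rw [Fintype.card_fun, Fintype.card_bool]
      | succ m ih =>
        obtain ⟨Gs, h1, h2, h3⟩ := ih
        set S := univ.filter fun u => g u = true ∧ ∀ G ∈ Gs, ¬ G u = true with hS
        rcases S.eq_empty_or_nonempty with h0 | h0
        · refine ⟨Gs, by omega, h2, ?_⟩
          rw [← hS, h0]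
          simp
        · obtain ⟨G, hK, hle, hG⟩ := hcon S h0 fun u hu => (Finset.mem_filter.1 hu).2.1
          refine ⟨G :: Gs, by simpa using h1, ?_, ?_⟩
          · intro G' hG'
            rcases List.mem_cons.1 hG' with rfl | hG'
            · exact ⟨hK, hle⟩
            · exact h2 G' hG'
          · have e1 : (univ.filter fun u => g u = true ∧ ∀ G' ∈ G :: Gs, ¬ G' u = true) =
                S.filter fun u => ¬ G u = true := by
              ext u
              simp only [hS, Finset.mem_filter, List.mem_cons, forall_eq_or_imp]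
              tauto
            have e2 := Finset.card_filter_add_card_filter_not (s := S) (fun u => G u = true)
            rw [e1]
            have e3 : q * (S.filter fun u => ¬ G u = true).card ≤ (q - 1) * S.card := by
              obtain ⟨k, rfl⟩ : ∃ k, q = k + 1 := ⟨q - 1, by omega⟩
              rw [Nat.add_sub_cancel]
              nlinarith
            calc q ^ (m + 1) * (S.filter fun u => ¬ G u = true).card
                = q ^ m * (q * (S.filter fun u => ¬ G u = true).card) := by ring
              _ ≤ q ^ m * ((q - 1) * S.card) := Nat.mul_le_mul_left _ e3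
              _ = (q - 1) * (q ^ m * S.card) := by ring
              _ ≤ (q - 1) * ((q - 1) ^ m * 2 ^ Fintype.card β) := Nat.mul_le_mul_left _ h3
              _ = (q - 1) ^ (m + 1) * 2 ^ Fintype.card β := by ring
    obtain ⟨Gs, h1, h2, h3⟩ := step (Fintype.card β * q)
    refine ⟨Gs, h1, fun G hG => (h2 G hG).1, fun u => ⟨fun hu => ?_, ?_⟩⟩
    · have hb : 0 < Fintype.card β := Fintype.card_pos
      have h4 : (q - 1) ^ (Fintype.card β * q) * 2 ^ Fintype.card β
          < q ^ (Fintype.card β * q) := by
        rw [mul_comm (Fintype.card β) q, pow_mul, pow_mul, ← mul_pow]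
        refine Nat.pow_lt_pow_left ?_ hb.ne'
        rw [mul_comm]
        exact two_mul_pow_lt hq
      by_contra hno
      push Not at hno
      have h5 : 1 ≤ (univ.filter fun u => g u = true ∧ ∀ G ∈ Gs, ¬ G u = true).card :=
        Finset.card_pos.2 ⟨u, Finset.mem_filter.2 ⟨Finset.mem_univ u, hu, hno⟩⟩
      have h6 : q ^ (Fintype.card β * q) ≤ (q - 1) ^ (Fintype.card β * q) * 2 ^ Fintype.card β :=
        calc q ^ (Fintype.card β * q) = q ^ (Fintype.card β * q) * 1 := (mul_one _).symm
          _ ≤ _ := Nat.mul_le_mul_left _ h5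
          _ ≤ _ := h3
      exact absurd (h6.trans_lt h4) (lt_irrefl _)
    · rintro ⟨G, hG, hGu⟩
      exact (h2 G hG).2 u hGu

/-- The inputs all of whose blocks belong to `S`. -/
noncomputable def powSet {β : Type} (r : ℕ) (S : Finset (β → Bool)) :
    Finset (Fin r × β → Bool) := by
  classical
  exact (Fintype.piFinset fun _ : Fin r => S).map ⟨fun x e => x e.1 e.2, fun x y h => by
    funext i b
    exact congrFun h (i, b)⟩

lemma mem_powSet {β : Type} {r : ℕ} {S : Finset (β → Bool)} {x : Fin r × β → Bool} :
    x ∈ powSet r S ↔ ∀ i, (fun b => x (i, b)) ∈ S := by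
  classical
  unfold powSet
  rw [Finset.mem_map]
  constructor
  · rintro ⟨y, hy, rfl⟩ i
    exact Fintype.mem_piFinset.1 hy i
  · intro h
    exact ⟨fun i b => x (i, b), Fintype.mem_piFinset.2 h, rfl⟩

lemma card_powSet {β : Type} (r : ℕ) (S : Finset (β → Bool)) :
    (powSet r S).card = S.card ^ r := by
  classical
  unfold powSet
  rw [Finset.card_map, Fintype.card_piFinset_const]

/-- A monotone function below the conjunction of `r` copies accepts at most the `q ^ r`-th part. -/
theorem pow_bound (K : MonoClass) {β : Type} {r q : ℕ} (g : (β → Bool) → Bool)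
    {S : Finset (β → Bool)}
    (hS : ∀ G, K.mem β G → (∀ u, G u = true → g u = true) →
      q * (S.filter fun u => G u = true).card ≤ S.card)
    (C : (Fin r × β → Bool) → Bool) (hC : K.mem _ C)
    (hle : ∀ x, C x = true → ∀ i, g (fun b => x (i, b)) = true) :
    q ^ r * ((powSet r S).filter fun x => C x = true).card ≤ (powSet r S).card := by
  classical
  let T : Fin r → Finset (β → Bool) := fun i => S.filter fun u => C (block i u) = true
  have hT : ∀ i, q * (T i).card ≤ S.card := fun i =>
    hS (fun u => C (block i u)) (mem_block K i C hC) fun u hu => by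
      have := hle (block i u) hu i
      simpa [block] using this
  have h1 : ((powSet r S).filter fun x => C x = true).card ≤ ∏ i, (T i).card := by
    rw [← Fintype.card_piFinset]
    refine Finset.card_le_card_of_injOn (fun x i b => x (i, b)) ?_ ?_
    · intro x hx
      rw [Finset.mem_coe, Finset.mem_filter] at hx
      rw [Finset.mem_coe, Fintype.mem_piFinset]
      intro i
      refine Finset.mem_filter.2 ⟨mem_powSet.1 hx.1 i, ?_⟩
      have h2 := K.mono _ _ hC (show x ≤ block i (fun b => x (i, b)) by
        intro e
        by_cases he : e.1 = i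
        · subst he; simp [block]
        · simp [block, he])
      rw [hx.2] at h2
      exact top_le_iff.1 h2
    · intro x _ y _ hxy
      funext e
      exact congrFun (congrFun hxy e.1) e.2
  calc q ^ r * ((powSet r S).filter fun x => C x = true).card ≤ q ^ r * ∏ i, (T i).card :=
        Nat.mul_le_mul_left _ h1
    _ = ∏ i, (q * (T i).card) := by
        rw [Finset.prod_mul_distrib, Finset.prod_const, Finset.card_univ, Fintype.card_fin]
    _ ≤ ∏ _i : Fin r, S.card := Finset.prod_le_prod (fun _ _ => Nat.zero_le _) fun i _ => hT i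
    _ = (powSet r S).card := by
        rw [card_powSet, Finset.prod_const, Finset.card_univ, Fintype.card_fin]

/-- One-sided devices which use few negated variables are disjunctions of few monotone functions
on the inputs accepted in this way. -/
theorem acc_family (K : MonoClass) {ι Y : Type} [Fintype ι] [Fintype Y]
    (F : Y → (ι ⊕ ι → Bool) → Bool) (hF : ∀ y, K.mem _ (F y)) (f : (ι → Bool) → Prop)
    (hm : ∀ x y : ι → Bool, x ≤ y → f x → f y)
    (hs : ∀ y x, F y (Sum.elim x fun i => !x i) = true → f x) (w : ℕ) :
    ∃ (J : Type) (_ : Fintype J) (C : J → (ι → Bool) → Bool),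
      Fintype.card J ≤ Fintype.card Y * (Fintype.card ι + 1) ^ w ∧ (∀ j, K.mem _ (C j)) ∧
      (∀ j x, C j x = true → f x) ∧ ∀ x, AccNeg w F x → ∃ j, C j x = true := by
  classical
  let Zs : (Fin w → Option ι) → Finset ι := fun s => univ.filter fun i => ∃ a, s a = some i
  let φ : (Fin w → Option ι) → ι ⊕ ι → ι ⊕ Bool := fun s =>
    Sum.elim (fun i => if i ∈ Zs s then .inr false else .inl i) fun i => .inr (decide (i ∈ Zs s))
  have hval : ∀ (x : ι → Bool) s, (fun i => Sum.elim x id (φ s i)) =
      Sum.elim (fun i => if i ∈ Zs s then false else x i) fun i => decide (i ∈ Zs s) := by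
    intro x s
    funext i
    rcases i with i | i
    · by_cases h : i ∈ Zs s <;> simp [φ, h]
    · simp [φ]
  refine ⟨Y × (Fin w → Option ι), inferInstance,
    fun j x => F j.1 fun i => Sum.elim x id (φ j.2 i), ?_, ?_, ?_, ?_⟩
  · rw [Fintype.card_prod, Fintype.card_fun, Fintype.card_option, Fintype.card_fin]
  · rintro ⟨y, s⟩
    exact K.subst _ _ (F y) (φ s) (hF y)
  · rintro ⟨y, s⟩ x hj
    change F y (fun i => Sum.elim x id (φ s i)) = true at hj
    rw [hval] at hj
    have h1 := K.mono _ (F y) (hF y) (show
      (Sum.elim (fun i => if i ∈ Zs s then false else x i) fun i => decide (i ∈ Zs s)) ≤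
      (Sum.elim (fun i => if i ∈ Zs s then false else x i) fun i =>
        !(if i ∈ Zs s then false else x i) : ι ⊕ ι → Bool) from by
      rintro (i | i)
      · exact le_rfl
      · by_cases h : i ∈ Zs s
        · simp [h]
        · simp [h])
    rw [hj] at h1
    refine hm _ x ?_ (hs y _ (top_le_iff.1 h1))
    intro i
    by_cases h : i ∈ Zs s
    · simp [h]
    · simp [h]
  · rintro x ⟨y, Z, hZ, h0, hy⟩
    let s : Fin w → Option ι := fun a =>
      if h : (a : ℕ) < Z.card then some (Z.equivFin.symm ⟨a, h⟩ : {i // i ∈ Z}).1 else none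
    have hsZ : Zs s = Z := by
      ext i
      simp only [Zs, s, mem_filter, mem_univ, true_and]
      constructor
      · rintro ⟨a, ha⟩
        by_cases h : (a : ℕ) < Z.card
        · rw [dif_pos h] at ha
          rw [← Option.some.inj ha]
          exact (Z.equivFin.symm ⟨a, h⟩).2
        · rw [dif_neg h] at ha
          exact absurd ha (by simp)
      · intro hi
        refine ⟨⟨Z.equivFin ⟨i, hi⟩, (Z.equivFin ⟨i, hi⟩).2.trans_le hZ⟩, ?_⟩
        rw [dif_pos (Z.equivFin ⟨i, hi⟩).2]
        simp
    refine ⟨(y, s), ?_⟩
    show F y (fun i => Sum.elim x id (φ s i)) = true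
    rw [hval, hsZ]
    have hxe : (fun i => if i ∈ Z then false else x i) = x := by
      funext i
      by_cases h : i ∈ Z
      · rw [if_pos h, h0 i h]
      · rw [if_neg h]
    rw [hxe]
    have hz : (fun i => decide (i ∈ Z)) = Set.indicator (Z : Set ι) fun _ => true := by
      funext i
      by_cases h : i ∈ Z
      · simp [h]
      · simp only [Set.indicator, Finset.mem_coe, h, if_false, decide_false]
        rfl
    rw [hz]
    exact hy

/-- **Hard inputs.** Suppose that `φ` turns `f` into the conjunction of `r` copies of the monotone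
function `g` of `b` variables, and that `g` is not a disjunction of `b q` functions of the class
`K`. Then there is a nonempty set `M` of inputs with `f x` such that every device of the class `K`
with guesses which accepts only inputs with `f x` accepts at most `|Y| (r b + 1) ^ w q ^ (- r) |M|`
elements of `M` with at most `w` negated variables. -/
theorem hard_inputs (K : MonoClass) {ι β : Type} [Fintype β] [Nonempty β] {r q : ℕ}
    (g : (β → Bool) → Bool) (hg : Monotone g) (φ : ι → (Fin r × β) ⊕ Bool)
    (hsurj : ∀ v, ∃ e, φ e = Sum.inl v) (f : (ι → Bool) → Prop)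
    (hφ : ∀ x : Fin r × β → Bool, f (fun e => Sum.elim x id (φ e)) ↔
      ∀ i, g (fun j => x (i, j)) = true)
    (hno : ¬ ∃ Gs : List ((β → Bool) → Bool), Gs.length ≤ Fintype.card β * q ∧
      (∀ G ∈ Gs, K.mem β G) ∧ ∀ u, g u = true ↔ ∃ G ∈ Gs, G u = true) :
    ∃ M : Finset (ι → Bool), M.Nonempty ∧ (∀ x ∈ M, f x) ∧
      ∀ (Y : Type) [Fintype Y] (w : ℕ) (F : Y → (ι ⊕ ι → Bool) → Bool), (∀ y, K.mem _ (F y)) →
        (∀ y x, F y (Sum.elim x fun i => !x i) = true → f x) →
        q ^ r * {x | x ∈ M ∧ AccNeg w F x}.ncard ≤
          Fintype.card Y * (r * Fintype.card β + 1) ^ w * M.card := by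
  classical
  obtain ⟨S, hS1, hS2, hS3⟩ := exists_hard_set K g hno
  have hinj : Function.Injective fun (x : Fin r × β → Bool) (e : ι) => Sum.elim x id (φ e) := by
    intro x y hxy
    funext v
    obtain ⟨e, he⟩ := hsurj v
    have h1 := congrFun hxy e
    simpa [he] using h1
  refine ⟨(powSet r S).map ⟨_, hinj⟩, ?_, ?_, ?_⟩
  · rw [Finset.map_nonempty, ← Finset.card_pos, card_powSet]
    exact pow_pos (Finset.card_pos.2 hS1) r
  · intro x hx
    obtain ⟨x₀, hx₀, rfl⟩ := Finset.mem_map.1 hx
    exact (hφ x₀).2 fun i => hS2 _ (mem_powSet.1 hx₀ i)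
  · intro Y _ w F hF hs
    obtain ⟨J, _, C, hJ, hC, hle, hacc⟩ := acc_family K
      (fun y x => F y fun s => Sum.elim x id (litMap φ s))
      (fun y => K.subst _ _ (F y) (litMap φ) (hF y))
      (fun x => ∀ i, g (fun j => x (i, j)) = true)
      (fun x y hxy h i => Bool.le_iff_imp.mp (hg fun b => hxy (i, b)) (h i))
      (fun y x hy => by
        change F y (fun s => Sum.elim (Sum.elim x fun k => !x k) id (litMap φ s)) = true at hy
        rw [litMap_not] at hy
        exact (hφ x).1 (hs y _ hy)) w
    have h1 : {x | x ∈ (powSet r S).map ⟨_, hinj⟩ ∧ AccNeg w F x}.ncard ≤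
        (univ.biUnion fun j : J => (powSet r S).filter fun x => C j x = true).card := by
      rw [← Set.ncard_coe_finset]
      refine le_trans (Set.ncard_le_ncard (t := (fun (x : Fin r × β → Bool) (e : ι) =>
        Sum.elim x id (φ e)) '' ((univ.biUnion fun j : J =>
          (powSet r S).filter fun x => C j x = true : Finset (Fin r × β → Bool)) :
          Set (Fin r × β → Bool))) ?_ (Set.toFinite _)) (Set.ncard_image_le (Set.toFinite _))
      rintro x ⟨hx, y, Z, hZ, h0, hy⟩
      obtain ⟨x₀, hx₀, rfl⟩ := Finset.mem_map.1 hx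
      change F y (Sum.elim (fun e => Sum.elim x₀ id (φ e)) _) = true at hy
      have hv : ∀ v, Set.indicator (Z : Set ι) (fun _ => true) v = true → v ∈ Z := by
        intro v hv
        rw [ind_eq] at hv
        exact of_decide_eq_true hv
      obtain ⟨Z', h1, h2, h3⟩ := restrict_core K (hF y) φ x₀ Z
        (Set.indicator (Z : Set ι) fun _ => true) (fun v h => Or.inl (hv v h))
        (fun v h => h0 v (hv v h)) hy
      obtain ⟨j, hj⟩ := hacc x₀ ⟨y, Z', h1.trans hZ, h2, h3⟩
      exact ⟨x₀, by
        rw [Finset.mem_coe, Finset.mem_biUnion]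
        exact ⟨j, Finset.mem_univ j, Finset.mem_filter.2 ⟨hx₀, hj⟩⟩, rfl⟩
    rw [Finset.card_map]
    calc q ^ r * {x | x ∈ (powSet r S).map ⟨_, hinj⟩ ∧ AccNeg w F x}.ncard
        ≤ q ^ r * (univ.biUnion fun j : J => (powSet r S).filter fun x => C j x = true).card :=
          Nat.mul_le_mul_left _ h1
      _ ≤ q ^ r * ∑ j : J, ((powSet r S).filter fun x => C j x = true).card :=
          Nat.mul_le_mul_left _ Finset.card_biUnion_le
      _ = ∑ j : J, q ^ r * ((powSet r S).filter fun x => C j x = true).card := Finset.mul_sum _ _ _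
      _ ≤ ∑ _j : J, (powSet r S).card :=
          Finset.sum_le_sum fun j _ => pow_bound K g hS3 (C j) (hC j) (hle j)
      _ = Fintype.card J * (powSet r S).card := by
          rw [Finset.sum_const, Finset.card_univ, smul_eq_mul]
      _ ≤ Fintype.card Y * (r * Fintype.card β + 1) ^ w * (powSet r S).card := by
          refine Nat.mul_le_mul_right _ (hJ.trans (le_of_eq ?_))
          rw [Fintype.card_prod, Fintype.card_fin]

end Pool.Agent.GB24
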