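import Pool.Agent.GB24.HiddenUClique

/-!
# Numbers for the average case
-/

set_option autoImplicit false

namespace Pool.Agent.GB24.Loc

open Pool.Agent.NTN

lemma mul_ccz_le {K : ℕ} (hK : 1 ≤ K) (x : ℕ) : K * ccz x ≤ ccz (K * x) := by
  have h1 : K ≤ K ^ 4 := Nat.le_self_pow (by norm_num) K
  have h2 : Nat.log 2 x ≤ Nat.log 2 (K * x) := Nat.log_mono_right (Nat.le_mul_of_pos_left _ hK)
  unfold ccz
  calc K * (2 ^ 122 * x ^ 4 * (Nat.log 2 x + 1) ^ 6)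
      ≤ K ^ 4 * (2 ^ 122 * x ^ 4 * (Nat.log 2 (K * x) + 1) ^ 6) :=
        Nat.mul_le_mul h1 (Nat.mul_le_mul_left _ (Nat.pow_le_pow_left (by omega) 6))
    _ = 2 ^ 122 * (K * x) ^ 4 * (Nat.log 2 (K * x) + 1) ^ 6 := by ring

/-- For large `N`: `s = (c + 1) (log N + 1)` satisfies `N ^ c ≤ 2 ^ s` and `K ccz (q s) ≤ (log N) ^ 5`. -/
lemma avg_numbers (c q K : ℕ) (hq : 1 ≤ q) (hK : 1 ≤ K) : ∃ N₀ : ℕ, ∀ N ≥ N₀, ∃ s : ℕ, 1 ≤ s ∧
    K ≤ s ∧ N ^ c ≤ 2 ^ s ∧ K * ccz (q * s) ≤ Nat.log 2 N ^ 5 := by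
  obtain ⟨L₀, -, hL₀⟩ := ccz_small (c := K * (q * (c + 1)))
    (Nat.one_le_iff_ne_zero.2 (by positivity))
  refine ⟨2 ^ (L₀ + K + 1), fun m hm => ?_⟩
  have hm0 : m ≠ 0 := by
    have : 0 < 2 ^ (L₀ + K + 1) := by positivity
    omega
  set L := Nat.log 2 m with hL
  have h1 : L₀ + K + 1 ≤ L := (Nat.le_log_iff_pow_le (by norm_num) hm0).2 hm
  have hmL : m < 2 ^ (L + 1) := Nat.lt_pow_succ_log_self (by norm_num) m
  refine ⟨(c + 1) * (L + 1), Nat.one_le_iff_ne_zero.2 (by positivity), ?_, ?_, ?_⟩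
  · have h2 : L + 1 ≤ (c + 1) * (L + 1) := Nat.le_mul_of_pos_left _ (Nat.succ_pos c)
    omega
  · calc m ^ c ≤ (2 ^ (L + 1)) ^ c := Nat.pow_le_pow_left hmL.le c
      _ = 2 ^ ((L + 1) * c) := (pow_mul 2 _ _).symm
      _ ≤ 2 ^ ((c + 1) * (L + 1)) := Nat.pow_le_pow_right (by norm_num) (by nlinarith)
  · refine (mul_ccz_le hK _).trans ?_
    have h3 : K * (q * ((c + 1) * (L + 1))) = K * (q * (c + 1)) * (L + 1) := by ring
    rw [h3]
    exact hL₀ L (by omega)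

/-- The average bound for `w = ⌊e / (log N) ^ 5⌋` zeros is less than `51 / 100`. -/
lemma avg_51 {N s e c : ℕ} (hs : 10 ≤ s) (hc : 1000 * c ≤ Nat.log 2 N ^ 5)
    (he : Nat.log 2 N ^ 5 ≤ e) (hL : 1 ≤ Nat.log 2 N) :
    (1 / 2 : ℝ) + (1 / 2) ^ s + ((e / Nat.log 2 N ^ 5 : ℕ) + 1) * c / (e / 2 : ℕ)
      < 51 / 100 := by
  set M := Nat.log 2 N ^ 5 with hM
  have hM0 : 1 ≤ M := Nat.one_le_pow _ _ hL
  set w := e / M with hw
  have hw1 : 1 ≤ w := (Nat.one_le_div_iff hM0).2 he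
  have h1 : w * M ≤ e := Nat.div_mul_le_self _ _
  rcases Nat.lt_or_ge e 2 with h2 | h2
  · have h3 : e / 2 = 0 := by omega
    rw [h3]
    have h4 : ((1 / 2 : ℝ)) ^ s ≤ (1 / 2) ^ 7 :=
      pow_le_pow_of_le_one (by norm_num) (by norm_num) (by omega)
    norm_num at h4 ⊢
    linarith
  · have h3 : e ≤ 4 * (e / 2) := by omega
    have hk : (0 : ℝ) < (e / 2 : ℕ) := by
      have : 0 < e / 2 := by omega
      exact_mod_cast this
    have h4 : 250 * ((w + 1) * c) ≤ 2 * (e / 2) := by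
      have e1 : (w + 1) * (1000 * c) ≤ 2 * (w * M) := by
        calc (w + 1) * (1000 * c) ≤ (2 * w) * M := Nat.mul_le_mul (by omega) hc
          _ = 2 * (w * M) := by ring
      have e2 : (w + 1) * (1000 * c) ≤ 2 * e := e1.trans (Nat.mul_le_mul_left _ h1)
      have e3 : (w + 1) * (1000 * c) = 1000 * ((w + 1) * c) := by ring
      rw [e3] at e2
      omega
    have h5 : ((w : ℝ) + 1) * c / (e / 2 : ℕ) ≤ 2 / 250 := by
      rw [div_le_div_iff₀ hk (by norm_num)]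
      have : (250 * ((w + 1) * c) : ℕ) ≤ ((2 * (e / 2) : ℕ)) := h4
      have h6 : (250 : ℝ) * ((w + 1) * c) ≤ 2 * (e / 2 : ℕ) := by exact_mod_cast this
      linarith
    have h6 : ((1 / 2 : ℝ)) ^ s ≤ (1 / 2) ^ 10 :=
      pow_le_pow_of_le_one (by norm_num) (by norm_num) (by omega)
    have h8 : ((1 / 2 : ℝ)) ^ 10 ≤ 2 / 1000 := by norm_num
    linarith

end Pool.Agent.GB24.Loc
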