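import Pool.Agent.PMU.Comp
import Pool.Agent.NTR.GenDefs

/-!
# The functions computed by circuits without NOT gates form a class; their disjunctions
-/

namespace Pool.Agent.GB24

open Pool.Agent.NegLim Pool.Agent.NTR Pool.Agent.PMU Gen

/-- The function `F` is computed by a circuit without NOT gates with at most `s` gates. -/
def MonCirc (s : ℕ) {V : Type} (F : (V → Bool) → Bool) : Prop :=
  ∃ (C : Circuit V) (o : Wire V), Circuit.negs C = 0 ∧ Circuit.size C ≤ s ∧
    ∀ x, Circuit.val C x o = F x

lemma getD_le {l l' : List Bool} (h : List.Forall₂ (· ≤ ·) l l') (i : ℕ) :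
    l.getD i false ≤ l'.getD i false := by
  induction h generalizing i with
  | nil => exact le_rfl
  | cons hab _ ih =>
    cases i with
    | zero => simpa using hab
    | succ i => simpa using ih i

lemma wire_mono {V : Type} {x y : V → Bool} (hxy : x ≤ y) {l l' : List Bool}
    (h : List.Forall₂ (· ≤ ·) l l') (a : Wire V) : a.val x l ≤ a.val y l' := by
  cases a with
  | var v => exact hxy v
  | const c => exact le_rfl
  | gate i => exact getD_le h i

lemma and_le {a b c d : Bool} (h1 : a ≤ c) (h2 : b ≤ d) : (a && b) ≤ (c && d) := by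
  revert a b c d; decide

lemma or_le {a b c d : Bool} (h1 : a ≤ c) (h2 : b ≤ d) : (a || b) ≤ (c || d) := by
  revert a b c d; decide

lemma gateVals_mono {V : Type} {x y : V → Bool} (hxy : x ≤ y) (C : Circuit V)
    (hC : Circuit.negs C = 0) {l l' : List Bool} (h : List.Forall₂ (· ≤ ·) l l') :
    List.Forall₂ (· ≤ ·) (gateVals x C l) (gateVals y C l') := by
  induction C generalizing l l' with
  | nil => exact h
  | cons g C ih =>
    unfold Circuit.negs at hC ih
    rw [List.countP_cons] at hC
    rw [gateVals, gateVals]
    refine ih (by omega) ?_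
    refine List.rel_append h (List.Forall₂.cons ?_ List.Forall₂.nil)
    cases g with
    | and a b => exact and_le (wire_mono hxy h a) (wire_mono hxy h b)
    | or a b => exact or_le (wire_mono hxy h a) (wire_mono hxy h b)
    | not a => simp [Gate.isNot] at hC

/-- The functions computed by circuits without NOT gates with at most `s` gates. -/
def circClass (s : ℕ) : MonoClass where
  mem _ F := MonCirc s F
  mono := by
    rintro ι F ⟨C, o, h1, -, h3⟩ x y hxy
    rw [← h3, ← h3]
    exact wire_mono hxy (gateVals_mono hxy C h1 List.Forall₂.nil) o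
  subst := by
    rintro ι κ F φ ⟨C, o, h1, h2, h3⟩
    let w : ι → Wire κ := fun i => Sum.elim (fun k => Wire.var k) (fun c => Wire.const c) (φ i)
    have hw : ∀ b, Bel ([] : Circuit κ).length (w b) := by
      intro b
      rcases h : φ b with k | c <;> simp [w, h, Bel]
    obtain ⟨E, e1, e2, -, e4⟩ := comp_circuit ([] : Circuit κ) w hw C
    obtain ⟨o', -, ho'⟩ := e4 o
    refine ⟨E, o', ?_, ?_, fun x => ?_⟩
    · rw [e2, h1]
      simp [Circuit.negs]
    · unfold Circuit.size at h2 ⊢
      rw [e1]
      simpa using h2
    · rw [ho', h3]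
      congr 1
      funext b
      rcases h : φ b with k | c <;> simp [w, h, Circuit.val, Wire.val]

/-- The disjunction of functions computed by circuits without NOT gates. -/
theorem or_list {V : Type} {s : ℕ} (Gs : List ((V → Bool) → Bool)) (h : ∀ G ∈ Gs, MonCirc s G) :
    ∃ (C : Circuit V) (o : Wire V), Circuit.negs C = 0 ∧ Circuit.size C ≤ Gs.length * (s + 1) ∧
      ∀ x, Circuit.val C x o = true ↔ ∃ G ∈ Gs, G x = true := by
  suffices hs : ∃ (C : Circuit V) (o : Wire V), Circuit.negs C = 0 ∧
      Circuit.size C ≤ Gs.length * (s + 1) ∧ Bel C.length o ∧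
      ∀ x, Circuit.val C x o = true ↔ ∃ G ∈ Gs, G x = true by
    obtain ⟨C, o, h1, h2, -, h4⟩ := hs
    exact ⟨C, o, h1, h2, h4⟩
  induction Gs with
  | nil => exact ⟨[], .const false, rfl, by simp [Circuit.size], trivial, fun x => by
      simp [Circuit.val, Wire.val]⟩
  | cons G Gs ih =>
    obtain ⟨D, o₁, h1, h2, h3, h4⟩ := ih fun G' hG' => h G' (List.mem_cons_of_mem _ hG')
    obtain ⟨C, o, c1, c2, c3⟩ := h G List.mem_cons_self
    obtain ⟨E, e1, e2, e3, e4⟩ := comp_circuit D (fun v => .var v) (fun _ => trivial) C
    obtain ⟨o₂, -, ho₂⟩ := e4 o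
    refine ⟨E ++ [.or o₁ o₂], .gate E.length, ?_, ?_, by simp [Bel], fun x => ?_⟩
    · unfold Circuit.negs at *
      rw [List.countP_append, e2, h1, c1]
      simp [Gate.isNot]
    · unfold Circuit.size at *
      rw [List.length_append, e1]
      simp only [List.length_cons, List.length_nil]
      have : (Gs.length + 1) * (s + 1) = Gs.length * (s + 1) + (s + 1) := by ring
      omega
    · have hlen : (gateVals x E []).length = E.length := by
        rw [gv_length]; simp
      have h5 : Circuit.val (E ++ [.or o₁ o₂]) x (.gate E.length)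
          = (Circuit.val E x o₁ || Circuit.val E x o₂) := by
        unfold Circuit.val
        rw [gateVals_append]
        simp only [gateVals, Wire.val, Gate.val]
        rw [List.getD_eq_getElem _ _ (by rw [List.length_append, hlen]; simp),
          List.getElem_append_right (by rw [hlen])]
        simp [hlen]
      rw [h5, e3 x o₁ h3, ho₂, Bool.or_eq_true, h4]
      have h6 : (fun b => Circuit.val D x (Wire.var b)) = x := by
        funext b
        rfl
      rw [h6, c3]
      simp only [List.mem_cons, exists_eq_or_imp]
      exact or_comm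

end Pool.Agent.GB24
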