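import Pool.Agent.TeleNeg.NetDefs

/-!
# Reachability on a numbered digraph contains conjunctions of layered reachability problems
-/

namespace Pool.Agent.GB24

open Pool.Agent.TeleNeg Relation

/-- There is a path from the vertex `0` to the vertex `N`. -/
def Conn {N : ℕ} (x : Fin (N + 1) × Fin (N + 1) → Bool) : Prop :=
  Relation.ReflTransGen (fun u v => x (u, v) = true) 0 (Fin.last N)

section pos

variable {k L M : ℕ}

/-- The numbers of the inner vertices. -/
noncomputable def idx : (Fin k × Fin (L + 1) × Fin M) ≃ Fin (k * (L + 1) * M) :=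
  Fintype.equivFinOfCardEq (by simp; ring)

/-- The number of the vertex `v` of the block `j`. -/
noncomputable def pos (j : ℕ) : Vtx k L M → ℕ
  | .s => j * (k * (L + 1) * M + 1)
  | .t => (j + 1) * (k * (L + 1) * M + 1)
  | .node κ i a => j * (k * (L + 1) * M + 1) + 1 + (idx (κ, i, a)).val

theorem pos_le (j : ℕ) (v : Vtx k L M) : pos j v ≤ (j + 1) * (k * (L + 1) * M + 1) := by
  cases v with
  | s => simp only [pos]; rw [add_mul]; omega
  | t => exact le_rfl
  | node κ i a =>
    simp only [pos]
    have := (idx (κ, i, a)).isLt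
    rw [add_mul]
    omega

theorem pos_lt (j : ℕ) (v : Vtx k L M) (hv : v ≠ .t) :
    pos j v < (j + 1) * (k * (L + 1) * M + 1) := by
  cases v with
  | s => simp only [pos]; rw [add_mul]; omega
  | t => exact (hv rfl).elim
  | node κ i a =>
    simp only [pos]
    have := (idx (κ, i, a)).isLt
    rw [add_mul]
    omega

theorem le_pos (j : ℕ) (v : Vtx k L M) : j * (k * (L + 1) * M + 1) ≤ pos j v := by
  cases v with
  | s => exact le_rfl
  | t => simp only [pos]; rw [add_mul]; omega
  | node κ i a => simp only [pos]; omega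

theorem pos_inj (j : ℕ) {v w : Vtx k L M} (h : pos j v = pos j w) : v = w := by
  have hs : ∀ κ i a, pos j (.s : Vtx k L M) ≠ pos j (.node κ i a : Vtx k L M) := by
    intro κ i a; simp only [pos]; omega
  have hst : pos j (.s : Vtx k L M) ≠ pos j (.t : Vtx k L M) := by
    simp only [pos]; rw [add_mul]; omega
  have ht : ∀ κ i a, pos j (.node κ i a : Vtx k L M) ≠ pos j (.t : Vtx k L M) := by
    intro κ i a
    have := pos_lt j (.node κ i a : Vtx k L M) (by simp)
    simp only [pos] at this ⊢
    omega
  cases v with
  | s =>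
    cases w with
    | s => rfl
    | t => exact (hst h).elim
    | node κ i a => exact (hs _ _ _ h).elim
  | t =>
    cases w with
    | s => exact (hst h.symm).elim
    | t => rfl
    | node κ i a => exact (ht _ _ _ h.symm).elim
  | node κ i a =>
    cases w with
    | s => exact (hs _ _ _ h.symm).elim
    | t => exact (ht _ _ _ h).elim
    | node κ' i' a' =>
      simp only [pos, Nat.add_left_cancel_iff] at h
      have h1 := idx.injective (Fin.ext h)
      simp only [Prod.mk.injEq] at h1
      rw [h1.1, h1.2.1, h1.2.2]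

/-- The number determines the block and the vertex, except for the last vertices. -/
theorem pos_inj' {j j' : ℕ} {v w : Vtx k L M} (hv : v ≠ .t) (hw : w ≠ .t)
    (h : pos j v = pos j' w) : j = j' ∧ v = w := by
  have h1 := pos_lt j v hv
  have h2 := pos_lt j' w hw
  have h3 := le_pos j v
  have h4 := le_pos j' w
  have hj : j = j' := by
    rcases lt_trichotomy j j' with h5 | h5 | h5
    · have : (j + 1) * (k * (L + 1) * M + 1) ≤ j' * (k * (L + 1) * M + 1) :=
        Nat.mul_le_mul_right _ h5
      omega
    · exact h5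
    · have : (j' + 1) * (k * (L + 1) * M + 1) ≤ j * (k * (L + 1) * M + 1) :=
        Nat.mul_le_mul_right _ h5
      omega
  subst hj
  exact ⟨rfl, pos_inj j h⟩

theorem tail_ne (a : Arc k L M) : a.tail ≠ .t := by
  cases a <;> simp [Arc.tail]

theorem arc_ext {a b : Arc k L M} (h1 : a.tail = b.tail) (h2 : a.head = b.head) : a = b := by
  cases a with
  | first κ x =>
    cases b with
    | first κ' x' =>
      simp only [Arc.head, Vtx.node.injEq] at h2
      rw [h2.1, h2.2.2]
    | mid κ' i' x' y' => simp [Arc.tail] at h1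
    | last κ' x' => simp [Arc.tail] at h1
  | mid κ i x y =>
    cases b with
    | first κ' x' => simp [Arc.tail] at h1
    | mid κ' i' x' y' =>
      simp only [Arc.head, Arc.tail, Vtx.node.injEq] at h1 h2
      have h3 := Fin.castSucc_injective _ h1.2.1
      rw [h1.1, h3, h1.2.2, h2.2.2]
    | last κ' x' => simp [Arc.head] at h2
  | last κ x =>
    cases b with
    | first κ' x' => simp [Arc.tail] at h1
    | mid κ' i' x' y' => simp [Arc.head] at h2
    | last κ' x' =>
      simp only [Arc.tail, Vtx.node.injEq] at h1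
      rw [h1.1, h1.2.2]

end pos

open Classical in
/-- The substitution. -/
noncomputable def blk (k L M r N : ℕ) (e : Fin (N + 1) × Fin (N + 1)) :
    (Fin r × Arc k L M) ⊕ Bool :=
  if h : ∃ p : Fin r × Arc k L M, pos p.1 p.2.tail = e.1.val ∧ pos p.1 p.2.head = e.2.val then
    .inl h.choose
  else .inr (decide (e.1.val = r * (k * (L + 1) * M + 1) ∧ e.2.val = N))

theorem blk_arc {k L M r N : ℕ} (p : Fin r × Arc k L M) (e : Fin (N + 1) × Fin (N + 1))
    (h1 : pos p.1 p.2.tail = e.1.val) (h2 : pos p.1 p.2.head = e.2.val) :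
    blk k L M r N e = .inl p := by
  have h : ∃ p : Fin r × Arc k L M, pos p.1 p.2.tail = e.1.val ∧ pos p.1 p.2.head = e.2.val :=
    ⟨p, h1, h2⟩
  unfold blk
  rw [dif_pos h]
  congr 1
  obtain ⟨h3, h4⟩ := h.choose_spec
  set p' := h.choose
  obtain ⟨h5, h6⟩ := pos_inj' (tail_ne _) (tail_ne _) (h3.trans h1.symm)
  have h7 : p'.1 = p.1 := Fin.ext h5
  have h8 := h4.trans h2.symm
  rw [h5] at h8
  exact Prod.ext h7 (arc_ext h6 (pos_inj _ h8))

theorem blk_cases {k L M r N : ℕ} (x : Fin r × Arc k L M → Bool) (e : Fin (N + 1) × Fin (N + 1))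
    (h : Sum.elim x id (blk k L M r N e) = true) :
    (∃ p : Fin r × Arc k L M, pos p.1 p.2.tail = e.1.val ∧ pos p.1 p.2.head = e.2.val ∧
      x p = true) ∨ (e.1.val = r * (k * (L + 1) * M + 1) ∧ e.2.val = N) := by
  by_cases h1 : ∃ p : Fin r × Arc k L M, pos p.1 p.2.tail = e.1.val ∧ pos p.1 p.2.head = e.2.val
  · obtain ⟨p, h2, h3⟩ := h1
    rw [blk_arc p e h2 h3] at h
    exact Or.inl ⟨p, h2, h3, h⟩
  · right
    unfold blk at h
    rw [dif_neg h1] at h
    simpa using h

theorem conn_blocks {k L M r N : ℕ} (h : r * (k * (L + 1) * M + 1) ≤ N) :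
    ∃ φ : Fin (N + 1) × Fin (N + 1) → (Fin r × Arc k L M) ⊕ Bool,
      ∀ x : Fin r × Arc k L M → Bool,
        Conn (fun e => Sum.elim x id (φ e)) ↔ ∀ i, Reach (fun a => x (i, a)) := by
  refine ⟨blk k L M r N, fun x => ⟨fun hc => ?_, fun hr => ?_⟩⟩
  · -- invariant along the path
    let P : ℕ → Prop := fun u => (∀ i : Fin r, Reach (fun a => x (i, a))) ∨
      ∃ j : Fin r, (∀ i : Fin r, i < j → Reach (fun a => x (i, a))) ∧
        ∃ v : Vtx k L M, u = pos j v ∧ v ≠ .t ∧
          ReflTransGen (fun u v => ∃ a : Arc k L M, x (j, a) = true ∧ a.tail = u ∧ a.head = v) .s v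
    have hstep : ∀ u w : Fin (N + 1), P u.val →
        Sum.elim x id (blk k L M r N (u, w)) = true → P w.val := by
      rintro u w (hu | ⟨j, hj, v, hv, hvt, hpath⟩) huw
      · exact Or.inl hu
      · rcases blk_cases x (u, w) huw with ⟨⟨j', a⟩, h1, h2, h3⟩ | ⟨h1, _⟩
        · simp only at h1 h2 h3
          obtain ⟨h4, h5⟩ := pos_inj' hvt (tail_ne a) (hv.symm.trans h1.symm)
          have h6 : j = j' := Fin.ext h4
          subst h6
          have hpath' := hpath.tail ⟨a, h3, h5.symm, rfl⟩
          by_cases ht : a.head = .t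
          · have hreach : Reach (fun a => x (j, a)) := by
              rw [ht] at hpath'
              exact hpath'
            have hle : ∀ i : Fin r, i ≤ j → Reach (fun a => x (i, a)) := by
              intro i hi
              rcases lt_or_eq_of_le hi with h7 | h7
              · exact hj i h7
              · rw [h7]; exact hreach
            by_cases hlast : j.val + 1 < r
            · right
              refine ⟨⟨j.val + 1, hlast⟩, fun i hi => hle i ?_, .s, ?_, by simp, .refl⟩
              · have : i.val < j.val + 1 := hi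
                exact Fin.le_def.mpr (by omega)
              · rw [← h2, ht]
                rfl
            · left
              intro i
              apply hle
              have := i.isLt
              exact Fin.le_def.mpr (by omega)
          · right
            exact ⟨j, hj, a.head, h2.symm, ht, hpath'⟩
        · exfalso
          simp only at h1
          have h4 := pos_lt j v hvt
          have h5 : (j.val + 1) * (k * (L + 1) * M + 1) ≤ r * (k * (L + 1) * M + 1) :=
            Nat.mul_le_mul_right _ j.isLt
          omega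
    have hP : ∀ w : Fin (N + 1), ReflTransGen (fun u v : Fin (N + 1) =>
        Sum.elim x id (blk k L M r N (u, v)) = true) 0 w → P w.val := by
      intro w hw
      induction hw with
      | refl =>
        rcases Nat.eq_zero_or_pos r with h0 | h0
        · left
          intro i
          have := i.isLt
          omega
        · right
          refine ⟨⟨0, h0⟩, fun i hi => absurd hi (by simp [Fin.lt_def]), .s, ?_, by simp, .refl⟩
          simp [pos]
      | tail _ hbc ih => exact hstep _ _ ih hbc
    rcases hP _ hc with h1 | ⟨j, _, v, hv, hvt, _⟩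
    · exact h1
    · exfalso
      have h4 := pos_lt j v hvt
      have h5 : (j.val + 1) * (k * (L + 1) * M + 1) ≤ r * (k * (L + 1) * M + 1) :=
        Nat.mul_le_mul_right _ j.isLt
      simp only [Fin.val_last] at hv
      omega
  · -- concatenate the paths
    have hpos : ∀ (j : Fin r) (v : Vtx k L M), pos j v < N + 1 := by
      intro j v
      have h4 := pos_le j.val v
      have h5 : (j.val + 1) * (k * (L + 1) * M + 1) ≤ r * (k * (L + 1) * M + 1) :=
        Nat.mul_le_mul_right _ j.isLt
      omega
    have hblock : ∀ j : Fin r, ReflTransGen (fun u v : Fin (N + 1) =>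
        Sum.elim x id (blk k L M r N (u, v)) = true)
        ⟨pos j (.s : Vtx k L M), hpos j _⟩ ⟨pos j (.t : Vtx k L M), hpos j _⟩ := by
      intro j
      have h1 : ReflTransGen (fun u v => ∃ a : Arc k L M, x (j, a) = true ∧ a.tail = u ∧
        a.head = v) Vtx.s Vtx.t := hr j
      refine ReflTransGen.lift (fun v : Vtx k L M => (⟨pos j v, hpos j v⟩ : Fin (N + 1))) ?_ _ _ h1
      rintro u v ⟨a, ha, rfl, rfl⟩
      change Sum.elim x id (blk k L M r N (⟨pos j a.tail, hpos j _⟩, ⟨pos j a.head, hpos j _⟩)) = true
      rw [blk_arc (j, a) (⟨pos j a.tail, hpos j _⟩, ⟨pos j a.head, hpos j _⟩) rfl rfl]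
      exact ha
    have hall : ∀ j : ℕ, ∀ hj : j ≤ r, ReflTransGen (fun u v : Fin (N + 1) =>
        Sum.elim x id (blk k L M r N (u, v)) = true) 0
        ⟨j * (k * (L + 1) * M + 1), by
          have : j * (k * (L + 1) * M + 1) ≤ r * (k * (L + 1) * M + 1) := Nat.mul_le_mul_right _ hj
          omega⟩ := by
      intro j
      induction j with
      | zero =>
        intro hj
        have : (⟨0 * (k * (L + 1) * M + 1), by omega⟩ : Fin (N + 1)) = 0 := by
          apply Fin.ext; simp
        rw [this]
      | succ j ih =>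
        intro hj
        exact (ih (by omega)).trans (hblock ⟨j, hj⟩)
    refine (hall r le_rfl).tail ?_
    by_cases h1 : ∃ p : Fin r × Arc k L M, pos p.1 p.2.tail = r * (k * (L + 1) * M + 1) ∧
        pos p.1 p.2.head = N
    · exfalso
      obtain ⟨p, h2, _⟩ := h1
      have h4 := pos_lt p.1 p.2.tail (tail_ne _)
      have h5 : (p.1.val + 1) * (k * (L + 1) * M + 1) ≤ r * (k * (L + 1) * M + 1) :=
        Nat.mul_le_mul_right _ p.1.isLt
      omega
    · unfold blk
      simp only [Fin.val_last]
      rw [dif_neg h1]
      simp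

end Pool.Agent.GB24
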