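import Pool.Agent.GB24.Conn

/-!
# Reachability contains conjunctions of layered reachability problems: all variables occur
-/

namespace Pool.Agent.GB24

open Pool.Agent.TeleNeg Relation

theorem blk_surj {k L M r N : ℕ} (h : r * (k * (L + 1) * M + 1) ≤ N) (p : Fin r × Arc k L M) :
    ∃ e : Fin (N + 1) × Fin (N + 1), blk k L M r N e = Sum.inl p := by
  have hpos : ∀ (j : Fin r) (v : Vtx k L M), pos j v < N + 1 := by
    intro j v
    have h4 := pos_le j.val v
    have h5 : (j.val + 1) * (k * (L + 1) * M + 1) ≤ r * (k * (L + 1) * M + 1) :=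
      Nat.mul_le_mul_right _ j.isLt
    omega
  exact ⟨(⟨pos p.1 p.2.tail, hpos _ _⟩, ⟨pos p.1 p.2.head, hpos _ _⟩), blk_arc p _ rfl rfl⟩

theorem conn_blk {k L M r N : ℕ} (h : r * (k * (L + 1) * M + 1) ≤ N)
    (x : Fin r × Arc k L M → Bool) :
    Conn (fun e => Sum.elim x id (blk k L M r N e)) ↔ ∀ i, Reach (fun a => x (i, a)) := by
  refine ⟨fun hc => ?_, fun hr => ?_⟩
  · -- invariant along the path
    let P : ℕ → Prop := fun u => (∀ i : Fin r, Reach (fun a => x (i, a))) ∨
      ∃ j : Fin r, (∀ i : Fin r, i < j → Reach (fun a => x (i, a))) ∧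
        ∃ v : Vtx k L M, u = pos j v ∧ v ≠ .t ∧
          ReflTransGen (fun u v => ∃ a : Arc k L M, x (j, a) = true ∧ a.tail = u ∧ a.head = v) .s v
    have hstep : ∀ u w : Fin (N + 1), P u.val →
        Sum.elim x id (blk k L M r N (u, w)) = true → P w.val := by
      rintro u w (hu | ⟨j, hj, v, hv, hvt, hpath⟩) huw
      · exact Or.inl hu
      · rcases blk_cases x (u, w) huw with ⟨⟨j', a⟩, h1, h2, h3⟩ | ⟨h1, _⟩
        · simp only at h1 h2 h3
          obtain ⟨h4, h5⟩ := pos_inj' hvt (tail_ne a) (hv.symm.trans h1.symm)
          have h6 : j = j' := Fin.ext h4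
          subst h6
          have hpath' := hpath.tail ⟨a, h3, h5.symm, rfl⟩
          by_cases ht : a.head = .t
          · have hreach : Reach (fun a => x (j, a)) := by
              rw [ht] at hpath'
              exact hpath'
            have hle : ∀ i : Fin r, i ≤ j → Reach (fun a => x (i, a)) := by
              intro i hi
              rcases lt_or_eq_of_le hi with h7 | h7
              · exact hj i h7
              · rw [h7]; exact hreach
            by_cases hlast : j.val + 1 < r
            · right
              refine ⟨⟨j.val + 1, hlast⟩, fun i hi => hle i ?_, .s, ?_, by simp, .refl⟩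
              · have : i.val < j.val + 1 := hi
                exact Fin.le_def.mpr (by omega)
              · rw [← h2, ht]
                rfl
            · left
              intro i
              apply hle
              have := i.isLt
              exact Fin.le_def.mpr (by omega)
          · right
            exact ⟨j, hj, a.head, h2.symm, ht, hpath'⟩
        · exfalso
          simp only at h1
          have h4 := pos_lt j v hvt
          have h5 : (j.val + 1) * (k * (L + 1) * M + 1) ≤ r * (k * (L + 1) * M + 1) :=
            Nat.mul_le_mul_right _ j.isLt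
          omega
    have hP : ∀ w : Fin (N + 1), ReflTransGen (fun u v : Fin (N + 1) =>
        Sum.elim x id (blk k L M r N (u, v)) = true) 0 w → P w.val := by
      intro w hw
      induction hw with
      | refl =>
        rcases Nat.eq_zero_or_pos r with h0 | h0
        · left
          intro i
          have := i.isLt
          omega
        · right
          refine ⟨⟨0, h0⟩, fun i hi => absurd hi (by simp [Fin.lt_def]), .s, ?_, by simp, .refl⟩
          simp [pos]
      | tail _ hbc ih => exact hstep _ _ ih hbc
    rcases hP _ hc with h1 | ⟨j, _, v, hv, hvt, _⟩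
    · exact h1
    · exfalso
      have h4 := pos_lt j v hvt
      have h5 : (j.val + 1) * (k * (L + 1) * M + 1) ≤ r * (k * (L + 1) * M + 1) :=
        Nat.mul_le_mul_right _ j.isLt
      simp only [Fin.val_last] at hv
      omega
  · -- concatenate the paths
    have hpos : ∀ (j : Fin r) (v : Vtx k L M), pos j v < N + 1 := by
      intro j v
      have h4 := pos_le j.val v
      have h5 : (j.val + 1) * (k * (L + 1) * M + 1) ≤ r * (k * (L + 1) * M + 1) :=
        Nat.mul_le_mul_right _ j.isLt
      omega
    have hblock : ∀ j : Fin r, ReflTransGen (fun u v : Fin (N + 1) =>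
        Sum.elim x id (blk k L M r N (u, v)) = true)
        ⟨pos j (.s : Vtx k L M), hpos j _⟩ ⟨pos j (.t : Vtx k L M), hpos j _⟩ := by
      intro j
      have h1 : ReflTransGen (fun u v => ∃ a : Arc k L M, x (j, a) = true ∧ a.tail = u ∧
        a.head = v) Vtx.s Vtx.t := hr j
      refine ReflTransGen.lift (fun v : Vtx k L M => (⟨pos j v, hpos j v⟩ : Fin (N + 1))) ?_ _ _ h1
      rintro u v ⟨a, ha, rfl, rfl⟩
      change Sum.elim x id (blk k L M r N (⟨pos j a.tail, hpos j _⟩, ⟨pos j a.head, hpos j _⟩)) = true
      rw [blk_arc (j, a) (⟨pos j a.tail, hpos j _⟩, ⟨pos j a.head, hpos j _⟩) rfl rfl]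
      exact ha
    have hall : ∀ j : ℕ, ∀ hj : j ≤ r, ReflTransGen (fun u v : Fin (N + 1) =>
        Sum.elim x id (blk k L M r N (u, v)) = true) 0
        ⟨j * (k * (L + 1) * M + 1), by
          have : j * (k * (L + 1) * M + 1) ≤ r * (k * (L + 1) * M + 1) := Nat.mul_le_mul_right _ hj
          omega⟩ := by
      intro j
      induction j with
      | zero =>
        intro hj
        have : (⟨0 * (k * (L + 1) * M + 1), by omega⟩ : Fin (N + 1)) = 0 := by
          apply Fin.ext; simp
        rw [this]
      | succ j ih =>
        intro hj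
        exact (ih (by omega)).trans (hblock ⟨j, hj⟩)
    refine (hall r le_rfl).tail ?_
    by_cases h1 : ∃ p : Fin r × Arc k L M, pos p.1 p.2.tail = r * (k * (L + 1) * M + 1) ∧
        pos p.1 p.2.head = N
    · exfalso
      obtain ⟨p, h2, _⟩ := h1
      have h4 := pos_lt p.1 p.2.tail (tail_ne _)
      have h5 : (p.1.val + 1) * (k * (L + 1) * M + 1) ≤ r * (k * (L + 1) * M + 1) :=
        Nat.mul_le_mul_right _ p.1.isLt
      omega
    · unfold blk
      simp only [Fin.val_last]
      rw [dif_neg h1]
      simp

theorem conn_blocks' {k L M r N : ℕ} (h : r * (k * (L + 1) * M + 1) ≤ N) :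
    ∃ φ : Fin (N + 1) × Fin (N + 1) → (Fin r × Arc k L M) ⊕ Bool,
      (∀ v, ∃ e, φ e = Sum.inl v) ∧
      ∀ x : Fin r × Arc k L M → Bool,
        Conn (fun e => Sum.elim x id (φ e)) ↔ ∀ i, Reach (fun a => x (i, a)) :=
  ⟨blk k L M r N, blk_surj h, conn_blk h⟩

end Pool.Agent.GB24
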