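import Pool.Agent.NTN.Restr

set_option autoImplicit false

/-!
# Reachability restricted to a set `U` of variables with `k` disjoint arcs: conjunctions

`r` copies of a layered digraph in series: the copy `j` joins the vertices `c_j` and `c_(j+1)`, and
`c_0` is the vertex `0`, `c_r` the vertex `N`. Every arc of a copy is subdivided by an arc of `U`.
-/

namespace Pool.Agent.GB24

open Pool.Agent.PMB Pool.Agent.TeleNeg Pool.Agent.NTN Relation

section conn

/-- The vertices of `r` copies in series: the vertices `c_0, ..., c_r`, the inner vertices, and two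
vertices for each arc. -/
abbrev CW (r k L M : ℕ) (T : Type) : Type :=
  Fin (r + 1) ⊕ (Fin r × (Fin k × Fin (L + 1) × Fin M)) ⊕ (T × Bool)

/-- The vertex `v` of the copy `j`. -/
def cw {r k L M : ℕ} {T : Type} (j : Fin r) : Vtx k L M → CW r k L M T
  | .s => .inl j.castSucc
  | .t => .inl j.succ
  | .node κ i a => .inr (.inl (j, (κ, i, a)))

theorem cw_ne_arc {r k L M : ℕ} {T : Type} {j : Fin r} {v : Vtx k L M} {t : T} {c : Bool}
    (h : (cw j v : CW r k L M T) = .inr (.inr (t, c))) : False := by
  cases v <;> simp [cw] at h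

/-- The arcs present: the variable arcs between the two vertices of an arc, and the constant ones
which join them to its ends. -/
def StepS {r k L M : ℕ} (x : Fin r × Arc k L M → Bool)
    (u v : CW r k L M (Fin r × Arc k L M)) : Prop :=
  (∃ t, u = .inr (.inr (t, false)) ∧ v = .inr (.inr (t, true)) ∧ x t = true) ∨
  (∃ t : Fin r × Arc k L M, u = cw t.1 t.2.tail ∧ v = .inr (.inr (t, false))) ∨
  ∃ t : Fin r × Arc k L M, u = .inr (.inr (t, true)) ∧ v = cw t.1 t.2.head

theorem tail_ne_t {k L M : ℕ} (a : Arc k L M) : a.tail ≠ .t := by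
  cases a <;> simp [Arc.tail]

theorem stepS_iff {r k L M : ℕ} (x : Fin r × Arc k L M → Bool) :
    ReflTransGen (StepS x) (.inl 0) (.inl (Fin.last r)) ↔ ∀ j, Reach (fun a => x (j, a)) := by
  constructor
  · intro h
    let R : Fin r → Vtx k L M → Prop := fun j v =>
      ReflTransGen (fun u v => ∃ a : Arc k L M, x (j, a) = true ∧ a.tail = u ∧ a.head = v) .s v
    -- all copies before the place of `u` are passed
    let B : ℕ → Prop := fun n => ∀ i : Fin r, i.val < n → R i .t
    let P : CW r k L M (Fin r × Arc k L M) → Prop := fun u =>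
      (∃ c : Fin (r + 1), u = .inl c ∧ B c.val) ∨
      (∃ (j : Fin r) (κ : Fin k) (i : Fin (L + 1)) (a : Fin M),
        u = .inr (.inl (j, (κ, i, a))) ∧ R j (.node κ i a) ∧ B j.val) ∨
      (∃ t : Fin r × Arc k L M, u = .inr (.inr (t, false)) ∧ R t.1 t.2.tail ∧ B t.1.val) ∨
      ∃ t : Fin r × Arc k L M, u = .inr (.inr (t, true)) ∧ R t.1 t.2.head ∧ B t.1.val
    have hP : ∀ u, ReflTransGen (StepS x) (.inl 0) u → P u := by
      intro u hu
      induction hu with
      | refl => exact Or.inl ⟨0, rfl, fun i hi => absurd hi (by simp)⟩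
      | tail _ hbc ih =>
        rename_i b c
        rcases hbc with ⟨t, h1, h2, h3⟩ | ⟨t, h1, h2⟩ | ⟨t, h1, h2⟩
        · -- a variable arc
          subst h1 h2
          rcases ih with ⟨c, h4, -⟩ | ⟨j, κ, i, a, h4, -⟩ | ⟨t', h4, h5, h6⟩ | ⟨t', h4, -⟩
          · simp at h4
          · simp at h4
          · simp only [Sum.inr.injEq, Prod.mk.injEq, and_true] at h4
            subst h4
            exact Or.inr (Or.inr (Or.inr ⟨t, rfl, h5.tail ⟨t.2, h3, rfl, rfl⟩, h6⟩))
          · simp at h4
        · subst h2
          refine Or.inr (Or.inr (Or.inl ⟨t, rfl, ?_⟩))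
          rcases ih with ⟨c, h4, h5⟩ | ⟨j, κ, i, a, h4, h5, h6⟩ | ⟨t', h4, -⟩ | ⟨t', h4, -⟩
          · rw [h1] at h4
            cases hv : t.2.tail with
            | s =>
              rw [hv] at h4
              simp only [cw, Sum.inl.injEq] at h4
              refine ⟨ReflTransGen.refl, ?_⟩
              · intro i hi
                refine h5 i ?_
                rw [← h4]
                exact hi
            | t => exact absurd hv (tail_ne_t _)
            | node κ i a => rw [hv] at h4; simp [cw] at h4
          · rw [h1] at h4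
            cases hv : t.2.tail with
            | s => rw [hv] at h4; simp [cw] at h4
            | t => exact absurd hv (tail_ne_t _)
            | node κ' i' a' =>
              rw [hv] at h4
              simp only [cw, Sum.inr.injEq, Sum.inl.injEq, Prod.mk.injEq] at h4
              obtain ⟨h7, h8, h9, h10⟩ := h4
              subst h7 h8 h9 h10
              exact ⟨h5, h6⟩
          · exact (cw_ne_arc (h1.symm.trans h4)).elim
          · exact (cw_ne_arc (h1.symm.trans h4)).elim
        · subst h1 h2
          rcases ih with ⟨c, h4, -⟩ | ⟨j, κ, i, a, h4, -⟩ | ⟨t', h4, -⟩ | ⟨t', h4, h5, h6⟩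
          · simp at h4
          · simp at h4
          · simp at h4
          · simp only [Sum.inr.injEq, Prod.mk.injEq, and_true] at h4
            subst h4
            cases hv : t.2.head with
            | s => exact absurd hv (head_ne_s _)
            | t =>
              left
              refine ⟨t.1.succ, rfl, ?_⟩
              intro i hi
              rw [hv] at h5
              rcases Nat.lt_succ_iff_lt_or_eq.1 (by simpa using hi : i.val < t.1.val + 1) with h7 | h7
              · exact h6 i h7
              · have h8 : i = t.1 := Fin.ext h7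
                rw [h8]
                exact h5
            | node κ i a =>
              right; left
              exact ⟨t.1, κ, i, a, rfl, by rw [← hv]; exact h5, h6⟩
    rcases hP _ h with ⟨c, h1, h2⟩ | ⟨j, κ, i, a, h1, -⟩ | ⟨t, h1, -⟩ | ⟨t, h1, -⟩
    · intro j
      refine h2 j ?_
      rw [← Sum.inl.inj h1]
      exact j.isLt
    · simp at h1
    · simp at h1
    · simp at h1
  · intro hr
    have hblock : ∀ j : Fin r, ReflTransGen (StepS x) (.inl j.castSucc) (.inl j.succ) := by
      intro j
      have h1 : ReflTransGen (StepS x) (cw j Vtx.s) (cw j Vtx.t) := by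
        have hj := hr j
        unfold Reach at hj
        generalize (Vtx.t : Vtx k L M) = w at hj ⊢
        induction hj with
        | refl => exact ReflTransGen.refl
        | tail _ hbc ih =>
          obtain ⟨a, ha, rfl, rfl⟩ := hbc
          exact ((ih.tail (Or.inr (Or.inl ⟨(j, a), rfl, rfl⟩))).tail
            (Or.inl ⟨(j, a), rfl, rfl, ha⟩)).tail (Or.inr (Or.inr ⟨(j, a), rfl, rfl⟩))
      exact h1
    have hall : ∀ (n : ℕ) (hn : n < r + 1), ReflTransGen (StepS x) (.inl 0) (.inl ⟨n, hn⟩) := by
      intro n
      induction n with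
      | zero => intro _; exact ReflTransGen.refl
      | succ n ih =>
        intro hn
        exact (ih (by omega)).trans (hblock ⟨n, by omega⟩)
    exact hall r (Nat.lt_succ_self r)

/-- **Reachability**: a conjunction of `r` layered reachability functions, all variables in `U`. -/
theorem conn_blocks_UA' {r k₀ L M N k : ℕ} [Fintype (Arc k₀ L M)] [Nonempty (Arc k₀ L M)]
    (U : Finset (Fin (N + 1) × Fin (N + 1))) (hU : DisjointArcs k U)
    (h : 2 * r * Fintype.card (Arc k₀ L M) ≤ k) (hN : 0 < N) :
    ∃ φ : Fin (N + 1) × Fin (N + 1) → (Fin r × Arc k₀ L M) ⊕ Bool,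
      (∀ v, v ∉ U → ∃ c, φ v = .inr c) ∧ (∀ t, ∃ v, φ v = .inl t) ∧
      ∀ y : Fin r × Arc k₀ L M → Bool,
        Conn (fun v => Sum.elim y id (φ v)) ↔ ∀ i, Reach fun a => y (i, a) := by
  classical
  rcases Nat.eq_zero_or_pos r with hr0 | hr0
  · subst hr0
    refine ⟨fun _ => .inr true, fun v _ => ⟨true, rfl⟩, fun t => t.1.elim0, fun y => ?_⟩
    refine ⟨fun _ i => i.elim0, fun _ => ?_⟩
    exact ReflTransGen.single rfl
  obtain ⟨e, heU, he, hd, hne⟩ := hU
  set T := Fin r × Arc k₀ L M with hT
  have hcT : Fintype.card T = r * Fintype.card (Arc k₀ L M) := by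
    rw [Fintype.card_prod, Fintype.card_fin]
  -- the arcs of `U` used
  obtain ⟨ι⟩ : Nonempty (T ↪ Fin k) := by
    apply Function.Embedding.nonempty_of_card_le
    rw [hcT, Fintype.card_fin]
    nlinarith [Nat.zero_le (r * Fintype.card (Arc k₀ L M))]
  -- room for the vertices
  have hroom : 2 * k + 2 ≤ N + 1 := by
    have h1 : Function.Injective (fun s : (Fin k × Bool) ⊕ Bool =>
        (Sum.elim (fun p => if p.2 then (e p.1).2 else (e p.1).1)
          (fun c => if c then Fin.last N else 0) s : Fin (N + 1))) := by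
      have h0 : (Fin.last N : Fin (N + 1)) ≠ 0 := by
        intro h0
        have := congrArg Fin.val h0
        simp at this
        omega
      rintro (⟨i, c⟩ | c) (⟨j, c'⟩ | c') hij
      · simp only [Sum.elim_inl] at hij
        by_cases h2 : i = j
        · subst h2
          cases c <;> cases c' <;> simp at hij ⊢
          · exact absurd hij (hd i i)
          · exact absurd hij.symm (hd i i)
        · exfalso
          cases c <;> cases c' <;> simp at hij
          · exact (he i j h2).1 hij
          · exact hd i j hij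
          · exact hd j i hij.symm
          · exact (he i j h2).2 hij
      · exfalso
        simp only [Sum.elim_inl, Sum.elim_inr] at hij
        obtain ⟨h3, h4, h5, h6⟩ := hne i
        cases c <;> cases c' <;> simp at hij
        · exact h3 hij
        · exact h4 hij
        · exact h5 hij
        · exact h6 hij
      · exfalso
        simp only [Sum.elim_inl, Sum.elim_inr] at hij
        obtain ⟨h3, h4, h5, h6⟩ := hne j
        cases c <;> cases c' <;> simp at hij
        · exact h3 hij.symm
        · exact h5 hij.symm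
        · exact h4 hij.symm
        · exact h6 hij.symm
      · simp only [Sum.elim_inr] at hij
        cases c <;> cases c' <;> simp at hij ⊢
        · omega
        · omega
    have h2 := Fintype.card_le_of_injective _ h1
    simp only [Fintype.card_sum, Fintype.card_prod, Fintype.card_bool, Fintype.card_fin] at h2
    omega
  have hpos : 1 ≤ Fintype.card (Arc k₀ L M) := Fintype.card_pos
  -- the embedding of the vertices
  have hcW : Fintype.card (CW r k₀ L M T) ≤ N + 1 := by
    simp only [Fintype.card_sum, Fintype.card_prod, Fintype.card_bool, Fintype.card_fin]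
    have h3 := card_arcs (k := k₀) (L := L) (M := M)
    have h4 : r * (k₀ * ((L + 1) * M)) ≤ r * Fintype.card (Arc k₀ L M) := Nat.mul_le_mul_left _ h3
    have h5 : r * 1 ≤ r * Fintype.card (Arc k₀ L M) := Nat.mul_le_mul_left _ hpos
    nlinarith
  set D := Fin (N + 1 - Fintype.card (CW r k₀ L M T)) with hD
  have hcard : Fintype.card (Fin (N + 1)) = Fintype.card (CW r k₀ L M T ⊕ D) := by
    rw [Fintype.card_sum (α := CW r k₀ L M T), Fintype.card_fin, Fintype.card_fin]
    omega
  let f : (T × Bool) ⊕ Bool → Fin (N + 1) :=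
    Sum.elim (fun p => if p.2 then (e (ι p.1)).2 else (e (ι p.1)).1)
      fun c => if c then Fin.last N else 0
  have hf : Function.Injective f := by
    rintro (⟨i, c⟩ | c) (⟨j, c'⟩ | c') hij
    · simp only [f, Sum.elim_inl] at hij
      by_cases h2 : i = j
      · subst h2
        cases c <;> cases c' <;> simp at hij ⊢
        · exact absurd hij (hd _ _)
        · exact absurd hij.symm (hd _ _)
      · exfalso
        have h3 : ι i ≠ ι j := fun h4 => h2 (ι.injective h4)
        cases c <;> cases c' <;> simp at hij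
        · exact (he _ _ h3).1 hij
        · exact hd _ _ hij
        · exact hd _ _ hij.symm
        · exact (he _ _ h3).2 hij
    · exfalso
      simp only [f, Sum.elim_inl, Sum.elim_inr] at hij
      obtain ⟨h3, h4, h5, h6⟩ := hne (ι i)
      cases c <;> cases c' <;> simp at hij
      · exact h3 hij
      · exact h4 hij
      · exact h5 hij
      · exact h6 hij
    · exfalso
      simp only [f, Sum.elim_inl, Sum.elim_inr] at hij
      obtain ⟨h3, h4, h5, h6⟩ := hne (ι j)
      cases c <;> cases c' <;> simp at hij
      · exact h3 hij.symm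
      · exact h5 hij.symm
      · exact h4 hij.symm
      · exact h6 hij.symm
    · simp only [f, Sum.elim_inr] at hij
      cases c <;> cases c' <;> simp at hij ⊢
      · omega
      · omega
  let g : (T × Bool) ⊕ Bool → CW r k₀ L M T ⊕ D := fun s =>
    .inl (Sum.elim (fun p => .inr (.inr p)) (fun c => .inl (if c then Fin.last r else 0)) s)
  have hg : Function.Injective g := by
    rintro (p | c) (p' | c') hpq
    · simpa [g] using hpq
    · simp [g] at hpq
    · simp [g] at hpq
    · simp only [g, Sum.inl.injEq, Sum.elim_inr] at hpq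
      cases c <;> cases c' <;> simp at hpq ⊢
      · omega
      · omega
  obtain ⟨E, hE⟩ := exists_equiv_extend hcard f hf g hg
  have hEa : ∀ t, E (e (ι t)).1 = .inl (.inr (.inr (t, false))) := fun t => hE (.inl (t, false))
  have hEb : ∀ t, E (e (ι t)).2 = .inl (.inr (.inr (t, true))) := fun t => hE (.inl (t, true))
  have hE0 : E 0 = .inl (.inl 0) := hE (.inr false)
  have hEN : E (Fin.last N) = .inl (.inl (Fin.last r)) := hE (.inr true)
  let φ : Fin (N + 1) × Fin (N + 1) → T ⊕ Bool := fun v =>
    if h : ∃ t : T, E v.1 = .inl (.inr (.inr (t, false))) ∧ E v.2 = .inl (.inr (.inr (t, true)))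
    then .inl h.choose
    else .inr (decide (∃ t : T, (E v.1 = .inl (cw t.1 t.2.tail) ∧
        E v.2 = .inl (.inr (.inr (t, false)))) ∨
      (E v.1 = .inl (.inr (.inr (t, true))) ∧ E v.2 = .inl (cw t.1 t.2.head))))
  have hφ : ∀ (y : T → Bool) (u v : Fin (N + 1)), Sum.elim y id (φ (u, v)) = true ↔
      ∃ u' v' : CW r k₀ L M T, E u = .inl u' ∧ E v = .inl v' ∧ StepS y u' v' := by
    intro y u v
    by_cases h1 : ∃ t : T, E u = .inl (.inr (.inr (t, false))) ∧
        E v = .inl (.inr (.inr (t, true)))
    · have h2 : φ (u, v) = .inl h1.choose := dif_pos h1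
      rw [h2, Sum.elim_inl]
      obtain ⟨h3, h4⟩ := h1.choose_spec
      constructor
      · intro hy
        exact ⟨_, _, h3, h4, Or.inl ⟨h1.choose, rfl, rfl, hy⟩⟩
      · rintro ⟨u', v', hu, hv, hs⟩
        rw [h3] at hu
        rw [h4] at hv
        obtain rfl := Sum.inl.inj hu
        obtain rfl := Sum.inl.inj hv
        rcases hs with ⟨t, h5, -, h7⟩ | ⟨t, h5, h6⟩ | ⟨t, h5, h6⟩
        · have h8 : h1.choose = t := by simpa using h5
          rw [h8]
          exact h7
        · exact (cw_ne_arc h5.symm).elim
        · exact (cw_ne_arc h6.symm).elim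
    · have h2 : φ (u, v) = .inr _ := dif_neg h1
      rw [h2, Sum.elim_inr, id, decide_eq_true_eq]
      constructor
      · rintro ⟨t, ⟨h3, h4⟩ | ⟨h3, h4⟩⟩
        · exact ⟨_, _, h3, h4, Or.inr (Or.inl ⟨t, rfl, rfl⟩)⟩
        · exact ⟨_, _, h3, h4, Or.inr (Or.inr ⟨t, rfl, rfl⟩)⟩
      · rintro ⟨u', v', hu, hv, ⟨t, rfl, rfl, -⟩ | ⟨t, rfl, rfl⟩ | ⟨t, rfl, rfl⟩⟩
        · exact absurd ⟨t, hu, hv⟩ h1
        · exact ⟨t, Or.inl ⟨hu, hv⟩⟩
        · exact ⟨t, Or.inr ⟨hu, hv⟩⟩
  refine ⟨φ, ?_, ?_, fun y => ?_⟩
  · intro v hv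
    by_cases h1 : ∃ t : T, E v.1 = .inl (.inr (.inr (t, false))) ∧
        E v.2 = .inl (.inr (.inr (t, true)))
    · exfalso
      obtain ⟨t, h2, h3⟩ := h1
      have h4 : v.1 = (e (ι t)).1 := E.injective (h2.trans (hEa t).symm)
      have h5 : v.2 = (e (ι t)).2 := E.injective (h3.trans (hEb t).symm)
      have h6 : v = e (ι t) := Prod.ext h4 h5
      rw [h6] at hv
      exact hv (heU _)
    · exact ⟨_, dif_neg h1⟩
  · intro t
    have h1 : ∃ t' : T, E (e (ι t)).1 = .inl (.inr (.inr (t', false))) ∧
        E (e (ι t)).2 = .inl (.inr (.inr (t', true))) := ⟨t, hEa t, hEb t⟩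
    have h2 : φ (e (ι t)) = .inl h1.choose := dif_pos h1
    have h3 := (hEa t).symm.trans h1.choose_spec.1
    have h4 : t = h1.choose := by simpa using h3
    exact ⟨e (ι t), h2.trans (by rw [← h4])⟩
  · rw [← stepS_iff]
    constructor
    · intro hc
      have key : ∀ w : Fin (N + 1), ReflTransGen (fun u v : Fin (N + 1) =>
          Sum.elim y id (φ (u, v)) = true) 0 w →
          ∃ w', E w = .inl w' ∧ ReflTransGen (StepS y) (.inl 0) w' := by
        intro w hw
        induction hw with
        | refl => exact ⟨_, hE0, ReflTransGen.refl⟩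
        | tail _ hbc ih =>
          obtain ⟨b', h1, h2⟩ := ih
          obtain ⟨u', v', h3, h4, h5⟩ := (hφ y _ _).1 hbc
          rw [h3] at h1
          obtain rfl := Sum.inl.inj h1
          exact ⟨v', h4, h2.tail h5⟩
      obtain ⟨w', h1, h2⟩ := key _ hc
      rw [hEN] at h1
      rwa [← Sum.inl.inj h1] at h2
    · intro hs
      have h1 : ReflTransGen (fun u v : Fin (N + 1) => Sum.elim y id (φ (u, v)) = true)
          (E.symm (.inl (.inl 0))) (E.symm (.inl (.inl (Fin.last r)))) := by
        refine ReflTransGen.lift (fun v : CW r k₀ L M T => E.symm (.inl v)) ?_ _ _ hs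
        intro u v huv
        exact (hφ y _ _).2 ⟨u, v, by simp, by simp, huv⟩
      rw [← hE0, ← hEN, Equiv.symm_apply_apply, Equiv.symm_apply_apply] at h1
      exact h1

/-- **Reachability**: a conjunction of `r` layered reachability functions. -/
theorem conn_blocks_UA {r k₀ L M N k : ℕ} [Fintype (Arc k₀ L M)]
    (U : Finset (Fin (N + 1) × Fin (N + 1))) (hU : DisjointArcs k U)
    (h : 2 * r * Fintype.card (Arc k₀ L M) ≤ k) (hN : 0 < N) :
    ∃ φ : Fin (N + 1) × Fin (N + 1) → (Fin r × Arc k₀ L M) ⊕ Bool,
      (∀ v, v ∉ U → ∃ c, φ v = .inr c) ∧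
      ∀ y : Fin r × Arc k₀ L M → Bool,
        Conn (fun v => Sum.elim y id (φ v)) ↔ ∀ i, Reach fun a => y (i, a) := by
  rcases isEmpty_or_nonempty (Arc k₀ L M) with hE | hE
  · rcases Nat.eq_zero_or_pos r with hr0 | hr0
    · subst hr0
      refine ⟨fun _ => .inr true, fun v _ => ⟨true, rfl⟩, fun y => ?_⟩
      refine ⟨fun _ i => i.elim0, fun _ => ?_⟩
      exact ReflTransGen.single rfl
    · refine ⟨fun _ => .inr false, fun v _ => ⟨false, rfl⟩, fun y => ?_⟩
      constructor
      · intro hc
        exfalso
        rcases ReflTransGen.cases_head hc with h1 | ⟨w, h1, -⟩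
        · have := congrArg Fin.val h1
          simp at this
          omega
        · simp at h1
      · intro hr
        exfalso
        have h1 : ReflTransGen (fun u v => ∃ a : Arc k₀ L M, y (⟨0, hr0⟩, a) = true ∧
          a.tail = u ∧ a.head = v) Vtx.s Vtx.t := hr ⟨0, hr0⟩
        rcases ReflTransGen.cases_head h1 with h2 | ⟨w, ⟨a, -⟩, -⟩
        · simp at h2
        · exact hE.false a
  · obtain ⟨φ, h1, -, h3⟩ := conn_blocks_UA' U hU h hN
    exact ⟨φ, h1, h3⟩

end conn

end Pool.Agent.GB24
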