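import Mathlib

/-!
# Devices with negated variables and guesses: the number of variables tested negatively
-/

namespace Pool.Agent.GB24

/-- `f` is computed by the devices `F y` (`y` ranges over the guesses), which read the variables
(`Sum.inl i`) and the negated variables (`Sum.inr i`): if `F y` accepts `x` for some `y`, then
`f x`; and if `f x`, then for some guess `y` and some set `Z` of at most `w` variables which are
`0` in `x`, the device `F y` accepts already when only the negated variables of `Z` have the
value `1`. -/
def FewNeg {ι Y : Type} (w : ℕ) (F : Y → (ι ⊕ ι → Bool) → Bool) (f : (ι → Bool) → Prop) : Prop :=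
  (∀ y x, F y (Sum.elim x fun i => !x i) = true → f x) ∧
  ∀ x, f x → ∃ (y : Y) (Z : Finset ι), Z.card ≤ w ∧ (∀ i ∈ Z, x i = false) ∧
    F y (Sum.elim x (Set.indicator (Z : Set ι) fun _ => true)) = true

end Pool.Agent.GB24
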