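import Pool.Agent.GB24.InstAvg
import Pool.Agent.GB24.ConnS

/-!
# Reachability: hard inputs
-/

namespace Pool.Agent.GB24

open Pool.Agent.NegLim Pool.Agent.NTR Pool.Agent.TeleNeg Gen

/-- **Reachability of `N` from `0`**: switching networks. -/
theorem reach_hard {s p : ℕ} (hp : 16 ≤ p) (hs : 2 * s ≤ p ^ 2) (N : ℕ) :
    HardInputs (Conn (N := N)) ((netClass (2 ^ s)).mem _) (N ^ 2 + 1)
      (2 ^ (s * (N / 2 ^ (6 * p + 3)))) := by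
  classical
  have hB : 6 * (2 ^ p - 1 + 1) * 2 ^ (5 * p) + 1 ≤ 2 ^ (6 * p + 3) := by
    have h1 : 2 ^ p - 1 + 1 = 2 ^ p := Nat.sub_add_cancel Nat.one_le_two_pow
    have h2 : 2 ^ p * 2 ^ (5 * p) = 2 ^ (6 * p) := by
      rw [← pow_add]; congr 1; ring
    have h3 : 1 ≤ 2 ^ (6 * p) := Nat.one_le_two_pow
    rw [h1, mul_assoc, h2, pow_add]
    omega
  have hrN : N / 2 ^ (6 * p + 3) * 2 ^ (6 * p + 3) ≤ N := Nat.div_mul_le_self _ _
  have hφ := conn_blocks' (k := 6) (L := 2 ^ p - 1) (M := 2 ^ (5 * p))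
    (r := N / 2 ^ (6 * p + 3)) (N := N) ((Nat.mul_le_mul_left _ hB).trans hrN)
  have : Nonempty (Arc 6 (2 ^ p - 1) (2 ^ (5 * p))) :=
    ⟨.first 0 ⟨0, by positivity⟩⟩
  have : Finite (Arc 6 (2 ^ p - 1) (2 ^ (5 * p))) :=
    Finite.of_equiv _ (arcEquiv 6 (2 ^ p - 1) (2 ^ (5 * p))).symm
  let _ : Fintype (Arc 6 (2 ^ p - 1) (2 ^ (5 * p))) := Fintype.ofFinite _
  have hcard : Fintype.card (Arc 6 (2 ^ p - 1) (2 ^ (5 * p))) ≤ 6 * 2 ^ (11 * p) := by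
    rw [← Nat.card_eq_fintype_card]
    exact card_arc_le 6 p (by omega)
  refine hard_general (netClass (2 ^ s))
    (fun u : Arc 6 (2 ^ p - 1) (2 ^ (5 * p)) → Bool => Reach u) (fun _ _ h => reach_mono h)
    (fun Gs h1 h2 h3 => one_net hp hs Gs h1 h2 h3) _ hφ (Nat.succ_le_succ ?_)
  by_cases hr0 : N / 2 ^ (6 * p + 3) = 0
  · rw [hr0]; simp
  · have hBN : 2 ^ (6 * p + 3) ≤ N := by
      have : 1 * 2 ^ (6 * p + 3) ≤ N / 2 ^ (6 * p + 3) * 2 ^ (6 * p + 3) :=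
        Nat.mul_le_mul_right _ (Nat.one_le_iff_ne_zero.2 hr0)
      omega
    have h4 : 6 * 2 ^ (11 * p) ≤ 2 ^ (6 * p + 3) * 2 ^ (6 * p + 3) := by
      have h5 : 2 ^ (11 * p) ≤ 2 ^ (12 * p) := Nat.pow_le_pow_right (by norm_num) (by omega)
      calc 6 * 2 ^ (11 * p) ≤ 64 * 2 ^ (12 * p) := Nat.mul_le_mul (by norm_num) h5
        _ = 2 ^ (6 * p + 3) * 2 ^ (6 * p + 3) := by
            rw [show (64 : ℕ) = 2 ^ 6 from rfl, ← pow_add, ← pow_add]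
            congr 1
            ring
    calc N / 2 ^ (6 * p + 3) * Fintype.card (Arc 6 (2 ^ p - 1) (2 ^ (5 * p)))
        ≤ N / 2 ^ (6 * p + 3) * (2 ^ (6 * p + 3) * 2 ^ (6 * p + 3)) :=
          Nat.mul_le_mul_left _ (hcard.trans h4)
      _ = (N / 2 ^ (6 * p + 3) * 2 ^ (6 * p + 3)) * 2 ^ (6 * p + 3) := by ring
      _ ≤ N * N := Nat.mul_le_mul hrN hBN
      _ = N ^ 2 := by ring

end Pool.Agent.GB24
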