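import Pool.Agent.GB24.HiddenDefs
import Pool.Agent.GB24.ReachAvg

/-!
# Devices which see few zeros
-/

namespace Pool.Agent.GB24

open Pool.Agent.NegLim Pool.Agent.NTR Pool.Agent.TeleNeg Pool.Agent.PMB Pool.Agent.NWE Gen

lemma known_some {ι : Type} (x : ι → Bool) :
    known (fun v => some (x v)) = Sum.elim x fun v => !x v := by
  funext s
  rcases s with v | v
  · simp only [known, Sum.elim_inl]
    cases x v <;> rfl
  · simp only [known, Sum.elim_inr]
    cases x v <;> rfl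

lemma known_hide {ι : Type} (Z : Finset ι) (x : ι → Bool) (hZ : ∀ v ∈ Z, x v = false) :
    known (hideZeros Z x) = Sum.elim x (Set.indicator (Z : Set ι) fun _ => true) := by
  classical
  funext s
  rcases s with v | v
  · simp only [known, hideZeros, Sum.elim_inl]
    cases hx : x v
    · split_ifs <;> simp
    · simp
  · simp only [known, hideZeros, Sum.elim_inr]
    by_cases hv : v ∈ Z
    · rw [if_pos (Or.inr hv), hZ v hv, Set.indicator_of_mem (by simpa using hv)]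
      rfl
    · rw [Set.indicator_of_notMem (by simpa using hv)]
      change _ = false
      cases hx : x v
      · simp [hv]
      · simp

/-- From functions of the literals to devices on partly hidden inputs. -/
theorem hardSet_of {ι : Type} {f : (ι → Bool) → Prop} {K : ((ι ⊕ ι → Bool) → Bool) → Prop}
    {K' : ((ι → Option Bool) → Bool) → Prop} {n Q : ℕ}
    (hK : ∀ D, K' D → ∃ F, K F ∧ ∀ p, D p = F (known p)) (h : HardInputs f K n Q) :
    HardSet f K' n Q := by
  obtain ⟨M, h1, h2, h3⟩ := h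
  refine ⟨M, h1, h2, fun Y _ w D hD hs => ?_⟩
  choose F hF hDF using fun y => hK (D y) (hD y)
  have h4 : {x | x ∈ M ∧ AccSees w D x} = {x | x ∈ M ∧ AccNeg w F x} := by
    ext x
    refine and_congr_right fun _ => ?_
    unfold AccSees AccNeg
    refine exists_congr fun y => exists_congr fun Z => and_congr_right fun _ =>
      and_congr_right fun hZ => ?_
    rw [hDF, known_hide Z x hZ]
  rw [h4]
  refine h3 Y w F hF fun y x hx => hs y x ?_
  rw [hDF, known_some]
  exact hx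

/-- **Circuits of size `2 ^ (s + 1)`, one block.** -/
theorem one_circuit' {s b : ℕ} (hs : 1 ≤ s) (hb : b = bsz s)
    (Gs : List ((Fin b × Fin b → Bool) → Bool))
    (hlen : Gs.length ≤ Fintype.card (Fin b × Fin b) * 2 ^ s)
    (hmem : ∀ G ∈ Gs, (circClass (2 ^ (s + 1))).mem _ G)
    (h : ∀ u, HasPM u ↔ ∃ G ∈ Gs, G u = true) : False := by
  have hLl := log_bsz hs
  have hsq := sq_log hs
  rw [← hb] at hLl hsq
  set L := Nat.log 2 b with hL
  set l := Nat.log 2 s with hl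
  obtain ⟨C, o, h1, h2, h3⟩ := or_list Gs hmem
  have hb1 : b < 2 ^ (L + 1) := Nat.lt_pow_succ_log_self (by norm_num) b
  have hls : l + 1 ≤ s := log_le_self' hs
  have h4 : 2 ^ (2 * s + 2 * L + 4) ≤ Circuit.size C := by
    refine match_circuit b (2 * s + 2 * L + 4) (by omega) ?_ C o h1 fun u => ?_
    · have h5 : 2 * s + 2 * L + 4 ≤ 2 ^ 9 * s := by omega
      calc 2 ^ 29 * (2 * s + 2 * L + 4) ^ 5 * (L + 1) ^ 2
          ≤ 2 ^ 29 * (2 ^ 9 * s) ^ 5 * (2 ^ 15 * (l + 1) ^ 2) :=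
            Nat.mul_le_mul (Nat.mul_le_mul_left _ (Nat.pow_le_pow_left h5 5)) hsq
        _ = 2 ^ 89 * (s ^ 5 * (l + 1) ^ 2) := by ring
        _ ≤ 2 ^ 150 * (s ^ 5 * (l + 1) ^ 2) := Nat.mul_le_mul_right _ (by norm_num)
        _ = b := by rw [hb, bsz]; ring
    · rw [h3 u, h u]
  have h5 : Circuit.size C < 2 ^ (2 * s + 2 * L + 4) := by
    rw [Fintype.card_prod, Fintype.card_fin] at hlen
    have h7 : b * b < 2 ^ (L + 1) * 2 ^ (L + 1) :=
      Nat.mul_lt_mul_of_le_of_lt hb1.le hb1 (by positivity)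
    have h8 : 2 ^ (s + 1) + 1 ≤ 2 ^ (s + 2) := by
      have : 1 ≤ 2 ^ (s + 1) := Nat.one_le_two_pow
      rw [pow_succ 2 (s + 1)]; omega
    calc Circuit.size C ≤ Gs.length * (2 ^ (s + 1) + 1) := h2
      _ ≤ b * b * 2 ^ s * 2 ^ (s + 2) := Nat.mul_le_mul hlen h8
      _ < 2 ^ (L + 1) * 2 ^ (L + 1) * 2 ^ s * 2 ^ (s + 2) := by
          have := Nat.mul_lt_mul_of_pos_right (Nat.mul_lt_mul_of_pos_right h7
            (show 0 < 2 ^ s by positivity)) (show 0 < 2 ^ (s + 2) by positivity)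
          exact this
      _ = 2 ^ (2 * s + 2 * L + 4) := by
          rw [← pow_add, ← pow_add, ← pow_add]
          congr 1
          omega
  omega

/-- The circuits with at most `S` gates (NOT gates anywhere), in Kleene's logic. -/
def KleeneCirc {ι : Type} (S : ℕ) (D : (ι → Option Bool) → Bool) : Prop :=
  ∃ (C : Circuit ι) (o : Wire ι), C.size ≤ S ∧ ∀ p, D p = (kleene C p o == some true)

lemma kleene_lits {ι : Type} {s : ℕ} (D : (ι → Option Bool) → Bool)
    (h : KleeneCirc (2 ^ s) D) : ∃ F, (circClass (2 ^ (s + 1))).mem (ι ⊕ ι) F ∧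
      ∀ p, D p = F (known p) := by
  obtain ⟨C, o, h1, h2⟩ := h
  refine ⟨fun z => (dual 0 C).val z (railW C.length true o),
    ⟨dual 0 C, railW C.length true o, dual_negs 0 C, ?_, fun _ => rfl⟩, fun p => ?_⟩
  · rw [dual_size, pow_succ']
    exact Nat.mul_le_mul_left 2 h1
  · rw [h2]
    exact (dual_val p C o).symm

/-- **Perfect matching and 3-dimensional matching, circuits with NOT gates anywhere.** -/
theorem matching_kleene {s : ℕ} (hs : 1 ≤ s) (m : ℕ) :
    HardSet (HasPM (m := m)) (KleeneCirc (2 ^ s)) (m ^ 2 + 1) (2 ^ (s * (m / bsz s))) ∧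
    HardSet (Has3DM (m := m)) (KleeneCirc (2 ^ s)) (m ^ 2 + 1) (2 ^ (s * (m / bsz s))) := by
  have hb : 0 < bsz s := bsz_pos hs
  have : Nonempty (Fin (bsz s) × Fin (bsz s)) := ⟨(⟨0, hb⟩, ⟨0, hb⟩)⟩
  have hrb : m / bsz s * bsz s ≤ m := Nat.div_mul_le_self m _
  have hmono : ∀ u v : Fin (bsz s) × Fin (bsz s) → Bool, u ≤ v → HasPM u → HasPM v :=
    fun _ _ h => hasPM_mono h
  exact ⟨hardSet_of kleene_lits (hard_general (circClass (2 ^ (s + 1)))
      (fun u : Fin (bsz s) × Fin (bsz s) → Bool => HasPM u) hmono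
      (fun Gs h1 h2 h3 => one_circuit' hs rfl Gs h1 h2 h3) _ (pm_blocks' hrb) numbers),
    hardSet_of kleene_lits (hard_general (circClass (2 ^ (s + 1)))
      (fun u : Fin (bsz s) × Fin (bsz s) → Bool => HasPM u) hmono
      (fun Gs h1 h2 h3 => one_circuit' hs rfl Gs h1 h2 h3) _ (tdm_blocks' hrb) numbers)⟩

/-- **Perfect matching and 3-dimensional matching, nondeterministic branching programs.** -/
theorem matching_programs {s : ℕ} (hs : 1 ≤ s) (m : ℕ) :
    HardSet (HasPM (m := m)) (fun D => ∃ P : Net (Fin m × Fin m ⊕ Fin m × Fin m) (2 ^ s),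
      ∀ p, D p = P.dval (known p)) (m ^ 2 + 1) (2 ^ (s * (m / bsz s))) ∧
    HardSet (Has3DM (m := m))
      (fun D => ∃ P : Net ((Fin m × Fin m × Fin m) ⊕ (Fin m × Fin m × Fin m)) (2 ^ s),
      ∀ p, D p = P.dval (known p)) (m ^ 2 + 1) (2 ^ (s * (m / bsz s))) :=
  ⟨hardSet_of (fun _ ⟨P, hP⟩ => ⟨P.dval, ⟨P, fun _ => rfl⟩, hP⟩) (matching_hard hs m).2.1,
    hardSet_of (fun _ ⟨P, hP⟩ => ⟨P.dval, ⟨P, fun _ => rfl⟩, hP⟩) (matching_hard hs m).2.2.2⟩

/-- **Reachability, switching networks.** -/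
theorem reach_networks {s p : ℕ} (hp : 16 ≤ p) (hs : 2 * s ≤ p ^ 2) (N : ℕ) :
    HardSet (Conn (N := N))
      (fun D => ∃ P : Net (Fin (N + 1) × Fin (N + 1) ⊕ Fin (N + 1) × Fin (N + 1)) (2 ^ s),
      ∀ q, D q = P.val (known q)) (N ^ 2 + 1) (2 ^ (s * (N / 2 ^ (6 * p + 3)))) :=
  hardSet_of (fun _ ⟨P, hP⟩ => ⟨P.val, ⟨P, fun _ => rfl⟩, hP⟩) (reach_hard hp hs N)

/-- **Conjunctions of copies, any class.** -/
theorem copies_hard (K : MonoClass) {β : Type} [Fintype β] [Nonempty β] (r q : ℕ)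
    (g : (β → Bool) → Bool) (hg : Monotone g)
    (hno : ¬ ∃ Gs : List ((β → Bool) → Bool), Gs.length ≤ Fintype.card β * q ∧
      (∀ G ∈ Gs, K.mem β G) ∧ ∀ u, g u = true ↔ ∃ G ∈ Gs, G u = true) :
    HardSet (fun x : Fin r × β → Bool => ∀ i, g (fun b => x (i, b)) = true)
      (fun D => ∃ F, K.mem _ F ∧ ∀ p, D p = F (known p)) (r * Fintype.card β + 1) (q ^ r) :=
  hardSet_of (fun _ h => h) (hard_and K r q g hg hno)

end Pool.Agent.GB24
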