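import Pool.Agent.GB24.CircClass
import Pool.Agent.NTR.MatchInst

/-!
# Numbers: one block
-/

namespace Pool.Agent.GB24

open Pool.Agent.NegLim Pool.Agent.NTR Pool.Agent.TeleNeg Pool.Agent.PMB Gen

/-- The number of vertices of a block. -/
def bsz (s : ℕ) : ℕ := 2 ^ 150 * s ^ 5 * (Nat.log 2 s + 1) ^ 2

lemma bsz_pos {s : ℕ} (hs : 1 ≤ s) : 0 < bsz s := by
  unfold bsz
  positivity

lemma log_bsz {s : ℕ} (hs : 1 ≤ s) : Nat.log 2 (bsz s) ≤ 154 + 7 * Nat.log 2 s := by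
  set l := Nat.log 2 s with hl
  have h1 : s < 2 ^ (l + 1) := Nat.lt_pow_succ_log_self (by norm_num) s
  have h2 : l + 1 ≤ 2 ^ l := Nat.lt_two_pow_self
  have h3 : bsz s < 2 ^ (155 + 7 * l) := by
    calc bsz s = 2 ^ 150 * s ^ 5 * (l + 1) ^ 2 := rfl
      _ < 2 ^ 150 * (2 ^ (l + 1)) ^ 5 * (2 ^ l) ^ 2 := by
          have h4 : s ^ 5 < (2 ^ (l + 1)) ^ 5 := Nat.pow_lt_pow_left h1 (by norm_num)
          have h5 : (l + 1) ^ 2 ≤ (2 ^ l) ^ 2 := Nat.pow_le_pow_left h2 2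
          calc 2 ^ 150 * s ^ 5 * (l + 1) ^ 2 ≤ 2 ^ 150 * s ^ 5 * (2 ^ l) ^ 2 :=
                Nat.mul_le_mul_left _ h5
            _ < 2 ^ 150 * (2 ^ (l + 1)) ^ 5 * (2 ^ l) ^ 2 :=
                Nat.mul_lt_mul_of_pos_right (Nat.mul_lt_mul_of_pos_left h4 (by positivity))
                  (by positivity)
      _ = 2 ^ (155 + 7 * l) := by
          rw [← pow_mul, ← pow_mul, ← pow_add, ← pow_add]
          congr 1
          ring
  have h4 := Nat.log_lt_of_lt_pow (bsz_pos hs).ne' h3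
  omega

lemma log_le_self' {s : ℕ} (hs : 1 ≤ s) : Nat.log 2 s + 1 ≤ s := by
  have := Nat.log_lt_self 2 (x := s) (by omega)
  omega

lemma sq_log {s : ℕ} (hs : 1 ≤ s) :
    (Nat.log 2 (bsz s) + 1) ^ 2 ≤ 2 ^ 15 * (Nat.log 2 s + 1) ^ 2 := by
  have h1 := log_bsz hs
  have h2 : Nat.log 2 (bsz s) + 1 ≤ 155 * (Nat.log 2 s + 1) := by omega
  calc (Nat.log 2 (bsz s) + 1) ^ 2 ≤ (155 * (Nat.log 2 s + 1)) ^ 2 := Nat.pow_le_pow_left h2 2
    _ = 155 ^ 2 * (Nat.log 2 s + 1) ^ 2 := by ring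
    _ ≤ 2 ^ 15 * (Nat.log 2 s + 1) ^ 2 := Nat.mul_le_mul_right _ (by norm_num)

/-- **Circuits, one block.** Perfect matching on `b + b` vertices, `b = bsz s`, is not the
disjunction of `b² 2 ^ s` functions computed by circuits without NOT gates with `2 ^ s` gates. -/
theorem one_circuit {s b : ℕ} (hs : 1 ≤ s) (hb : b = bsz s)
    (Gs : List ((Fin b × Fin b → Bool) → Bool))
    (hlen : Gs.length ≤ Fintype.card (Fin b × Fin b) * 2 ^ s)
    (hmem : ∀ G ∈ Gs, (circClass (2 ^ s)).mem _ G)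
    (h : ∀ u, HasPM u ↔ ∃ G ∈ Gs, G u = true) : False := by
  have hLl := log_bsz hs
  have hsq := sq_log hs
  rw [← hb] at hLl hsq
  set L := Nat.log 2 b with hL
  set l := Nat.log 2 s with hl
  obtain ⟨C, o, h1, h2, h3⟩ := or_list Gs hmem
  have hb1 : b < 2 ^ (L + 1) := Nat.lt_pow_succ_log_self (by norm_num) b
  have hls : l + 1 ≤ s := log_le_self' hs
  have h4 : 2 ^ (2 * s + 2 * L + 3) ≤ Circuit.size C := by
    refine match_circuit b (2 * s + 2 * L + 3) (by omega) ?_ C o h1 fun u => ?_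
    · have h5 : 2 * s + 2 * L + 3 ≤ 2 ^ 9 * s := by omega
      calc 2 ^ 29 * (2 * s + 2 * L + 3) ^ 5 * (L + 1) ^ 2
          ≤ 2 ^ 29 * (2 ^ 9 * s) ^ 5 * (2 ^ 15 * (l + 1) ^ 2) :=
            Nat.mul_le_mul (Nat.mul_le_mul_left _ (Nat.pow_le_pow_left h5 5)) hsq
        _ = 2 ^ 89 * (s ^ 5 * (l + 1) ^ 2) := by ring
        _ ≤ 2 ^ 150 * (s ^ 5 * (l + 1) ^ 2) := Nat.mul_le_mul_right _ (by norm_num)
        _ = b := by rw [hb, bsz]; ring
    · rw [h3 u, h u]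
  have h5 : Circuit.size C < 2 ^ (2 * s + 2 * L + 3) := by
    rw [Fintype.card_prod, Fintype.card_fin] at hlen
    have h6 : b * b ≤ 2 ^ (L + 1) * 2 ^ (L + 1) := Nat.mul_le_mul hb1.le hb1.le
    have h7 : b * b < 2 ^ (L + 1) * 2 ^ (L + 1) :=
      Nat.mul_lt_mul_of_le_of_lt hb1.le hb1 (by positivity)
    have h8 : 2 ^ s + 1 ≤ 2 ^ (s + 1) := by
      have : 1 ≤ 2 ^ s := Nat.one_le_two_pow
      rw [pow_succ]; omega
    calc Circuit.size C ≤ Gs.length * (2 ^ s + 1) := h2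
      _ ≤ b * b * 2 ^ s * 2 ^ (s + 1) := Nat.mul_le_mul hlen h8
      _ < 2 ^ (L + 1) * 2 ^ (L + 1) * 2 ^ s * 2 ^ (s + 1) := by
          have := Nat.mul_lt_mul_of_pos_right (Nat.mul_lt_mul_of_pos_right h7
            (show 0 < 2 ^ s by positivity)) (show 0 < 2 ^ (s + 1) by positivity)
          exact this
      _ = 2 ^ (2 * s + 2 * L + 3) := by
          rw [← pow_add, ← pow_add, ← pow_add]
          congr 1
          omega
  omega

/-- **Directed networks, one block.** -/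
theorem one_dnet {s b : ℕ} (hs : 1 ≤ s) (hb : b = bsz s)
    (Gs : List ((Fin b × Fin b → Bool) → Bool))
    (hlen : Gs.length ≤ Fintype.card (Fin b × Fin b) * 2 ^ s)
    (hmem : ∀ G ∈ Gs, (dnetClass (2 ^ s)).mem _ G)
    (h : ∀ u, HasPM u ↔ ∃ G ∈ Gs, G u = true) : False := by
  have hLl := log_bsz hs
  have hsq := sq_log hs
  rw [← hb] at hLl hsq
  set L := Nat.log 2 b with hL
  set l := Nat.log 2 s with hl
  have hb1 : b < 2 ^ (L + 1) := Nat.lt_pow_succ_log_self (by norm_num) b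
  have hls : l + 1 ≤ s := log_le_self' hs
  rw [Fintype.card_prod, Fintype.card_fin] at hlen
  have h4 : 2 ^ (8 * s + 8 * L + 8) ≤ (b * b * 2 ^ s * 2 ^ s) ^ 4 := by
    refine inst_match (m := b) ?_ Gs hlen hmem h
    have h5 : 8 * s + 8 * L + 8 ≤ 2 ^ 11 * s := by omega
    calc 2 ^ 80 * (8 * s + 8 * L + 8) ^ 5 * (L + 1) ^ 2
        ≤ 2 ^ 80 * (2 ^ 11 * s) ^ 5 * (2 ^ 15 * (l + 1) ^ 2) :=
          Nat.mul_le_mul (Nat.mul_le_mul_left _ (Nat.pow_le_pow_left h5 5)) hsq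
      _ = 2 ^ 150 * s ^ 5 * (l + 1) ^ 2 := by ring
      _ = b := by rw [hb, bsz]
  have h5 : (b * b * 2 ^ s * 2 ^ s) ^ 4 < 2 ^ (8 * s + 8 * L + 8) := by
    have h7 : b * b < 2 ^ (L + 1) * 2 ^ (L + 1) :=
      Nat.mul_lt_mul_of_le_of_lt hb1.le hb1 (by positivity)
    have h8 := Nat.mul_lt_mul_of_pos_right (Nat.mul_lt_mul_of_pos_right h7
      (show 0 < 2 ^ s by positivity)) (show 0 < 2 ^ s by positivity)
    calc (b * b * 2 ^ s * 2 ^ s) ^ 4 < (2 ^ (L + 1) * 2 ^ (L + 1) * 2 ^ s * 2 ^ s) ^ 4 :=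
          Nat.pow_lt_pow_left h8 (by norm_num)
      _ = 2 ^ (8 * s + 8 * L + 8) := by
          rw [← pow_add, ← pow_add, ← pow_add, ← pow_mul]
          congr 1
          omega
  omega

end Pool.Agent.GB24
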