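import Pool.Agent.GB24.HiddenUDefs
import Pool.Agent.GB24.Num
import Pool.Agent.NWE.Kleene

/-!
# One block, circuits of twice the size; circuits in Kleene's logic
-/

namespace Pool.Agent.GB24.Loc

open Pool.Agent.NegLim Pool.Agent.NTR Pool.Agent.TeleNeg Pool.Agent.PMB Pool.Agent.NWE Gen
  Pool.Agent.GB24

/-- **Circuits of size `2 ^ (s + 1)`, one block.** -/
theorem one_circuit' {s b : ℕ} (hs : 1 ≤ s) (hb : b = bsz s)
    (Gs : List ((Fin b × Fin b → Bool) → Bool))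
    (hlen : Gs.length ≤ Fintype.card (Fin b × Fin b) * 2 ^ s)
    (hmem : ∀ G ∈ Gs, (circClass (2 ^ (s + 1))).mem _ G)
    (h : ∀ u, HasPM u ↔ ∃ G ∈ Gs, G u = true) : False := by
  have hLl := log_bsz hs
  have hsq := sq_log hs
  rw [← hb] at hLl hsq
  set L := Nat.log 2 b with hL
  set l := Nat.log 2 s with hl
  obtain ⟨C, o, h1, h2, h3⟩ := or_list Gs hmem
  have hb1 : b < 2 ^ (L + 1) := Nat.lt_pow_succ_log_self (by norm_num) b
  have hls : l + 1 ≤ s := log_le_self' hs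
  have h4 : 2 ^ (2 * s + 2 * L + 4) ≤ Circuit.size C := by
    refine match_circuit b (2 * s + 2 * L + 4) (by omega) ?_ C o h1 fun u => ?_
    · have h5 : 2 * s + 2 * L + 4 ≤ 2 ^ 9 * s := by omega
      calc 2 ^ 29 * (2 * s + 2 * L + 4) ^ 5 * (L + 1) ^ 2
          ≤ 2 ^ 29 * (2 ^ 9 * s) ^ 5 * (2 ^ 15 * (l + 1) ^ 2) :=
            Nat.mul_le_mul (Nat.mul_le_mul_left _ (Nat.pow_le_pow_left h5 5)) hsq
        _ = 2 ^ 89 * (s ^ 5 * (l + 1) ^ 2) := by ring
        _ ≤ 2 ^ 150 * (s ^ 5 * (l + 1) ^ 2) := Nat.mul_le_mul_right _ (by norm_num)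
        _ = b := by rw [hb, bsz]; ring
    · rw [h3 u, h u]
  have h5 : Circuit.size C < 2 ^ (2 * s + 2 * L + 4) := by
    rw [Fintype.card_prod, Fintype.card_fin] at hlen
    have h7 : b * b < 2 ^ (L + 1) * 2 ^ (L + 1) :=
      Nat.mul_lt_mul_of_le_of_lt hb1.le hb1 (by positivity)
    have h8 : 2 ^ (s + 1) + 1 ≤ 2 ^ (s + 2) := by
      have : 1 ≤ 2 ^ (s + 1) := Nat.one_le_two_pow
      rw [pow_succ 2 (s + 1)]; omega
    calc Circuit.size C ≤ Gs.length * (2 ^ (s + 1) + 1) := h2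
      _ ≤ b * b * 2 ^ s * 2 ^ (s + 2) := Nat.mul_le_mul hlen h8
      _ < 2 ^ (L + 1) * 2 ^ (L + 1) * 2 ^ s * 2 ^ (s + 2) := by
          have := Nat.mul_lt_mul_of_pos_right (Nat.mul_lt_mul_of_pos_right h7
            (show 0 < 2 ^ s by positivity)) (show 0 < 2 ^ (s + 2) by positivity)
          exact this
      _ = 2 ^ (2 * s + 2 * L + 4) := by
          rw [← pow_add, ← pow_add, ← pow_add]
          congr 1
          omega
  omega

lemma kleene_lits {ι : Type} {s : ℕ} (D : (ι → Option Bool) → Bool)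
    (h : ∃ (C : Circuit ι) (o : Wire ι), C.size ≤ 2 ^ s ∧ ∀ p, D p = (kleene C p o == some true)) :
    ∃ F, (circClass (2 ^ (s + 1))).mem (ι ⊕ ι) F ∧ ∀ p, D p = F (known p) := by
  obtain ⟨C, o, h1, h2⟩ := h
  refine ⟨fun z => (dual 0 C).val z (railW C.length true o),
    ⟨dual 0 C, railW C.length true o, dual_negs 0 C, ?_, fun _ => rfl⟩, fun p => ?_⟩
  · rw [dual_size, pow_succ']
    exact Nat.mul_le_mul_left 2 h1
  · rw [h2]
    exact (dual_val p C o).symm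

end Pool.Agent.GB24.Loc
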