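import Pool.Agent.GB24.HiddenDirect

/-!
# Guesses and few zeros: the count with binomial coefficients
-/

namespace Pool.Agent.GB24.Loc

open Finset Pool.Agent.NegLim Pool.Agent.NTR Pool.Agent.NTR.Gen Pool.Agent.NWE Pool.Agent.GB24

/-- One-sided devices which use few negated variables are disjunctions of few monotone functions
on the inputs accepted in this way, one for every guess and every set of at most `w` variables. -/
theorem acc_family_bin (K : MonoClass) {ι Y : Type} [Fintype ι] [DecidableEq ι] [Fintype Y]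
    (F : Y → (ι ⊕ ι → Bool) → Bool) (hF : ∀ y, K.mem _ (F y)) (f : (ι → Bool) → Prop)
    (hm : ∀ x y : ι → Bool, x ≤ y → f x → f y)
    (hs : ∀ y x, F y (Sum.elim x fun i => !x i) = true → f x) (w : ℕ) :
    ∃ C : Y × {Z : Finset ι // Z.card ≤ w} → (ι → Bool) → Bool, (∀ j, K.mem _ (C j)) ∧
      (∀ j x, C j x = true → f x) ∧ ∀ x, AccNeg w F x → ∃ j, C j x = true := by
  classical
  let φ : Finset ι → ι ⊕ ι → ι ⊕ Bool := fun Z =>
    Sum.elim (fun i => if i ∈ Z then .inr false else .inl i) fun i => .inr (decide (i ∈ Z))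
  have hval : ∀ (x : ι → Bool) Z, (fun i => Sum.elim x id (φ Z i)) =
      Sum.elim (fun i => if i ∈ Z then false else x i) fun i => decide (i ∈ Z) := by
    intro x Z
    funext i
    rcases i with i | i
    · by_cases h : i ∈ Z <;> simp [φ, h]
    · simp [φ]
  refine ⟨fun j x => F j.1 fun i => Sum.elim x id (φ j.2.1 i), ?_, ?_, ?_⟩
  · rintro ⟨y, Z⟩
    exact K.subst _ _ (F y) (φ Z.1) (hF y)
  · rintro ⟨y, Z⟩ x hj
    change F y (fun i => Sum.elim x id (φ Z.1 i)) = true at hj
    rw [hval] at hj
    have h1 := K.mono _ (F y) (hF y) (show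
      (Sum.elim (fun i => if i ∈ Z.1 then false else x i) fun i => decide (i ∈ Z.1)) ≤
      (Sum.elim (fun i => if i ∈ Z.1 then false else x i) fun i =>
        !(if i ∈ Z.1 then false else x i) : ι ⊕ ι → Bool) from by
      rintro (i | i)
      · exact le_rfl
      · by_cases h : i ∈ Z.1
        · simp [h]
        · simp [h])
    rw [hj] at h1
    refine hm _ x ?_ (hs y _ (top_le_iff.1 h1))
    intro i
    by_cases h : i ∈ Z.1
    · simp [h]
    · simp [h]
  · rintro x ⟨y, Z, hZ, h0, hy⟩
    refine ⟨(y, ⟨Z, hZ⟩), ?_⟩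
    show F y (fun i => Sum.elim x id (φ Z i)) = true
    rw [hval]
    have hxe : (fun i => if i ∈ Z then false else x i) = x := by
      funext i
      by_cases h : i ∈ Z
      · rw [if_pos h, h0 i h]
      · rw [if_neg h]
    rw [hxe]
    have hz : (fun i => decide (i ∈ Z)) = Set.indicator (Z : Set ι) fun _ => true := by
      funext i
      by_cases h : i ∈ Z
      · simp [h]
      · simp only [Set.indicator, Finset.mem_coe, h, if_false, decide_false]
        rfl
    rw [hz]
    exact hy

/-- **A hard set, binomial form.** `S` is a nonempty set of ones of the monotone function `g` such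
that every function of the class `K` below `g` accepts at most the `Q`-th part of `S`; the
substitution `φ`, constant outside `U`, which hits every variable, turns `f` into `g`. -/
theorem hardSet_bin (K : MonoClass) {ι κ : Type} [DecidableEq ι] [Fintype κ] [DecidableEq κ]
    {Q : ℕ} (g : (κ → Bool) → Prop) (hg : ∀ u v : κ → Bool, u ≤ v → g u → g v)
    (S : Finset (κ → Bool)) (hS : S.Nonempty) (hS1 : ∀ u ∈ S, g u)
    (hSK : ∀ G, K.mem κ G → (∀ u, G u = true → g u) →
      Q * (S.filter fun u => G u = true).card ≤ S.card)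
    (f : (ι → Bool) → Prop) (U : Finset ι) (φ : ι → κ ⊕ Bool)
    (hsurj : ∀ e, ∃ v, φ v = Sum.inl e) (hU : ∀ v, v ∉ U → ∃ c, φ v = Sum.inr c)
    (hφ : ∀ x : κ → Bool, f (fun v => Sum.elim x id (φ v)) ↔ g x)
    (K' : ((ι → Option Bool) → Bool) → Prop)
    (hK' : ∀ D, K' D → ∃ F, K.mem _ F ∧ ∀ p, D p = F (known p)) :
    ∃ (ρ : ι → Bool) (M : Finset (ι → Bool)), M.Nonempty ∧
      (∀ x ∈ M, f x ∧ ∀ v, v ∉ U → x v = ρ v) ∧
      ∀ (Y : Type) [Fintype Y] (w : ℕ) (D : Y → (ι → Option Bool) → Bool), (∀ y, K' (D y)) →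
        (∀ y x, (∀ v, v ∉ U → x v = ρ v) → D y (fun v => some (x v)) = true → f x) →
        Q * {x | x ∈ M ∧ AccSees U w D x}.ncard ≤
          Fintype.card Y * (univ.filter fun Z : Finset κ => Z.card ≤ w).card * M.card := by
  classical
  have hinj : Function.Injective fun (x : κ → Bool) (v : ι) => (Sum.elim x id (φ v) : Bool) := by
    intro x y hxy
    funext e
    obtain ⟨v, hv⟩ := hsurj e
    have h1 := congrFun hxy v
    simpa [hv] using h1
  have hρ : ∀ (x : κ → Bool) (v : ι), v ∉ U →
      (Sum.elim x id (φ v) : Bool) = Sum.elim (fun _ => false) id (φ v) := by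
    intro x v hv
    obtain ⟨c, hc⟩ := hU v hv
    rw [hc]
    rfl
  refine ⟨fun v => Sum.elim (fun _ => false) id (φ v), S.map ⟨_, hinj⟩, ?_, ?_, ?_⟩
  · rwa [Finset.map_nonempty]
  · intro x hx
    obtain ⟨x₀, hx₀, rfl⟩ := Finset.mem_map.1 hx
    exact ⟨(hφ x₀).2 (hS1 x₀ hx₀), fun v hv => hρ x₀ v hv⟩
  · intro Y _ w D hD hs
    choose F hF hDF using fun y => hK' (D y) (hD y)
    obtain ⟨C, hC, hle, hacc⟩ := acc_family_bin K
      (fun y x => F y fun s => Sum.elim x id (litMap φ s))
      (fun y => K.subst _ _ (F y) (litMap φ) (hF y)) g hg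
      (fun y x hy => by
        change F y (fun s => Sum.elim (Sum.elim x fun k => !x k) id (litMap φ s)) = true at hy
        rw [litMap_not] at hy
        refine (hφ x).1 (hs y _ (fun v hv => hρ x v hv) ?_)
        rw [hDF, known_some]
        exact hy) w
    have h1 : {x | x ∈ S.map ⟨_, hinj⟩ ∧ AccSees U w D x}.ncard ≤
        (univ.biUnion fun j : (Y × {Z : Finset κ // Z.card ≤ w}) => S.filter fun x => C j x = true).card := by
      rw [← Set.ncard_coe_finset]
      refine le_trans (Set.ncard_le_ncard (t := (fun (x : κ → Bool) (v : ι) =>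
        (Sum.elim x id (φ v) : Bool)) '' ((univ.biUnion fun j : (Y × {Z : Finset κ // Z.card ≤ w}) =>
          S.filter fun x => C j x = true : Finset (κ → Bool)) : Set (κ → Bool))) ?_
          (Set.toFinite _)) (Set.ncard_image_le (Set.toFinite _))
      rintro x ⟨hx, y, Z, hZU, hZ, h0, hy⟩
      obtain ⟨x₀, hx₀, rfl⟩ := Finset.mem_map.1 hx
      rw [hDF, known_hide U Z _ h0] at hy
      obtain ⟨Z', h1, h2, h3⟩ := restrict_core K (hF y) φ x₀ Z
        (fun v => if v ∈ U then decide (v ∈ Z) else !(Sum.elim x₀ id (φ v) : Bool))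
        (fun v h => by
          by_cases hv : v ∈ U
          · rw [if_pos hv] at h
            exact Or.inl (of_decide_eq_true h)
          · exact Or.inr (hU v hv))
        (fun v h => by
          by_cases hv : v ∈ U
          · rw [if_pos hv] at h
            exact h0 v (of_decide_eq_true h)
          · rw [if_neg hv] at h
            simpa using h) hy
      obtain ⟨j, hj⟩ := hacc x₀ ⟨y, Z', h1.trans hZ, h2, h3⟩
      exact ⟨x₀, by
        rw [Finset.mem_coe, Finset.mem_biUnion]
        exact ⟨j, Finset.mem_univ j, Finset.mem_filter.2 ⟨hx₀, hj⟩⟩, rfl⟩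
    rw [Finset.card_map]
    calc Q * {x | x ∈ S.map ⟨_, hinj⟩ ∧ AccSees U w D x}.ncard
        ≤ Q * (univ.biUnion fun j : (Y × {Z : Finset κ // Z.card ≤ w}) => S.filter fun x => C j x = true).card :=
          Nat.mul_le_mul_left _ h1
      _ ≤ Q * ∑ j : (Y × {Z : Finset κ // Z.card ≤ w}), (S.filter fun x => C j x = true).card :=
          Nat.mul_le_mul_left _ Finset.card_biUnion_le
      _ = ∑ j : (Y × {Z : Finset κ // Z.card ≤ w}), Q * (S.filter fun x => C j x = true).card := Finset.mul_sum _ _ _
      _ ≤ ∑ _j : (Y × {Z : Finset κ // Z.card ≤ w}), S.card :=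
          Finset.sum_le_sum fun j _ => hSK (C j) (hC j) (hle j)
      _ = Fintype.card (Y × {Z : Finset κ // Z.card ≤ w}) * S.card := by
          rw [Finset.sum_const, Finset.card_univ, smul_eq_mul]
      _ = Fintype.card Y * (univ.filter fun Z : Finset κ => Z.card ≤ w).card * S.card := by
          rw [Fintype.card_prod, Fintype.card_subtype]

end Pool.Agent.GB24.Loc
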