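import Pool.Agent.NWE.Blind
import Pool.Agent.NTN.ForestRestr

/-!
# Clique: circuits which do not see the missing edges in a set with few endpoints
-/

set_option autoImplicit false

namespace Pool.Agent.GB24.Loc

open Finset Pool.Agent.NegLim Pool.Agent.NWE Pool.Agent.NTN

section

variable {V : Type}

/-- Substitute constants for the variables `v` with `τ v ≠ none`. -/
def setW (τ : V → Option Bool) : Wire V → Wire V
  | .var v => match τ v with
    | some c => .const c
    | none => .var v
  | .const b => .const b
  | .gate j => .gate j

/-- Substitute constants for the variables `v` with `τ v ≠ none`. -/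
def setG (τ : V → Option Bool) : Gate V → Gate V
  | .and a b => .and (setW τ a) (setW τ b)
  | .or a b => .or (setW τ a) (setW τ b)
  | .not a => .not (setW τ a)

/-- The partly hidden input `p` with the values `τ`. -/
def setP (τ : V → Option Bool) (p : V → Option Bool) (v : V) : Option Bool :=
  match τ v with
  | some c => some c
  | none => p v

lemma wireK_set (τ : V → Option Bool) (p : V → Option Bool) (l : List (Option Bool))
    (a : Wire V) : wireK p l (setW τ a) = wireK (setP τ p) l a := by
  cases a with
  | var v =>
    simp only [setW, wireK, setP]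
    cases τ v <;> rfl
  | const b => rfl
  | gate j => rfl

lemma gateK_set (τ : V → Option Bool) (p : V → Option Bool) (l : List (Option Bool))
    (g : Gate V) : gateK p l (setG τ g) = gateK (setP τ p) l g := by
  cases g <;> simp only [setG, gateK, wireK_set]

lemma valsK_set (τ : V → Option Bool) (p : V → Option Bool) (C : Circuit V)
    (l : List (Option Bool)) :
    valsK p (List.map (setG τ) C) l = valsK (setP τ p) C l := by
  induction C generalizing l with
  | nil => rfl
  | cons g C ih =>
    simp only [List.map_cons, valsK, gateK_set]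
    exact ih _

lemma kleene_set (τ : V → Option Bool) (p : V → Option Bool) (C : Circuit V) (a : Wire V) :
    kleene (List.map (setG τ) C) p (setW τ a) = kleene C (setP τ p) a := by
  unfold kleene
  rw [valsK_set, wireK_set]

/-- One more AND gate. -/
lemma kleene_andVar (i : V) (D : Circuit V) (a : Wire V) (p : V → Option Bool) :
    kleene (List.append D [.and (.var i) (safeW D.length a)]) p (.gate D.length)
      = kAnd (p i) (kleene D p a) := by
  unfold kleene
  rw [valsK_append]
  simp only [valsK, gateK]
  have h1 := wireK_safe p (valsK p D []) [] a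
  rw [valsK_length', List.append_nil] at h1
  rw [h1]
  show List.getD _ D.length (some false) = _
  rw [List.getD_append_right _ _ _ _ (by rw [valsK_length']), valsK_length', Nat.sub_self]
  rfl

/-- The OR of two circuits. -/
def orC (D : Circuit V) (a : Wire V) (D' : Circuit V) (a' : Wire V) : Circuit V :=
  List.append D (List.append (List.map (shiftG D.length) D')
    [.or (safeW D.length a) (shiftW D.length (safeW D'.length a'))])

lemma kleene_or (D : Circuit V) (a : Wire V) (D' : Circuit V) (a' : Wire V)
    (p : V → Option Bool) :
    kleene (orC D a D' a') p (.gate (D.length + D'.length))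
      = kOr (kleene D p a) (kleene D' p a') := by
  unfold kleene orC
  rw [valsK_append, valsK_append]
  set v0 := valsK p D [] with hv0
  have hl0 : v0.length = D.length := valsK_length' _ _
  have h3 := valsK_shift p D' v0 []
  rw [hl0, List.append_nil] at h3
  rw [h3]
  set v1 := valsK p D' [] with hv1
  have hl1 : v1.length = D'.length := valsK_length' _ _
  have e1 : wireK p (v0 ++ v1) (shiftW D.length (safeW D'.length a')) = wireK p v1 a' := by
    have h4 := wireK_shift p v0 v1 (safeW D'.length a')
    rw [hl0] at h4
    rw [h4]
    have h5 := wireK_safe p v1 [] a'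
    rw [hl1, List.append_nil] at h5
    exact h5
  have e2 : wireK p (v0 ++ v1) (safeW D.length a) = wireK p v0 a := by
    have h5 := wireK_safe p v0 v1 a
    rw [hl0] at h5
    exact h5
  simp only [valsK, gateK, e1, e2]
  show List.getD (v0 ++ v1 ++ [_]) (D.length + D'.length) (some false) = _
  rw [List.getD_append_right _ _ _ _ (by rw [List.length_append, hl0, hl1]),
    List.length_append, hl0, hl1, Nat.sub_self]
  rfl

lemma kAnd_some (b c : Bool) : kAnd (some b) (some c) = some (b && c) := by
  cases b <;> rfl

lemma kOr_some (b c : Bool) : kOr (some b) (some c) = some (b || c) := by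
  cases b <;> rfl

/-- The AND of a circuit and variables. -/
lemma exists_and [DecidableEq V] (C : Circuit V) (a : Wire V) (T : Finset V) :
    ∃ (D : Circuit V) (b : Wire V), D.size = C.size + T.card ∧
      (∀ x, D.val x b = true ↔ (∀ v ∈ T, x v = true) ∧ C.val x a = true) ∧
      ∀ p : V → Option Bool, (∀ v ∈ T, p v = some true) → kleene C p a = some true →
        kleene D p b = some true := by
  induction T using Finset.induction_on with
  | empty => exact ⟨C, a, by simp, fun x => by simp, fun p _ h => h⟩
  | insert i T hi ih =>
    obtain ⟨D, b, h1, h2, h3⟩ := ih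
    refine ⟨List.append D [.and (.var i) (safeW D.length b)], .gate D.length, ?_, fun x => ?_,
      fun p hp hC => ?_⟩
    · rw [Finset.card_insert_of_notMem hi, ← Nat.add_assoc, ← h1]
      unfold Circuit.size
      simp
    · have h4 := kleene_andVar i D b fun v => some (x v)
      rw [kleene_total, kleene_total, kAnd_some] at h4
      rw [Option.some.inj h4, Bool.and_eq_true, h2 x]
      constructor
      · rintro ⟨h5, h6, h7⟩
        refine ⟨fun v hv => ?_, h7⟩
        rcases Finset.mem_insert.1 hv with rfl | hv
        · exact h5
        · exact h6 v hv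
      · rintro ⟨h5, h6⟩
        exact ⟨h5 i (Finset.mem_insert_self _ _),
          fun v hv => h5 v (Finset.mem_insert_of_mem hv), h6⟩
    · rw [kleene_andVar, hp i (Finset.mem_insert_self _ _),
        h3 p (fun v hv => hp v (Finset.mem_insert_of_mem hv)) hC]
      rfl

/-- The OR of circuits. -/
lemma exists_or {α : Type} [DecidableEq α] (A : Finset α) (m : ℕ) (P : α → (V → Bool) → Prop)
    (Q : α → (V → Option Bool) → Prop)
    (h : ∀ t ∈ A, ∃ (D : Circuit V) (b : Wire V), D.size ≤ m ∧ (∀ x, D.val x b = true ↔ P t x) ∧
      ∀ p, Q t p → kleene D p b = some true) :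
    ∃ (D : Circuit V) (b : Wire V), D.size ≤ A.card * (m + 1) ∧
      (∀ x, D.val x b = true ↔ ∃ t ∈ A, P t x) ∧
      ∀ p, (∃ t ∈ A, Q t p) → kleene D p b = some true := by
  induction A using Finset.induction_on with
  | empty =>
    refine ⟨[], .const false, by simp [Circuit.size], fun x => ?_, fun p hp => ?_⟩
    · simp [Circuit.val, Wire.val]
    · obtain ⟨t, ht, -⟩ := hp
      simp at ht
  | insert t A ht ih =>
    obtain ⟨D, b, h1, h2, h3⟩ := ih fun u hu => h u (Finset.mem_insert_of_mem hu)
    obtain ⟨D', b', h1', h2', h3'⟩ := h t (Finset.mem_insert_self _ _)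
    refine ⟨orC D b D' b', .gate (D.length + D'.length), ?_, fun x => ?_, fun p hp => ?_⟩
    · rw [Finset.card_insert_of_notMem ht]
      have h4 : (orC D b D' b').size = D.size + D'.size + 1 := by
        unfold orC Circuit.size
        simp [Nat.add_assoc]
      rw [h4]
      calc D.size + D'.size + 1 ≤ A.card * (m + 1) + m + 1 := by omega
        _ = (A.card + 1) * (m + 1) := by ring
    · have h4 := kleene_or D b D' b' fun v => some (x v)
      rw [kleene_total, kleene_total, kleene_total, kOr_some] at h4
      rw [Option.some.inj h4, Bool.or_eq_true, h2 x, h2' x]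
      constructor
      · rintro (⟨u, hu, h5⟩ | h5)
        · exact ⟨u, Finset.mem_insert_of_mem hu, h5⟩
        · exact ⟨t, Finset.mem_insert_self _ _, h5⟩
      · rintro ⟨u, hu, h5⟩
        rcases Finset.mem_insert.1 hu with rfl | hu
        · exact Or.inr h5
        · exact Or.inl ⟨u, hu, h5⟩
    · rw [kleene_or]
      have hk : ∀ o : Option Bool, kOr o (some true) = some true := by
        intro o
        rcases o with _ | (_ | _) <;> rfl
      have hk' : ∀ o : Option Bool, kOr (some true) o = some true := fun o => rfl
      obtain ⟨u, hu, h5⟩ := hp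
      rcases Finset.mem_insert.1 hu with rfl | hu
      · rw [h3' p h5, hk]
      · rw [h3 p ⟨u, hu, h5⟩, hk']

end

open Classical in
/-- The edges of `U` inside the set of vertices `A`. -/
noncomputable def inside {N : ℕ} (U : Finset (Edge N)) (A : Finset (Fin N)) : Finset (Edge N) :=
  U.filter fun e => e.1.1 ∈ A ∧ e.1.2 ∈ A

open Classical in
/-- The edges of `U` get the value `1` inside `A` and the value `0` otherwise. -/
noncomputable def cutoff {N : ℕ} (U : Finset (Edge N)) (A : Finset (Fin N)) (v : Edge N) :
    Option Bool :=
  if v ∈ U then some (decide (v ∈ inside U A)) else none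

/-- **Circuits for clique which see no missing edge in `U`**, `U` a set of edges with few
endpoints. -/
theorem clique_blind_ends {N : ℕ} (K : ℕ) (U : Finset (Edge N)) (C : Circuit (Edge N))
    (a : Wire (Edge N)) (hC : ∀ x, C.val x a = true ↔ HasClique K x) :
    ∃ (D : Circuit (Edge N)) (b : Wire (Edge N)),
      D.size ≤ 2 ^ (ends U).card * (C.size + U.card + 1) ∧
      (∀ x, D.val x b = true ↔ HasClique K x) ∧
      ∀ x, HasClique K x → kleene D (hide U ∅ x) b = some true := by
  classical
  -- the inputs which are looked at
  set xA : Finset (Fin N) → (Edge N → Bool) → Edge N → Bool := fun A x v =>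
    if v ∈ U then decide (v ∈ inside U A) else x v with hxA
  have hval : ∀ (A : Finset (Fin N)) (x : Edge N → Bool),
      setP (cutoff U A) (fun v => some (x v)) = fun v => some (xA A x v) := by
    intro A x
    funext v
    by_cases hv : v ∈ U
    · simp only [setP, cutoff, hxA, if_pos hv]
    · simp only [setP, cutoff, hxA, if_neg hv]
  have hhid : ∀ (A : Finset (Fin N)) (x : Edge N → Bool),
      setP (cutoff U A) (hide U ∅ x) = fun v => some (xA A x v) := by
    intro A x
    funext v
    by_cases hv : v ∈ U
    · simp only [setP, cutoff, hxA, if_pos hv]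
    · simp only [setP, cutoff, hxA, if_neg hv, hide, hv, false_and, if_false]
  obtain ⟨D, b, h1, h2, h3⟩ := exists_or (V := Edge N) (ends U).powerset (C.size + U.card)
    (fun A x => (∀ v ∈ inside U A, x v = true) ∧ HasClique K (xA A x))
    (fun A p => (∀ v ∈ inside U A, p v = some true) ∧
      kleene C (setP (cutoff U A) p) a = some true) (fun A _ => by
      obtain ⟨D, b, h1, h2, h3⟩ := exists_and (List.map (setG (cutoff U A)) C)
        (setW (cutoff U A) a) (inside U A)
      refine ⟨D, b, ?_, fun x => ?_, fun p hp => ?_⟩
      · rw [h1]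
        have h4 : (inside U A).card ≤ U.card := Finset.card_le_card (Finset.filter_subset _ _)
        have h5 : Circuit.size (List.map (setG (cutoff U A)) C) = C.size := by
          unfold Circuit.size
          exact List.length_map _
        omega
      · rw [h2 x]
        have h4 := kleene_set (cutoff U A) (fun v => some (x v)) C a
        rw [hval, kleene_total, kleene_total] at h4
        rw [Option.some.inj h4, hC]
      · exact h3 p hp.1 (by rw [kleene_set]; exact hp.2))
  rw [Finset.card_powerset] at h1
  have key : ∀ x : Edge N → Bool, HasClique K x →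
      ∃ A ∈ (ends U).powerset, (∀ v ∈ inside U A, x v = true) ∧ HasClique K (xA A x) := by
    intro x hx
    obtain ⟨S, hS, hSx⟩ := hx
    refine ⟨(ends U).filter fun v => v ∈ S, Finset.mem_powerset.2 (Finset.filter_subset _ _),
      fun v hv => ?_, S, hS, fun i hi j hj hij => ?_⟩
    · obtain ⟨hvU, hv1, hv2⟩ := Finset.mem_filter.1 hv
      have h4 := (Finset.mem_filter.1 hv1).2
      have h5 := (Finset.mem_filter.1 hv2).2
      exact hSx v.1.1 h4 v.1.2 h5 v.2
    · by_cases hv : (⟨(i, j), hij⟩ : Edge N) ∈ U
      · simp only [hxA, if_pos hv, decide_eq_true_eq]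
        refine Finset.mem_filter.2 ⟨hv, ?_, ?_⟩
        · refine Finset.mem_filter.2 ⟨?_, hi⟩
          unfold ends
          exact Finset.mem_filter.2 ⟨Finset.mem_univ _, _, hv, Or.inl rfl⟩
        · refine Finset.mem_filter.2 ⟨?_, hj⟩
          unfold ends
          exact Finset.mem_filter.2 ⟨Finset.mem_univ _, _, hv, Or.inr rfl⟩
      · simp only [hxA, if_neg hv]
        exact hSx i hi j hj hij
  refine ⟨D, b, h1, fun x => ?_, fun x hx => ?_⟩
  · rw [h2 x]
    constructor
    · rintro ⟨A, -, hA, S, hS, hSx⟩
      refine ⟨S, hS, fun i hi j hj hij => ?_⟩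
      have h4 := hSx i hi j hj hij
      by_cases hv : (⟨(i, j), hij⟩ : Edge N) ∈ U
      · simp only [hxA, if_pos hv, decide_eq_true_eq] at h4
        exact hA _ h4
      · simp only [hxA, if_neg hv] at h4
        exact h4
    · exact key x
  · refine h3 _ ?_
    obtain ⟨A, hA, h4, h5⟩ := key x hx
    refine ⟨A, hA, fun v hv => ?_, ?_⟩
    · have h6 := h4 v hv
      unfold hide
      rw [h6, if_neg (by simp)]
    · rw [hhid, kleene_total, (hC _).2 h5]

end Pool.Agent.GB24.Loc
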