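import Pool.Agent.GB24.HiddenBlindEnds

/-!
# Clique on the inputs equal outside a set with few endpoints: few gates which see no missing edge

For a set `U` of edges with `e` endpoints and any values `ρ` of the other edges there is a circuit
with at most `2 ^ e (|U| + 1)` gates which is right on all inputs equal to `ρ` outside `U` and which
accepts when all missing edges in `U` are hidden.
-/

set_option autoImplicit false

namespace Pool.Agent.GB24.Loc

open Finset Pool.Agent.NegLim Pool.Agent.NWE Pool.Agent.NTN

theorem clique_class_blind {N : ℕ} (K : ℕ) (U : Finset (Edge N)) (ρ : Edge N → Bool) :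
    ∃ (D : Circuit (Edge N)) (b : Wire (Edge N)),
      D.size ≤ 2 ^ (ends U).card * (U.card + 1) ∧
      (∀ x, (∀ v, v ∉ U → x v = ρ v) → (D.val x b = true ↔ HasClique K x)) ∧
      ∀ x, (∀ v, v ∉ U → x v = ρ v) → HasClique K x →
        kleene D (hide U ∅ x) b = some true := by
  classical
  set ρA : Finset (Fin N) → Edge N → Bool := fun A v =>
    if v ∈ U then decide (v ∈ inside U A) else ρ v with hρA
  set W := (ends U).powerset.filter fun A => HasClique K (ρA A) with hW
  obtain ⟨D, b, h1, h2, h3⟩ := exists_or (V := Edge N) W U.card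
    (fun A x => ∀ v ∈ inside U A, x v = true)
    (fun A p => ∀ v ∈ inside U A, p v = some true) (fun A _ => by
      obtain ⟨D, b, h1, h2, h3⟩ := exists_and ([] : Circuit (Edge N)) (.const true) (inside U A)
      refine ⟨D, b, ?_, fun x => ?_, fun p hp => ?_⟩
      · rw [h1]
        have h4 : (inside U A).card ≤ U.card := Finset.card_le_card (Finset.filter_subset _ _)
        have h5 : Circuit.size ([] : Circuit (Edge N)) = 0 := rfl
        omega
      · rw [h2 x]
        simp [Circuit.val, Wire.val]
      · exact h3 p hp rfl)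
  have hmono : ∀ {x y : Edge N → Bool}, (∀ v, x v = true → y v = true) → HasClique K x →
      HasClique K y := by
    intro x y hxy hx
    obtain ⟨S, hS, hSx⟩ := hx
    exact ⟨S, hS, fun i hi j hj hij => hxy _ (hSx i hi j hj hij)⟩
  have key : ∀ x : Edge N → Bool, (∀ v, v ∉ U → x v = ρ v) → HasClique K x →
      ∃ A ∈ W, ∀ v ∈ inside U A, x v = true := by
    intro x hxρ hx
    obtain ⟨S, hS, hSx⟩ := hx
    have hins : ∀ v ∈ inside U ((ends U).filter fun v => v ∈ S), x v = true := by
      intro v hv
      unfold inside at hv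
      rw [Finset.mem_filter] at hv
      obtain ⟨-, hv1, hv2⟩ := hv
      exact hSx _ (Finset.mem_filter.1 hv1).2 _ (Finset.mem_filter.1 hv2).2 v.2
    refine ⟨(ends U).filter fun v => v ∈ S, ?_, hins⟩
    rw [hW, Finset.mem_filter]
    refine ⟨Finset.mem_powerset.2 (Finset.filter_subset _ _), S, hS, fun i hi j hj hij => ?_⟩
    have h4 := hSx i hi j hj hij
    simp only [hρA]
    split_ifs with h5
    · rw [decide_eq_true_eq]
      unfold inside
      rw [Finset.mem_filter]
      refine ⟨h5, ?_, ?_⟩
      · rw [Finset.mem_filter]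
        refine ⟨?_, hi⟩
        unfold ends
        rw [Finset.mem_filter]
        exact ⟨Finset.mem_univ _, _, h5, Or.inl rfl⟩
      · rw [Finset.mem_filter]
        refine ⟨?_, hj⟩
        unfold ends
        rw [Finset.mem_filter]
        exact ⟨Finset.mem_univ _, _, h5, Or.inr rfl⟩
    · rw [← hxρ _ h5]
      exact h4
  refine ⟨D, b, ?_, fun x hx => ?_, fun x hx hx1 => ?_⟩
  · refine h1.trans (Nat.mul_le_mul_right _ ?_)
    rw [← Finset.card_powerset]
    exact Finset.card_le_card (Finset.filter_subset _ _)
  · rw [h2 x]
    constructor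
    · rintro ⟨A, hA, hAx⟩
      refine hmono (fun v hv => ?_) (Finset.mem_filter.1 hA).2
      simp only [hρA] at hv
      split_ifs at hv with h5
      · rw [decide_eq_true_eq] at hv
        exact hAx v hv
      · rw [hx v h5]
        exact hv
    · exact key x hx
  · obtain ⟨A, hA, hAx⟩ := key x hx hx1
    refine h3 _ ⟨A, hA, fun v hv => ?_⟩
    have h6 := hAx v hv
    simp [hide, h6]

end Pool.Agent.GB24.Loc
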