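import Pool.Agent.NWE.Kleene

/-!
# Devices with guesses which see few zeros of the input: definitions

A partly hidden input is a function `p : ι → Option Bool`; `p v = none` means that the bit `v` is
hidden. A device is a Boolean function of partly hidden inputs; `fun v => some (x v)` is the input `x`
with nothing hidden.
-/

namespace Pool.Agent.GB24

/-- The literals known to be true at the partly hidden input `p`: `Sum.inl v` is the variable `v`,
`Sum.inr v` is the negated variable `v`. -/
def known {ι : Type} (p : ι → Option Bool) : ι ⊕ ι → Bool :=
  Sum.elim (fun v => p v == some true) fun v => p v == some false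

open Classical in
/-- The input `x` with all zeros hidden except those in `Z`. -/
noncomputable def hideZeros {ι : Type} (Z : Finset ι) (x : ι → Bool) (v : ι) : Option Bool :=
  if x v = true ∨ v ∈ Z then some (x v) else none

/-- The devices `D y` (`y` a guess) accept the input `x` seeing at most `w` zeros: for some guess
`y` and some set `Z` of at most `w` zeros of `x`, the device `D y` accepts `x` with all zeros outside
`Z` hidden. -/
def AccSees {ι Y : Type} (w : ℕ) (D : Y → (ι → Option Bool) → Bool) (x : ι → Bool) : Prop :=
  ∃ (y : Y) (Z : Finset ι), Z.card ≤ w ∧ (∀ v ∈ Z, x v = false) ∧ D y (hideZeros Z x) = true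

/-- Some nonempty set `M` of inputs with `f x` is such that for all devices `D y` (`y ∈ Y` a guess)
of the class `K` which accept only inputs with `f x`, at most `|Y| n ^ w |M| / Q` elements of `M` are
accepted seeing at most `w` zeros. -/
def HardSet {ι : Type} (f : (ι → Bool) → Prop) (K : ((ι → Option Bool) → Bool) → Prop)
    (n Q : ℕ) : Prop :=
  ∃ M : Finset (ι → Bool), M.Nonempty ∧ (∀ x ∈ M, f x) ∧
    ∀ (Y : Type) [Fintype Y] (w : ℕ) (D : Y → (ι → Option Bool) → Bool), (∀ y, K (D y)) →
      (∀ y x, D y (fun v => some (x v)) = true → f x) →
      Q * {x | x ∈ M ∧ AccSees w D x}.ncard ≤ Fintype.card Y * n ^ w * M.card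

end Pool.Agent.GB24
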