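import Pool.Agent.GB24.HiddenU

/-!
# From a hard set for a class of monotone functions to devices which see few zeros

If the functions of the class `K` below the monotone function `g` accept at most the `Q`-th part of the
set `S` of ones of `g`, then devices of the class `K` with guesses which see few zeros accept few
elements of the image of `S`.
-/

namespace Pool.Agent.GB24.Loc

open Finset Pool.Agent.NegLim Pool.Agent.NTR Pool.Agent.NTR.Gen Pool.Agent.NWE Pool.Agent.GB24

/-- **A hard set.** `S` is a nonempty set of ones of the monotone function `g` such that every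
function of the class `K` below `g` accepts at most the `Q`-th part of `S`; the substitution `φ`,
constant outside `U`, which hits every variable, turns `f` into `g`. -/
theorem hardSet_direct (K : MonoClass) {ι κ : Type} [DecidableEq ι] [Fintype κ] {Q n : ℕ}
    (g : (κ → Bool) → Prop) (hg : ∀ u v : κ → Bool, u ≤ v → g u → g v)
    (S : Finset (κ → Bool)) (hS : S.Nonempty) (hS1 : ∀ u ∈ S, g u)
    (hSK : ∀ G, K.mem κ G → (∀ u, G u = true → g u) →
      Q * (S.filter fun u => G u = true).card ≤ S.card)
    (f : (ι → Bool) → Prop) (U : Finset ι) (φ : ι → κ ⊕ Bool)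
    (hsurj : ∀ e, ∃ v, φ v = Sum.inl e) (hU : ∀ v, v ∉ U → ∃ c, φ v = Sum.inr c)
    (hφ : ∀ x : κ → Bool, f (fun v => Sum.elim x id (φ v)) ↔ g x)
    (hn : Fintype.card κ + 1 ≤ n) (K' : ((ι → Option Bool) → Bool) → Prop)
    (hK' : ∀ D, K' D → ∃ F, K.mem _ F ∧ ∀ p, D p = F (known p)) :
    HardSet f U K' n Q := by
  classical
  have hinj : Function.Injective fun (x : κ → Bool) (v : ι) => (Sum.elim x id (φ v) : Bool) := by
    intro x y hxy
    funext e
    obtain ⟨v, hv⟩ := hsurj e
    have h1 := congrFun hxy v
    simpa [hv] using h1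
  have hρ : ∀ (x : κ → Bool) (v : ι), v ∉ U →
      (Sum.elim x id (φ v) : Bool) = Sum.elim (fun _ => false) id (φ v) := by
    intro x v hv
    obtain ⟨c, hc⟩ := hU v hv
    rw [hc]
    rfl
  refine ⟨fun v => Sum.elim (fun _ => false) id (φ v), S.map ⟨_, hinj⟩, ?_, ?_, ?_⟩
  · rwa [Finset.map_nonempty]
  · intro x hx
    obtain ⟨x₀, hx₀, rfl⟩ := Finset.mem_map.1 hx
    exact ⟨(hφ x₀).2 (hS1 x₀ hx₀), fun v hv => hρ x₀ v hv⟩
  · intro Y _ w D hD hs
    choose F hF hDF using fun y => hK' (D y) (hD y)
    obtain ⟨J, _, C, hJ, hC, hle, hacc⟩ := acc_family K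
      (fun y x => F y fun s => Sum.elim x id (litMap φ s))
      (fun y => K.subst _ _ (F y) (litMap φ) (hF y)) g hg
      (fun y x hy => by
        change F y (fun s => Sum.elim (Sum.elim x fun k => !x k) id (litMap φ s)) = true at hy
        rw [litMap_not] at hy
        refine (hφ x).1 (hs y _ (fun v hv => hρ x v hv) ?_)
        rw [hDF, known_some]
        exact hy) w
    have h1 : {x | x ∈ S.map ⟨_, hinj⟩ ∧ AccSees U w D x}.ncard ≤
        (univ.biUnion fun j : J => S.filter fun x => C j x = true).card := by
      rw [← Set.ncard_coe_finset]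
      refine le_trans (Set.ncard_le_ncard (t := (fun (x : κ → Bool) (v : ι) =>
        (Sum.elim x id (φ v) : Bool)) '' ((univ.biUnion fun j : J =>
          S.filter fun x => C j x = true : Finset (κ → Bool)) : Set (κ → Bool))) ?_
          (Set.toFinite _)) (Set.ncard_image_le (Set.toFinite _))
      rintro x ⟨hx, y, Z, hZU, hZ, h0, hy⟩
      obtain ⟨x₀, hx₀, rfl⟩ := Finset.mem_map.1 hx
      rw [hDF, known_hide U Z _ h0] at hy
      obtain ⟨Z', h1, h2, h3⟩ := restrict_core K (hF y) φ x₀ Z
        (fun v => if v ∈ U then decide (v ∈ Z) else !(Sum.elim x₀ id (φ v) : Bool))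
        (fun v h => by
          by_cases hv : v ∈ U
          · rw [if_pos hv] at h
            exact Or.inl (of_decide_eq_true h)
          · exact Or.inr (hU v hv))
        (fun v h => by
          by_cases hv : v ∈ U
          · rw [if_pos hv] at h
            exact h0 v (of_decide_eq_true h)
          · rw [if_neg hv] at h
            simpa using h) hy
      obtain ⟨j, hj⟩ := hacc x₀ ⟨y, Z', h1.trans hZ, h2, h3⟩
      exact ⟨x₀, by
        rw [Finset.mem_coe, Finset.mem_biUnion]
        exact ⟨j, Finset.mem_univ j, Finset.mem_filter.2 ⟨hx₀, hj⟩⟩, rfl⟩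
    rw [Finset.card_map]
    calc Q * {x | x ∈ S.map ⟨_, hinj⟩ ∧ AccSees U w D x}.ncard
        ≤ Q * (univ.biUnion fun j : J => S.filter fun x => C j x = true).card :=
          Nat.mul_le_mul_left _ h1
      _ ≤ Q * ∑ j : J, (S.filter fun x => C j x = true).card :=
          Nat.mul_le_mul_left _ Finset.card_biUnion_le
      _ = ∑ j : J, Q * (S.filter fun x => C j x = true).card := Finset.mul_sum _ _ _
      _ ≤ ∑ _j : J, S.card :=
          Finset.sum_le_sum fun j _ => hSK (C j) (hC j) (hle j)
      _ = Fintype.card J * S.card := by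
          rw [Finset.sum_const, Finset.card_univ, smul_eq_mul]
      _ ≤ Fintype.card Y * n ^ w * S.card := by
          refine Nat.mul_le_mul_right _ (hJ.trans (Nat.mul_le_mul_left _ ?_))
          exact Nat.pow_le_pow_left hn w

end Pool.Agent.GB24.Loc
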