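import Pool.Agent.GB24.HiddenUInst
import Pool.Agent.GB24.HiddenUCount

/-!
# Devices with any number of guesses, few of which are accepting
-/

namespace Pool.Agent.GB24.Loc

open Finset Pool.Agent.NegLim Pool.Agent.NTR Pool.Agent.NTR.Gen Pool.Agent.NWE Pool.Agent.GB24
  Pool.Agent.NTN Pool.Agent.TeleNeg Pool.Agent.PMB

/-- There are `ρ` and a nonempty set `M` of inputs with `f x`, which agree with `ρ` outside `U`,
such that for all devices `D y` (`y ∈ Y` a guess) of the class `K`, such that every input which agrees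
with `ρ` outside `U` is accepted by at most `A` of them, and by none if `f x` does not hold, at most
`A n ^ w |M| / Q` elements of `M` are accepted seeing at most `w` zeros in `U`. -/
def HardFew {ι : Type} [DecidableEq ι] (f : (ι → Bool) → Prop) (U : Finset ι)
    (K : ((ι → Option Bool) → Bool) → Prop) (n Q : ℕ) : Prop :=
  ∃ (ρ : ι → Bool) (M : Finset (ι → Bool)), M.Nonempty ∧
    (∀ x ∈ M, f x ∧ ∀ v, v ∉ U → x v = ρ v) ∧
    ∀ (Y : Type) [Fintype Y] (w A : ℕ) (D : Y → (ι → Option Bool) → Bool), (∀ y, K (D y)) →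
      (∀ x, (∀ v, v ∉ U → x v = ρ v) → {y | D y (fun v => some (x v)) = true}.ncard ≤ A ∧
        ∀ y, D y (fun v => some (x v)) = true → f x) →
      Q * {x | x ∈ M ∧ AccSees U w D x}.ncard ≤ A * n ^ w * M.card

lemma exists_code {ι : Type} [DecidableEq ι] {U Z : Finset ι} {w : ℕ} (hZ : Z ⊆ U)
    (hw : Z.card ≤ w) : ∃ q : Fin w → Option {v // v ∈ U},
      ∀ v, v ∈ Z ↔ ∃ (i : Fin w) (h : v ∈ U), q i = some ⟨v, h⟩ := by
  set e := Z.equivFin with he
  refine ⟨fun i => if h : (i : ℕ) < Z.card then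
    some ⟨(e.symm ⟨i, h⟩ : {v // v ∈ Z}).1, hZ (e.symm ⟨i, h⟩).2⟩ else none, fun v => ?_⟩
  constructor
  · intro hv
    have h1 : ((e ⟨v, hv⟩ : Fin Z.card) : ℕ) < Z.card := (e ⟨v, hv⟩).isLt
    refine ⟨⟨(e ⟨v, hv⟩ : Fin Z.card), lt_of_lt_of_le h1 hw⟩, hZ hv, ?_⟩
    simp only [dif_pos h1]
    have h2 : e.symm ⟨((e ⟨v, hv⟩ : Fin Z.card) : ℕ), h1⟩ = ⟨v, hv⟩ := e.symm_apply_apply _
    simp only [h2]
  · rintro ⟨i, h, hi⟩
    by_cases h1 : (i : ℕ) < Z.card
    · simp only [dif_pos h1] at hi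
      have h2 := congrArg Subtype.val (Option.some.inj hi)
      simp only at h2
      rw [← h2]
      exact (e.symm ⟨i, h1⟩).2
    · simp only [dif_neg h1] at hi
      exact absurd hi (by simp)

/-- **Few accepting guesses instead of few guesses.** -/
theorem HardSet.few {ι : Type} [DecidableEq ι] {f : (ι → Bool) → Prop} {U : Finset ι}
    {K : ((ι → Option Bool) → Bool) → Prop} {n Q : ℕ} (h : HardSet f U K n Q)
    (hK : ∀ D, K D → ∃ F : (ι ⊕ ι → Bool) → Bool, Monotone F ∧ ∀ p, D p = F (known p)) :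
    HardFew f U K ((U.card + 1) * n) Q := by
  classical
  obtain ⟨ρ, M, h1, h2, h3⟩ := h
  refine ⟨ρ, M, h1, h2, fun Y _ w A D hD hf => ?_⟩
  -- the largest input with zeros at the places `q`
  set top : (Fin w → Option {v // v ∈ U}) → ι → Bool := fun q v =>
    if hv : v ∈ U then decide (¬ ∃ i, q i = some ⟨v, hv⟩) else ρ v with htop
  have htopρ : ∀ q v, v ∉ U → top q v = ρ v := fun q v hv => by
    simp only [htop, dif_neg hv]
  set Y' : Finset Y := univ.biUnion fun q : Fin w → Option {v // v ∈ U} =>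
    univ.filter fun y => D y (fun v => some (top q v)) = true with hY'
  have hcard : Y'.card ≤ (U.card + 1) ^ w * A := by
    refine (card_biUnion_le_card_mul _ _ A fun q _ => ?_).trans (le_of_eq ?_)
    · have h4 := (hf (top q) (htopρ q)).1
      rw [Set.ncard_eq_toFinset_card'] at h4
      refine le_trans (le_of_eq ?_) h4
      congr 1
      ext y
      simp
    · rw [card_univ, Fintype.card_fun, Fintype.card_option, Fintype.card_coe, Fintype.card_fin]
  have h5 := h3 {y // y ∈ Y'} w (fun y => D y.1) (fun y => hD y.1)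
    fun y x hx hy => (hf x hx).2 y.1 hy
  have h6 : {x | x ∈ M ∧ AccSees U w D x} ⊆
      {x | x ∈ M ∧ AccSees U w (fun y : {y // y ∈ Y'} => D y.1) x} := by
    rintro x ⟨hx, y, Z, hZU, hZw, hZx, hy⟩
    refine ⟨hx, ⟨y, ?_⟩, Z, hZU, hZw, hZx, hy⟩
    obtain ⟨q, hq⟩ := exists_code hZU hZw
    refine mem_biUnion.2 ⟨q, mem_univ _, mem_filter.2 ⟨mem_univ _, ?_⟩⟩
    obtain ⟨F, hF1, hF2⟩ := hK _ (hD y)
    rw [hF2] at hy ⊢
    refine hF1 (a := known (hide U Z x)) (fun s => ?_) hy
    have key : ∀ (v : ι) (b : Bool), hide U Z x v = some b → top q v = b := by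
      intro v b hb
      unfold hide at hb
      by_cases hv : v ∈ U
      · have hZv : (∃ i, q i = some ⟨v, hv⟩) ↔ v ∈ Z := by
          rw [hq v]
          exact ⟨fun ⟨i, hi⟩ => ⟨i, hv, hi⟩, fun ⟨i, _, hi⟩ => ⟨i, hi⟩⟩
        simp only [htop, dif_pos hv]
        by_cases hz : v ∈ Z
        · rw [if_neg (by simp [hz])] at hb
          rw [← Option.some.inj hb, hZx v hz]
          simp only [decide_eq_false_iff_not, not_not]
          exact hZv.2 hz
        · cases hxv : x v
          · rw [if_pos ⟨hv, hz, hxv⟩] at hb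
            simp at hb
          · rw [if_neg (by simp [hxv]), hxv] at hb
            rw [← Option.some.inj hb]
            simp only [decide_eq_true_eq]
            exact fun h => hz (hZv.1 h)
      · rw [if_neg (by simp [hv])] at hb
        rw [htopρ q v hv, ← (h2 x hx).2 v hv]
        exact Option.some.inj hb
    rcases s with v | v
    · simp only [known, Sum.elim_inl]
      cases hb : hide U Z x v with
      | none => simp
      | some b => rw [key v b hb]
    · simp only [known, Sum.elim_inr]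
      cases hb : hide U Z x v with
      | none => simp
      | some b => rw [key v b hb]
  have h7 : {x | x ∈ M ∧ AccSees U w D x}.ncard ≤
      {x | x ∈ M ∧ AccSees U w (fun y : {y // y ∈ Y'} => D y.1) x}.ncard :=
    Set.ncard_le_ncard h6 (Set.Finite.subset M.finite_toSet fun x hx => hx.1)
  have h8 : Fintype.card {y // y ∈ Y'} ≤ (U.card + 1) ^ w * A := by
    rw [Fintype.card_coe]
    exact hcard
  calc Q * {x | x ∈ M ∧ AccSees U w D x}.ncard
      ≤ Q * {x | x ∈ M ∧ AccSees U w (fun y : {y // y ∈ Y'} => D y.1) x}.ncard :=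
        Nat.mul_le_mul_left _ h7
    _ ≤ Fintype.card {y // y ∈ Y'} * n ^ w * M.card := h5
    _ ≤ (U.card + 1) ^ w * A * n ^ w * M.card :=
        Nat.mul_le_mul_right _ (Nat.mul_le_mul_right _ h8)
    _ = A * ((U.card + 1) * n) ^ w * M.card := by
        rw [mul_pow]
        ring

lemma mono_of_kleene {ι : Type} {s : ℕ} (D : (ι → Option Bool) → Bool)
    (h : ∃ (C : Circuit ι) (o : Wire ι), C.size ≤ 2 ^ s ∧ ∀ p, D p = (kleene C p o == some true)) :
    ∃ F : (ι ⊕ ι → Bool) → Bool, Monotone F ∧ ∀ p, D p = F (known p) := by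
  obtain ⟨F, hF, h1⟩ := kleene_lits D h
  exact ⟨F, (circClass (2 ^ (s + 1))).mono _ F hF, h1⟩

/-- **Clique.** -/
theorem clique_few {s : ℕ} (hs : 1 ≤ s) {N k : ℕ} (U : Finset (Edge N))
    (hU : 2 * k ≤ (ends U).card) :
    HardFew (HasClique (N / 2)) U
      (fun D => ∃ (C : Circuit (Edge N)) (o : Wire (Edge N)),
        C.size ≤ 2 ^ s ∧ ∀ p, D p = (kleene C p o == some true))
      ((U.card + 1) * (k + 1)) ((2 ^ s) ^ (k / (2 ^ 122 * s ^ 4 * (Nat.log 2 s + 1) ^ 6))) :=
  (clique_hidden_ends hs U hU).few fun D h => mono_of_kleene D h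

/-- **Perfect matching.** -/
theorem pm_few {s m k : ℕ} (hs : 1 ≤ s) (U : Finset (Fin m × Fin m)) (hU : DisjointEdges k U) :
    HardFew HasPM U (fun D => ∃ (C : Circuit (Fin m × Fin m)) (o : Wire (Fin m × Fin m)),
        C.size ≤ 2 ^ s ∧ ∀ p, D p = (kleene C p o == some true))
      ((U.card + 1) * (k + 1)) ((2 ^ s) ^ (k / (2 ^ 302 * s ^ 10 * (Nat.log 2 s + 1) ^ 4))) ∧
    HardFew HasPM U (fun D => ∃ P : Net (Fin m × Fin m ⊕ Fin m × Fin m) (2 ^ s),
        ∀ p, D p = P.dval (known p))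
      ((U.card + 1) * (k + 1)) ((2 ^ s) ^ (k / (2 ^ 302 * s ^ 10 * (Nat.log 2 s + 1) ^ 4))) := by
  obtain ⟨h1, h2⟩ := pm_hidden hs U hU
  exact ⟨h1.few fun D h => mono_of_kleene D h, h2.few fun D ⟨P, hP⟩ =>
    ⟨P.dval, (dnetClass (2 ^ s)).mono _ P.dval ⟨P, fun _ => rfl⟩, hP⟩⟩

end Pool.Agent.GB24.Loc
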