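import Pool.Agent.GB24.HiddenBlindEnds

/-!
# Clique: nondeterministic circuits which do not see the missing edges in a set with few endpoints
-/

set_option autoImplicit false

namespace Pool.Agent.GB24.Loc

open Finset Pool.Agent.NegLim Pool.Agent.NWE Pool.Agent.NTN

/-- **Nondeterministic circuits for clique which see no missing edge in `U`**, a set of edges with
few endpoints: the size hardly grows, the number of accepting guesses grows by the factor `2 ^ e`. -/
theorem clique_blind_few {N : ℕ} (K : ℕ) (U : Finset (Edge N)) {Y : Type} [Fintype Y] {S A : ℕ}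
    (C : Y → Circuit (Edge N)) (a : Y → Wire (Edge N)) (hS : ∀ y, (C y).size ≤ S)
    (hC : ∀ x, HasClique K x ↔ ∃ y, (C y).val x (a y) = true)
    (hA : ∀ x, {y | (C y).val x (a y) = true}.ncard ≤ A) :
    ∃ (Y' : Type) (_ : Fintype Y') (D : Y' → Circuit (Edge N)) (b : Y' → Wire (Edge N)),
      (∀ y, (D y).size ≤ S + U.card) ∧
      (∀ x, HasClique K x ↔ ∃ y, (D y).val x (b y) = true) ∧
      (∀ x, {y | (D y).val x (b y) = true}.ncard ≤ 2 ^ (ends U).card * A) ∧
      ∀ x, HasClique K x → ∃ y, kleene (D y) (hide U ∅ x) (b y) = some true := by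
  classical
  -- the inputs which are looked at
  set xA : Finset (Fin N) → (Edge N → Bool) → Edge N → Bool := fun A x v =>
    if v ∈ U then decide (v ∈ inside U A) else x v with hxA
  have hval : ∀ (A : Finset (Fin N)) (x : Edge N → Bool),
      setP (cutoff U A) (fun v => some (x v)) = fun v => some (xA A x v) := by
    intro A x
    funext v
    by_cases hv : v ∈ U
    · simp only [setP, cutoff, hxA, if_pos hv]
    · simp only [setP, cutoff, hxA, if_neg hv]
  have hhid : ∀ (A : Finset (Fin N)) (x : Edge N → Bool),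
      setP (cutoff U A) (hide U ∅ x) = fun v => some (xA A x v) := by
    intro A x
    funext v
    by_cases hv : v ∈ U
    · simp only [setP, cutoff, hxA, if_pos hv]
    · simp only [setP, cutoff, hxA, if_neg hv, hide, hv, false_and, if_false]
  have one : ∀ (t : {T // T ∈ (ends U).powerset} × Y), ∃ (D : Circuit (Edge N)) (b : Wire (Edge N)),
      D.size ≤ S + U.card ∧
      (∀ x, D.val x b = true ↔ (∀ v ∈ inside U t.1.1, x v = true) ∧
        (C t.2).val (xA t.1.1 x) (a t.2) = true) ∧
      ∀ p : Edge N → Option Bool, (∀ v ∈ inside U t.1.1, p v = some true) →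
        kleene (C t.2) (setP (cutoff U t.1.1) p) (a t.2) = some true → kleene D p b = some true := by
    intro t
    obtain ⟨D, b, h1, h2, h3⟩ := exists_and (List.map (setG (cutoff U t.1.1)) (C t.2))
      (setW (cutoff U t.1.1) (a t.2)) (inside U t.1.1)
    refine ⟨D, b, ?_, fun x => ?_, fun p hp hp2 => h3 p hp (by rw [kleene_set]; exact hp2)⟩
    · rw [h1]
      have h4 : (inside U t.1.1).card ≤ U.card := Finset.card_le_card (Finset.filter_subset _ _)
      have h5 : Circuit.size (List.map (setG (cutoff U t.1.1)) (C t.2)) = (C t.2).size := by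
        unfold Circuit.size
        exact List.length_map _
      have h6 := hS t.2
      omega
    · rw [h2 x]
      have h4 := kleene_set (cutoff U t.1.1) (fun v => some (x v)) (C t.2) (a t.2)
      rw [hval, kleene_total, kleene_total] at h4
      rw [Option.some.inj h4]
  choose D b h1 h2 h3 using one
  have key : ∀ x : Edge N → Bool, HasClique K x →
      ∃ T ∈ (ends U).powerset, (∀ v ∈ inside U T, x v = true) ∧ HasClique K (xA T x) := by
    intro x hx
    obtain ⟨S, hS, hSx⟩ := hx
    refine ⟨(ends U).filter fun v => v ∈ S, Finset.mem_powerset.2 (Finset.filter_subset _ _),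
      fun v hv => ?_, S, hS, fun i hi j hj hij => ?_⟩
    · obtain ⟨hvU, hv1, hv2⟩ := Finset.mem_filter.1 hv
      have h4 := (Finset.mem_filter.1 hv1).2
      have h5 := (Finset.mem_filter.1 hv2).2
      exact hSx v.1.1 h4 v.1.2 h5 v.2
    · by_cases hv : (⟨(i, j), hij⟩ : Edge N) ∈ U
      · simp only [hxA, if_pos hv, decide_eq_true_eq]
        refine Finset.mem_filter.2 ⟨hv, ?_, ?_⟩
        · refine Finset.mem_filter.2 ⟨?_, hi⟩
          unfold ends
          exact Finset.mem_filter.2 ⟨Finset.mem_univ _, _, hv, Or.inl rfl⟩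
        · refine Finset.mem_filter.2 ⟨?_, hj⟩
          unfold ends
          exact Finset.mem_filter.2 ⟨Finset.mem_univ _, _, hv, Or.inr rfl⟩
      · simp only [hxA, if_neg hv]
        exact hSx i hi j hj hij
  refine ⟨{T // T ∈ (ends U).powerset} × Y, inferInstance, D, b, h1, fun x => ⟨fun hx => ?_, ?_⟩,
    fun x => ?_, fun x hx => ?_⟩
  · obtain ⟨T, hT, h4, h5⟩ := key x hx
    obtain ⟨y, hy⟩ := (hC _).1 h5
    exact ⟨(⟨T, hT⟩, y), (h2 _ x).2 ⟨h4, hy⟩⟩
  · rintro ⟨⟨T, y⟩, hy⟩
    obtain ⟨hA1, hA2⟩ := (h2 _ x).1 hy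
    obtain ⟨S', hS', hSx⟩ := (hC _).2 ⟨y, hA2⟩
    refine ⟨S', hS', fun i hi j hj hij => ?_⟩
    have h4 := hSx i hi j hj hij
    by_cases hv : (⟨(i, j), hij⟩ : Edge N) ∈ U
    · simp only [hxA, if_pos hv, decide_eq_true_eq] at h4
      exact hA1 _ h4
    · simp only [hxA, if_neg hv] at h4
      exact h4
  · have h4 : {y | (D y).val x (b y) = true} ⊆
        ↑((univ : Finset {T // T ∈ (ends U).powerset}).biUnion fun T =>
          (univ.filter fun y : Y => (C y).val (xA T.1 x) (a y) = true).image fun y => (T, y)) := by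
      rintro ⟨T, y⟩ hy
      rw [Finset.mem_coe, Finset.mem_biUnion]
      exact ⟨T, Finset.mem_univ _, Finset.mem_image.2
        ⟨y, Finset.mem_filter.2 ⟨Finset.mem_univ _, ((h2 _ x).1 hy).2⟩, rfl⟩⟩
    refine (Set.ncard_le_ncard h4 (Finset.finite_toSet _)).trans ?_
    rw [Set.ncard_coe_finset]
    refine (Finset.card_biUnion_le_card_mul _ _ A fun T _ => Finset.card_image_le.trans ?_).trans ?_
    · have h5 := hA (xA T.1 x)
      rw [Set.ncard_eq_toFinset_card'] at h5
      refine le_trans (le_of_eq ?_) h5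
      congr 1
      ext y
      simp
    · rw [Finset.card_univ, Fintype.card_coe, Finset.card_powerset]
  · obtain ⟨T, hT, h4, h5⟩ := key x hx
    obtain ⟨y, hy⟩ := (hC _).1 h5
    refine ⟨(⟨T, hT⟩, y), h3 _ _ (fun v hv => ?_) ?_⟩
    · have h6 := h4 v hv
      unfold hide
      rw [h6, if_neg (by simp)]
    · rw [hhid, kleene_total, hy]

end Pool.Agent.GB24.Loc
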