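import Pool.Agent.GB24.HiddenBlindEnds
import Pool.Agent.RC.Ival

/-!
# Nondeterministic circuits: the guess is an input

A nondeterministic circuit is a circuit `C` with the variables `V ⊕ Γ`; the guess `y : Γ → Bool` is an
input. For clique and every set `U` of edges with `e` endpoints, `e` more guess bits let a
nondeterministic circuit accept without seeing a missing edge in `U`.
-/

set_option autoImplicit false

namespace Pool.Agent.GB24.Loc

open Finset Pool.Agent.NegLim Pool.Agent.NWE Pool.Agent.NTN Pool.Agent.RC

section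

variable {V Γ W : Type}

/-- The wires of the circuit with the guess `y` as constants. -/
def instW (y : Γ → Bool) : Wire (V ⊕ Γ) → Wire V
  | .var (.inl v) => .var v
  | .var (.inr g) => .const (y g)
  | .const b => .const b
  | .gate i => .gate i

/-- The gates of the circuit with the guess `y` as constants. -/
def instG (y : Γ → Bool) : Gate (V ⊕ Γ) → Gate V
  | .and a b => .and (instW y a) (instW y b)
  | .or a b => .or (instW y a) (instW y b)
  | .not a => .not (instW y a)

lemma wireK_inst (y : Γ → Bool) (p : V → Option Bool) (l : List (Option Bool))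
    (a : Wire (V ⊕ Γ)) :
    wireK p l (instW y a) = wireK (Sum.elim p fun g => some (y g)) l a := by
  cases a with
  | var v => cases v <;> rfl
  | const b => rfl
  | gate j => rfl

lemma gateK_inst (y : Γ → Bool) (p : V → Option Bool) (l : List (Option Bool))
    (g : Gate (V ⊕ Γ)) :
    gateK p l (instG y g) = gateK (Sum.elim p fun g => some (y g)) l g := by
  cases g <;> simp only [instG, gateK, wireK_inst]

lemma valsK_inst (y : Γ → Bool) (p : V → Option Bool) (C : Circuit (V ⊕ Γ))
    (l : List (Option Bool)) :
    valsK p (List.map (instG y) C) l = valsK (Sum.elim p fun g => some (y g)) C l := by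
  induction C generalizing l with
  | nil => rfl
  | cons g C ih =>
    simp only [List.map_cons, valsK, gateK_inst]
    exact ih _

/-- A nondeterministic circuit with a fixed guess is a circuit of the same size. -/
theorem exists_inst (C : Circuit (V ⊕ Γ)) (a : Wire (V ⊕ Γ)) (y : Γ → Bool) :
    ∃ (D : Circuit V) (b : Wire V), D.size = C.size ∧
      ∀ p : V → Option Bool, kleene D p b = kleene C (Sum.elim p fun g => some (y g)) a :=
  ⟨List.map (instG y) C, instW y a, List.length_map _, fun p => by
    unfold kleene
    rw [valsK_inst, wireK_inst]⟩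

/-- The gates of the real circuit with the guess `y` as constants. -/
def instI (y : Γ → Bool) (g : IGate (V ⊕ Γ)) : IGate V :=
  ⟨g.φ, g.σ, g.τ, instW y g.a, instW y g.b⟩

lemma wireI_inst (y : Γ → Bool) (p : V → Option Bool) (l : List (ℝ × ℝ))
    (a : Wire (V ⊕ Γ)) :
    wireI p l (instW y a) = wireI (Sum.elim p fun g => some (y g)) l a := by
  cases a with
  | var v => cases v <;> rfl
  | const b => rfl
  | gate j => rfl

lemma valsI_inst (y : Γ → Bool) (p : V → Option Bool) (C : ICircuit (V ⊕ Γ))
    (l : List (ℝ × ℝ)) :
    valsI p (List.map (instI y) C) l = valsI (Sum.elim p fun g => some (y g)) C l := by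
  induction C generalizing l with
  | nil => rfl
  | cons g C ih =>
    have h1 : (instI y g).range p l = g.range (Sum.elim p fun g => some (y g)) l := by
      unfold IGate.range instI
      simp only [wireI_inst]
    simp only [List.map_cons, valsI, h1]
    exact ih _

/-- A nondeterministic real circuit with a fixed guess is a real circuit of the same size. -/
theorem exists_instI (C : ICircuit (V ⊕ Γ)) (a : Wire (V ⊕ Γ)) (y : Γ → Bool) :
    ∃ (D : ICircuit V) (b : Wire V), D.size = C.size ∧
      ∀ p : V → Option Bool, D.range p b = C.range (Sum.elim p fun g => some (y g)) a :=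
  ⟨List.map (instI y) C, instW y a, List.length_map _, fun p => by
    unfold ICircuit.range
    rw [valsI_inst, wireI_inst]⟩

/-- Substitute wires for variables and shift the gates by `m`. -/
def subW (m : ℕ) (σ : V → Wire W) : Wire V → Wire W
  | .var v => σ v
  | .const b => .const b
  | .gate j => .gate (j + m)

/-- Substitute wires for variables and shift the gates by `m`. -/
def subG (m : ℕ) (σ : V → Wire W) : Gate V → Gate W
  | .and a b => .and (subW m σ a) (subW m σ b)
  | .or a b => .or (subW m σ a) (subW m σ b)
  | .not a => .not (subW m σ a)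

lemma wireK_sub (p : W → Option Bool) (L l : List (Option Bool)) (σ : V → Wire W)
    (hσ : ∀ v l, wireK p (L ++ l) (σ v) = wireK p L (σ v)) (a : Wire V) :
    wireK p (L ++ l) (subW L.length σ a) = wireK (fun v => wireK p L (σ v)) l a := by
  cases a with
  | var v => exact hσ v l
  | const b => rfl
  | gate j =>
    simp only [subW, wireK]
    rw [List.getD_append_right _ _ _ _ (by omega), Nat.add_sub_cancel]

lemma gateK_sub (p : W → Option Bool) (L l : List (Option Bool)) (σ : V → Wire W)
    (hσ : ∀ v l, wireK p (L ++ l) (σ v) = wireK p L (σ v)) (g : Gate V) :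
    gateK p (L ++ l) (subG L.length σ g) = gateK (fun v => wireK p L (σ v)) l g := by
  cases g <;> simp only [subG, gateK, wireK_sub p L l σ hσ]

lemma valsK_sub (p : W → Option Bool) (L l : List (Option Bool)) (σ : V → Wire W)
    (hσ : ∀ v l, wireK p (L ++ l) (σ v) = wireK p L (σ v)) (C : Circuit V) :
    valsK p (List.map (subG L.length σ) C) (L ++ l)
      = L ++ valsK (fun v => wireK p L (σ v)) C l := by
  induction C generalizing l with
  | nil => rfl
  | cons g C ih =>
    simp only [List.map_cons, valsK, gateK_sub p L l σ hσ]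
    rw [List.append_assoc, ih]

/-- The ANDs of triples of variables. -/
lemma exists_pre {α : Type} [DecidableEq α] (A : Finset α) (F G H : α → W) :
    ∃ (P : Circuit W) (ix : α → ℕ), P.length = 2 * A.card ∧ ∀ v ∈ A, ix v < P.length ∧
      ∀ p, (valsK p P []).getD (ix v) (some false) = kAnd (kAnd (p (F v)) (p (G v))) (p (H v)) := by
  induction A using Finset.induction_on with
  | empty => exact ⟨[], fun _ => 0, by simp, fun v hv => absurd hv (Finset.notMem_empty v)⟩
  | insert i A hi ih =>
    obtain ⟨P, ix, h1, h2⟩ := ih
    refine ⟨List.append P [.and (.var (F i)) (.var (G i)), .and (.gate P.length) (.var (H i))],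
      fun v => if v = i then P.length + 1 else ix v, ?_, fun v hv => ?_⟩
    · rw [Finset.card_insert_of_notMem hi]
      show (P ++ _).length = _
      rw [List.length_append, h1]
      simp
      ring
    · have hlen : (List.append P [.and (.var (F i)) (.var (G i)),
          .and (.gate P.length) (.var (H i))]).length = P.length + 2 := by
        show (P ++ _).length = _
        rw [List.length_append]
        rfl
      have hvals : ∀ p : W → Option Bool, valsK p (List.append P
          [.and (.var (F i)) (.var (G i)), .and (.gate P.length) (.var (H i))]) []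
          = valsK p P [] ++ [kAnd (p (F i)) (p (G i)),
              kAnd (kAnd (p (F i)) (p (G i))) (p (H i))] := by
        intro p
        rw [valsK_append]
        simp only [valsK, gateK, wireK]
        rw [List.getD_append_right _ _ _ _ (by rw [valsK_length']), valsK_length', Nat.sub_self,
          List.append_assoc]
        rfl
      rw [hlen]
      beta_reduce
      by_cases hvi : v = i
      · subst hvi
        rw [if_pos rfl]
        refine ⟨Nat.lt_succ_self _, fun p => ?_⟩
        rw [hvals, List.getD_append_right _ _ _ _ (by rw [valsK_length']; omega), valsK_length',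
          Nat.add_sub_cancel_left]
        rfl
      · rw [if_neg hvi]
        have hvA : v ∈ A := (Finset.mem_insert.1 hv).resolve_left hvi
        obtain ⟨h3, h4⟩ := h2 v hvA
        refine ⟨by omega, fun p => ?_⟩
        rw [hvals, List.getD_append _ _ _ _ (by rw [valsK_length']; exact h3)]
        exact h4 p

/-- Feed a circuit with the ANDs of triples of variables. -/
lemma exists_feed {α : Type} [DecidableEq α] [Fintype α] (F G H : α → W)
    (τ : V → α ⊕ W) (C : Circuit V) (a : Wire V) :
    ∃ (D : Circuit W) (b : Wire W), D.size = C.size + 2 * Fintype.card α ∧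
      ∀ p, kleene D p b = kleene C (fun v => match τ v with
        | .inl u => kAnd (kAnd (p (F u)) (p (G u))) (p (H u))
        | .inr w => p w) a := by
  obtain ⟨P, ix, h1, h2⟩ := exists_pre (univ : Finset α) F G H
  set σ : V → Wire W := fun v => match τ v with
    | .inl u => .gate (ix u)
    | .inr w => .var w with hσ
  refine ⟨List.append P (List.map (subG P.length σ) C), subW P.length σ a, ?_, fun p => ?_⟩
  · unfold Circuit.size
    show (P ++ _).length = _
    rw [List.length_append, h1, List.length_map, Finset.card_univ]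
    ring
  · have hs : ∀ v l, wireK p (valsK p P [] ++ l) (σ v) = wireK p (valsK p P []) (σ v) := by
      intro v l
      simp only [hσ]
      cases τ v with
      | inl u =>
        simp only [wireK]
        rw [List.getD_append _ _ _ _ (by rw [valsK_length']; exact (h2 u (Finset.mem_univ _)).1)]
      | inr w => rfl
    have hlen : (valsK p P []).length = P.length := valsK_length' p P
    unfold kleene
    rw [valsK_append]
    have h3 := valsK_sub p (valsK p P []) [] σ hs C
    rw [hlen, List.append_nil] at h3
    rw [h3]
    have h4 := wireK_sub p (valsK p P []) (valsK (fun v => wireK p (valsK p P []) (σ v)) C []) σ hs a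
    rw [hlen] at h4
    rw [h4]
    have h5 : (fun v => wireK p (valsK p P []) (σ v)) = fun v => match τ v with
        | .inl u => kAnd (kAnd (p (F u)) (p (G u))) (p (H u))
        | .inr w => p w := by
      funext v
      simp only [hσ]
      cases τ v with
      | inl u => exact (h2 u (Finset.mem_univ _)).2 p
      | inr w => rfl
    rw [h5]

end

lemma mem_ends_left {N : ℕ} {U : Finset (Edge N)} {v : Edge N} (h : v ∈ U) : v.1.1 ∈ ends U := by
  unfold ends
  exact Finset.mem_filter.2 ⟨Finset.mem_univ _, _, h, Or.inl rfl⟩

lemma mem_ends_right {N : ℕ} {U : Finset (Edge N)} {v : Edge N} (h : v ∈ U) : v.1.2 ∈ ends U := by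
  unfold ends
  exact Finset.mem_filter.2 ⟨Finset.mem_univ _, _, h, Or.inr rfl⟩

/-- The graph `x` without the edges in `U` which leave the set `T` of endpoints. -/
def keep {N : ℕ} (U : Finset (Edge N)) (x : Edge N → Bool) (T : {v // v ∈ ends U} → Bool)
    (v : Edge N) : Bool :=
  if h : v ∈ U then (T ⟨v.1.1, mem_ends_left h⟩ && T ⟨v.1.2, mem_ends_right h⟩) && x v else x v

lemma keep_le {N : ℕ} (U : Finset (Edge N)) (x : Edge N → Bool) (T : {v // v ∈ ends U} → Bool)
    (v : Edge N) (h : keep U x T v = true) : x v = true := by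
  unfold keep at h
  split at h
  · exact (Bool.and_eq_true _ _ ▸ h : _ ∧ _).2
  · exact h

lemma clique_of_keep {N K : ℕ} (U : Finset (Edge N)) (x : Edge N → Bool)
    (T : {v // v ∈ ends U} → Bool) (h : HasClique K (keep U x T)) : HasClique K x := by
  obtain ⟨S, hS, hSx⟩ := h
  exact ⟨S, hS, fun i hi j hj hij => keep_le U x T _ (hSx i hi j hj hij)⟩

/-- A clique survives if `T` is its set of endpoints of `U`; then no missing edge in `U` is seen. -/
lemma exists_keep {N K : ℕ} (U : Finset (Edge N)) (x : Edge N → Bool) (h : HasClique K x) :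
    ∃ T : {v // v ∈ ends U} → Bool, HasClique K (keep U x T) ∧
      ∀ v (hv : v ∈ U), kAnd (some (T ⟨v.1.1, mem_ends_left hv⟩ && T ⟨v.1.2, mem_ends_right hv⟩))
        (hide U ∅ x v) = some (keep U x T v) := by
  classical
  obtain ⟨S, hS, hSx⟩ := h
  refine ⟨fun i => decide (i.1 ∈ S), ⟨S, hS, fun i hi j hj hij => ?_⟩, fun v hv => ?_⟩
  · unfold keep
    split
    · simp only [Bool.and_eq_true, decide_eq_true_eq]
      exact ⟨⟨hi, hj⟩, hSx i hi j hj hij⟩
    · exact hSx i hi j hj hij
  · unfold keep
    rw [dif_pos hv]
    beta_reduce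
    by_cases h1 : v.1.1 ∈ S
    · by_cases h2 : v.1.2 ∈ S
      · have h3 := hSx v.1.1 h1 v.1.2 h2 v.2
        have h3' : x v = true := h3
        unfold hide
        rw [h3']
        simp [h1, h2, kAnd]
      · simp [h2, kAnd]
    · simp [h1, kAnd]

/-- **Nondeterministic circuits for clique which see no missing edge in `U`**, a set of edges with
`e` endpoints: `e` more guess bits, `2 |U|` more gates, the number of accepting guesses grows by the
factor `2 ^ e`. -/
theorem clique_blind_ndet {N : ℕ} (K : ℕ) (U : Finset (Edge N)) {Γ : Type} [Fintype Γ] {A : ℕ}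
    (C : Circuit (Edge N ⊕ Γ)) (a : Wire (Edge N ⊕ Γ))
    (hC : ∀ x, HasClique K x ↔ ∃ y : Γ → Bool, C.val (Sum.elim x y) a = true)
    (hA : ∀ x, {y : Γ → Bool | C.val (Sum.elim x y) a = true}.ncard ≤ A) :
    ∃ (D : Circuit (Edge N ⊕ (Γ ⊕ {v // v ∈ ends U})))
      (b : Wire (Edge N ⊕ (Γ ⊕ {v // v ∈ ends U}))),
      D.size = C.size + 2 * U.card ∧
      (∀ x, HasClique K x ↔ ∃ z : Γ ⊕ {v // v ∈ ends U} → Bool, D.val (Sum.elim x z) b = true) ∧
      (∀ x, {z : Γ ⊕ {v // v ∈ ends U} → Bool | D.val (Sum.elim x z) b = true}.ncard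
        ≤ 2 ^ (ends U).card * A) ∧
      ∀ x, HasClique K x → ∃ z : Γ ⊕ {v // v ∈ ends U} → Bool,
        kleene D (Sum.elim (hide U ∅ x) fun g => some (z g)) b = some true := by
  classical
  obtain ⟨D, b, h1, h2⟩ := exists_feed (W := Edge N ⊕ (Γ ⊕ {v // v ∈ ends U}))
    (fun u : {v // v ∈ U} => .inr (.inr ⟨u.1.1.1, mem_ends_left u.2⟩))
    (fun u => .inr (.inr ⟨u.1.1.2, mem_ends_right u.2⟩)) (fun u => .inl u.1)
    (fun w : Edge N ⊕ Γ => match w with
      | .inl v => if h : v ∈ U then .inl ⟨v, h⟩ else .inr (.inl v)
      | .inr g => .inr (.inr (.inl g))) C a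
  have key : ∀ (q : Edge N → Option Bool) (z : Γ ⊕ {v // v ∈ ends U} → Bool) (r : Edge N → Bool),
      (∀ v, v ∉ U → q v = some (r v)) →
      (∀ v (hv : v ∈ U), kAnd (some (z (.inr ⟨v.1.1, mem_ends_left hv⟩)
        && z (.inr ⟨v.1.2, mem_ends_right hv⟩))) (q v) = some (r v)) →
      kleene D (Sum.elim q fun g => some (z g)) b
        = some (C.val (Sum.elim r fun g => z (.inl g)) a) := by
    intro q z r hr1 hr2
    rw [h2, ← kleene_total]
    congr 1
    funext w
    cases w with
    | inl v =>
      by_cases hv : v ∈ U
      · simp only [dif_pos hv, Sum.elim_inl, Sum.elim_inr, kAnd_some]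
        exact hr2 v hv
      · simp only [dif_neg hv, Sum.elim_inl]
        exact hr1 v hv
    | inr g => rfl
  have hval : ∀ (x : Edge N → Bool) (z : Γ ⊕ {v // v ∈ ends U} → Bool),
      D.val (Sum.elim x z) b
        = C.val (Sum.elim (keep U x fun g => z (.inr g)) fun g => z (.inl g)) a := by
    intro x z
    have h3 := kleene_total D (Sum.elim x z) b
    have h4 : (fun w => some (Sum.elim x z w))
        = Sum.elim (fun v => some (x v)) fun g => some (z g) := by
      funext w
      cases w <;> rfl
    rw [h4, key (fun v => some (x v)) z (keep U x fun g => z (.inr g)) (fun v hv => by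
      unfold keep
      rw [dif_neg hv]) (fun v hv => by
      unfold keep
      rw [dif_pos hv, kAnd_some])] at h3
    exact (Option.some.inj h3).symm
  refine ⟨D, b, by rw [h1, Fintype.card_coe], fun x => ⟨fun hx => ?_, ?_⟩, fun x => ?_,
    fun x hx => ?_⟩
  · obtain ⟨T, hT, -⟩ := exists_keep U x hx
    obtain ⟨y, hy⟩ := (hC _).1 hT
    exact ⟨Sum.elim y T, by rw [hval]; exact hy⟩
  · rintro ⟨z, hz⟩
    rw [hval] at hz
    exact clique_of_keep U x _ ((hC _).2 ⟨_, hz⟩)
  · have h4 : {z : Γ ⊕ {v // v ∈ ends U} → Bool | D.val (Sum.elim x z) b = true} ⊆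
        ↑((univ : Finset ({v // v ∈ ends U} → Bool)).biUnion fun T =>
          (univ.filter fun y : Γ → Bool => C.val (Sum.elim (keep U x T) y) a = true).image
            fun y => (Sum.elim y T : Γ ⊕ {v // v ∈ ends U} → Bool)) := by
      intro z hz
      rw [Set.mem_ofPred_eq, hval] at hz
      rw [Finset.mem_coe, Finset.mem_biUnion]
      refine ⟨fun g => z (.inr g), Finset.mem_univ _, Finset.mem_image.2
        ⟨fun g => z (.inl g), Finset.mem_filter.2 ⟨Finset.mem_univ _, hz⟩, ?_⟩⟩
      funext w
      cases w <;> rfl
    refine (Set.ncard_le_ncard h4 (Finset.finite_toSet _)).trans ?_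
    rw [Set.ncard_coe_finset]
    refine (Finset.card_biUnion_le_card_mul _ _ A fun T _ => Finset.card_image_le.trans ?_).trans ?_
    · have h5 := hA (keep U x T)
      rw [Set.ncard_eq_toFinset_card'] at h5
      refine le_trans (le_of_eq ?_) h5
      congr 1
      ext y
      simp
    · rw [Finset.card_univ, Fintype.card_fun, Fintype.card_coe, Fintype.card_bool]
  · obtain ⟨T, hT, hT2⟩ := exists_keep U x hx
    obtain ⟨y, hy⟩ := (hC _).1 hT
    refine ⟨Sum.elim y T, ?_⟩
    rw [key (hide U ∅ x) (Sum.elim y T) (keep U x T) (fun v hv => ?_) hT2]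
    · exact congrArg some hy
    · unfold hide keep
      rw [dif_neg hv, if_neg fun h => hv h.1]

open Classical in
/-- The edges of `U` which leave the set of vertices `T` get the value `0`. -/
noncomputable def cutoff0 {N : ℕ} (U : Finset (Edge N)) (T : Finset (Fin N)) (v : Edge N) :
    Option Bool :=
  if v ∈ U ∧ v ∉ inside U T then some false else none

/-- **A circuit for clique which sees no missing edge in `U`**, a set of edges with `e` endpoints,
with at most `2 ^ e (S + 1)` gates. -/
theorem clique_blind_one {N : ℕ} (K : ℕ) (U : Finset (Edge N)) (C : Circuit (Edge N))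
    (a : Wire (Edge N)) (hC : ∀ x, C.val x a = true ↔ HasClique K x) :
    ∃ (D : Circuit (Edge N)) (b : Wire (Edge N)),
      D.size ≤ 2 ^ (ends U).card * (C.size + 1) ∧
      (∀ x, D.val x b = true ↔ HasClique K x) ∧
      ∀ x, HasClique K x → kleene D (hide U ∅ x) b = some true := by
  classical
  set xT : Finset (Fin N) → (Edge N → Bool) → Edge N → Bool := fun T x v =>
    if v ∈ U ∧ v ∉ inside U T then false else x v with hxT
  have hval : ∀ (T : Finset (Fin N)) (x : Edge N → Bool),
      setP (cutoff0 U T) (fun v => some (x v)) = fun v => some (xT T x v) := by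
    intro T x
    funext v
    by_cases hv : v ∈ U ∧ v ∉ inside U T
    · simp only [setP, cutoff0, hxT, if_pos hv]
    · simp only [setP, cutoff0, hxT, if_neg hv]
  obtain ⟨D, b, h1, h2, h3⟩ := exists_or (V := Edge N) (ends U).powerset C.size
    (fun T x => HasClique K (xT T x))
    (fun T p => kleene C (setP (cutoff0 U T) p) a = some true) (fun T _ => by
      refine ⟨List.map (setG (cutoff0 U T)) C, setW (cutoff0 U T) a, ?_, fun x => ?_,
        fun p hp => by rw [kleene_set]; exact hp⟩
      · unfold Circuit.size
        exact (List.length_map _).le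
      · have h4 := kleene_set (cutoff0 U T) (fun v => some (x v)) C a
        rw [hval, kleene_total, kleene_total] at h4
        rw [Option.some.inj h4, hC])
  rw [Finset.card_powerset] at h1
  have key : ∀ x : Edge N → Bool, HasClique K x →
      ∃ T ∈ (ends U).powerset, (∀ v ∈ inside U T, x v = true) ∧ HasClique K (xT T x) := by
    intro x hx
    obtain ⟨S, hS, hSx⟩ := hx
    refine ⟨(ends U).filter fun v => v ∈ S, Finset.mem_powerset.2 (Finset.filter_subset _ _),
      fun v hv => ?_, S, hS, fun i hi j hj hij => ?_⟩
    · obtain ⟨-, hv1, hv2⟩ := Finset.mem_filter.1 hv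
      have h4 := (Finset.mem_filter.1 hv1).2
      have h5 := (Finset.mem_filter.1 hv2).2
      exact hSx v.1.1 h4 v.1.2 h5 v.2
    · have hin : (⟨(i, j), hij⟩ : Edge N) ∈ U →
          (⟨(i, j), hij⟩ : Edge N) ∈ inside U ((ends U).filter fun v => v ∈ S) := fun hv =>
        Finset.mem_filter.2 ⟨hv, Finset.mem_filter.2 ⟨mem_ends_left hv, hi⟩,
          Finset.mem_filter.2 ⟨mem_ends_right hv, hj⟩⟩
      have hneg : ¬ ((⟨(i, j), hij⟩ : Edge N) ∈ U ∧
          (⟨(i, j), hij⟩ : Edge N) ∉ inside U ((ends U).filter fun v => v ∈ S)) :=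
        fun h => h.2 (hin h.1)
      simp only [hxT, if_neg hneg]
      exact hSx i hi j hj hij
  refine ⟨D, b, h1, fun x => ?_, fun x hx => h3 _ ?_⟩
  · rw [h2 x]
    constructor
    · rintro ⟨T, -, S, hS, hSx⟩
      refine ⟨S, hS, fun i hi j hj hij => ?_⟩
      have h4 := hSx i hi j hj hij
      simp only [hxT] at h4
      split at h4
      · exact absurd h4 (by simp)
      · exact h4
    · intro hx
      obtain ⟨T, hT, -, h5⟩ := key x hx
      exact ⟨T, hT, h5⟩
  · obtain ⟨T, hT, h4, h5⟩ := key x hx
    refine ⟨T, hT, ?_⟩
    have h6 : setP (cutoff0 U T) (hide U ∅ x) = fun v => some (xT T x v) := by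
      funext v
      by_cases hv : v ∈ U ∧ v ∉ inside U T
      · simp only [setP, cutoff0, hxT, if_pos hv]
      · simp only [setP, cutoff0, hxT, if_neg hv]
        unfold hide
        by_cases hvU : v ∈ U
        · have h7 := h4 v (by_contra fun h => hv ⟨hvU, h⟩)
          rw [h7, if_neg (by simp)]
        · rw [if_neg fun h => hvU h.1]
    rw [h6, kleene_total, (hC _).2 h5]

end Pool.Agent.GB24.Loc
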