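import Pool.Agent.GB24.HiddenUDefs
import Pool.Agent.GB24.Avg
import Pool.Agent.NWE.SetM

/-!
# Devices which see few zeros of a set of variables: the general theorem
-/

namespace Pool.Agent.GB24.Loc

open Finset Pool.Agent.NegLim Pool.Agent.NTR Pool.Agent.NTR.Gen Pool.Agent.NWE Pool.Agent.GB24

lemma known_some {ι : Type} (x : ι → Bool) :
    known (fun v => some (x v)) = Sum.elim x fun v => !x v := by
  funext s
  rcases s with v | v
  · simp only [known, Sum.elim_inl]
    cases x v <;> rfl
  · simp only [known, Sum.elim_inr]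
    cases x v <;> rfl

lemma known_hide {ι : Type} [DecidableEq ι] (U Z : Finset ι) (x : ι → Bool)
    (hZ : ∀ v ∈ Z, x v = false) :
    known (hide U Z x) = Sum.elim x fun v => if v ∈ U then decide (v ∈ Z) else !x v := by
  funext s
  rcases s with v | v
  · simp only [known, Sum.elim_inl, hide]
    cases hx : x v
    · split_ifs <;> simp
    · simp
  · simp only [known, Sum.elim_inr, hide]
    by_cases hU : v ∈ U
    · rw [if_pos hU]
      by_cases hvZ : v ∈ Z
      · simp [hU, hvZ, hZ v hvZ]
      · cases hx : x v <;> simp [hU, hvZ]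
    · rw [if_neg hU]
      cases hx : x v <;> simp [hU]

/-- **The greedy covering of a set of ones gets stuck.** -/
theorem exists_hard_subset (K : MonoClass) {β : Type} [Fintype β] [Nonempty β] {q : ℕ}
    (g : (β → Bool) → Bool) (A : Finset (β → Bool)) (hA : ∀ u ∈ A, g u = true)
    (h : ¬ ∃ Gs : List ((β → Bool) → Bool), Gs.length ≤ Fintype.card β * q ∧
      (∀ G ∈ Gs, K.mem β G ∧ ∀ u, G u = true → g u = true) ∧ ∀ u ∈ A, ∃ G ∈ Gs, G u = true) :
    ∃ S : Finset (β → Bool), S.Nonempty ∧ S ⊆ A ∧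
      ∀ G, K.mem β G → (∀ u, G u = true → g u = true) →
        q * (S.filter fun u => G u = true).card ≤ S.card := by
  classical
  by_contra hcon
  push Not at hcon
  apply h
  rcases Nat.eq_zero_or_pos q with h0 | hq
  · subst h0
    refine ⟨[], by simp, by simp, fun u hu => ?_⟩
    obtain ⟨G, -, -, hG⟩ := hcon {u} (singleton_nonempty u) (by simpa using hu)
    omega
  · have step : ∀ m : ℕ, ∃ Gs : List ((β → Bool) → Bool), Gs.length ≤ m ∧
        (∀ G ∈ Gs, K.mem β G ∧ ∀ u, G u = true → g u = true) ∧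
        q ^ m * (A.filter fun u => ∀ G ∈ Gs, ¬ G u = true).card ≤
          (q - 1) ^ m * 2 ^ Fintype.card β := by
      intro m
      induction m with
      | zero =>
        refine ⟨[], le_rfl, by simp, ?_⟩
        rw [pow_zero, pow_zero, one_mul, one_mul]
        refine (Finset.card_le_univ _).trans ?_
        rw [Fintype.card_fun, Fintype.card_bool]
      | succ m ih =>
        obtain ⟨Gs, h1, h2, h3⟩ := ih
        set S := A.filter fun u => ∀ G ∈ Gs, ¬ G u = true with hS
        rcases S.eq_empty_or_nonempty with h0 | h0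
        · refine ⟨Gs, by omega, h2, ?_⟩
          rw [← hS, h0]
          simp
        · obtain ⟨G, hK, hle, hG⟩ := hcon S h0 fun u hu => (Finset.mem_filter.1 hu).1
          refine ⟨G :: Gs, by simpa using h1, ?_, ?_⟩
          · intro G' hG'
            rcases List.mem_cons.1 hG' with rfl | hG'
            · exact ⟨hK, hle⟩
            · exact h2 G' hG'
          · have e1 : (A.filter fun u => ∀ G' ∈ G :: Gs, ¬ G' u = true) =
                S.filter fun u => ¬ G u = true := by
              ext u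
              simp only [hS, Finset.mem_filter, List.mem_cons, forall_eq_or_imp]
              tauto
            have e2 := Finset.card_filter_add_card_filter_not (s := S) (fun u => G u = true)
            rw [e1]
            have e3 : q * (S.filter fun u => ¬ G u = true).card ≤ (q - 1) * S.card := by
              obtain ⟨k, rfl⟩ : ∃ k, q = k + 1 := ⟨q - 1, by omega⟩
              rw [Nat.add_sub_cancel]
              nlinarith
            calc q ^ (m + 1) * (S.filter fun u => ¬ G u = true).card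
                = q ^ m * (q * (S.filter fun u => ¬ G u = true).card) := by ring
              _ ≤ q ^ m * ((q - 1) * S.card) := Nat.mul_le_mul_left _ e3
              _ = (q - 1) * (q ^ m * S.card) := by ring
              _ ≤ (q - 1) * ((q - 1) ^ m * 2 ^ Fintype.card β) := Nat.mul_le_mul_left _ h3
              _ = (q - 1) ^ (m + 1) * 2 ^ Fintype.card β := by ring
    obtain ⟨Gs, h1, h2, h3⟩ := step (Fintype.card β * q)
    refine ⟨Gs, h1, h2, fun u hu => ?_⟩
    have hb : 0 < Fintype.card β := Fintype.card_pos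
    have h4 : (q - 1) ^ (Fintype.card β * q) * 2 ^ Fintype.card β
        < q ^ (Fintype.card β * q) := by
      rw [mul_comm (Fintype.card β) q, pow_mul, pow_mul, ← mul_pow]
      refine Nat.pow_lt_pow_left ?_ hb.ne'
      rw [mul_comm]
      exact two_mul_pow_lt hq
    by_contra hno
    push Not at hno
    have h5 : 1 ≤ (A.filter fun u => ∀ G ∈ Gs, ¬ G u = true).card :=
      Finset.card_pos.2 ⟨u, Finset.mem_filter.2 ⟨hu, hno⟩⟩
    have h6 : q ^ (Fintype.card β * q) ≤ (q - 1) ^ (Fintype.card β * q) * 2 ^ Fintype.card β :=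
      calc q ^ (Fintype.card β * q) = q ^ (Fintype.card β * q) * 1 := (mul_one _).symm
        _ ≤ _ := Nat.mul_le_mul_left _ h5
        _ ≤ _ := h3
    exact absurd (h6.trans_lt h4) (lt_irrefl _)

/-- A hard set of minimal ones. -/
theorem exists_hard_minimal (K : MonoClass) {β : Type} [Fintype β] [Nonempty β] {q : ℕ}
    (g : (β → Bool) → Bool) (hg : Monotone g)
    (h : ¬ ∃ Gs : List ((β → Bool) → Bool), Gs.length ≤ Fintype.card β * q ∧
      (∀ G ∈ Gs, K.mem β G) ∧ ∀ u, g u = true ↔ ∃ G ∈ Gs, G u = true) :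
    ∃ S : Finset (β → Bool), S.Nonempty ∧ (∀ u ∈ S, g u = true) ∧
      (∀ u ∈ S, ∀ u', (∀ b, u' b = true → u b = true) → g u' = true → u' = u) ∧
      ∀ G, K.mem β G → (∀ u, G u = true → g u = true) →
        q * (S.filter fun u => G u = true).card ≤ S.card := by
  classical
  set A : Finset (β → Bool) := univ.filter fun u => Minimal (fun v => g v = true) u with hAdef
  have hA : ∀ u ∈ A, g u = true := fun u hu => (Finset.mem_filter.1 hu).2.1
  obtain ⟨S, h1, h2, h3⟩ := exists_hard_subset (q := q) K g A hA (by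
    rintro ⟨Gs, h1, h2, h3⟩
    refine h ⟨Gs, h1, fun G hG => (h2 G hG).1, fun u => ⟨fun hu => ?_, ?_⟩⟩
    · obtain ⟨v, hvu, hv⟩ := exists_minimal_le_of_wellFoundedLT (fun v => g v = true) u hu
      obtain ⟨G, hG, hGv⟩ := h3 v (Finset.mem_filter.2 ⟨Finset.mem_univ v, hv⟩)
      exact ⟨G, hG, Bool.le_iff_imp.mp (K.mono _ G (h2 G hG).1 hvu) hGv⟩
    · rintro ⟨G, hG, hGu⟩
      exact (h2 G hG).2 u hGu)
  refine ⟨S, h1, fun u hu => hA u (h2 hu), fun u hu u' hle hu' => ?_, h3⟩
  have h4 := (Finset.mem_filter.1 (h2 hu)).2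
  have h5 : u' ≤ u := fun b => Bool.le_iff_imp.mpr (hle b)
  exact le_antisymm h5 (h4.2 hu' h5)

lemma powSet_eq_tup {β : Type} [Fintype β] [DecidableEq β] (r : ℕ) (S : Finset (β → Bool)) :
    powSet r S = tup S r := by
  ext x
  rw [mem_powSet, mem_tup]

/-- **Hard inputs.** Suppose that `φ`, constant outside `U`, turns `f` into the conjunction of `r`
copies of the monotone function `g` of `b` variables, and that `g` is not a disjunction of `b q`
functions of the class `K`. -/
theorem hard_inputs (K : MonoClass) {ι β : Type} [DecidableEq ι] [Fintype β] [Nonempty β]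
    {r q : ℕ} (g : (β → Bool) → Bool) (hg : Monotone g) (U : Finset ι)
    (φ : ι → (Fin r × β) ⊕ Bool) (hU : ∀ v, v ∉ U → ∃ c, φ v = Sum.inr c) (f : (ι → Bool) → Prop)
    (hφ : ∀ x : Fin r × β → Bool, f (fun e => Sum.elim x id (φ e)) ↔
      ∀ i, g (fun j => x (i, j)) = true)
    (hno : ¬ ∃ Gs : List ((β → Bool) → Bool), Gs.length ≤ Fintype.card β * q ∧
      (∀ G ∈ Gs, K.mem β G) ∧ ∀ u, g u = true ↔ ∃ G ∈ Gs, G u = true) :
    ∃ (ρ : ι → Bool) (M : Finset (ι → Bool)), M.Nonempty ∧
      (∀ x ∈ M, f x ∧ ∀ v, v ∉ U → x v = ρ v) ∧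
      ∀ (Y : Type) [Fintype Y] (w : ℕ) (F : Y → (ι ⊕ ι → Bool) → Bool), (∀ y, K.mem _ (F y)) →
        (∀ y x, (∀ v, v ∉ U → x v = ρ v) → F y (Sum.elim x fun i => !x i) = true → f x) →
        q ^ r * {x | x ∈ M ∧ ∃ (y : Y) (Z : Finset ι), Z ⊆ U ∧ Z.card ≤ w ∧
          (∀ v ∈ Z, x v = false) ∧
          F y (Sum.elim x fun v => if v ∈ U then decide (v ∈ Z) else !x v) = true}.ncard ≤
          Fintype.card Y * (r * Fintype.card β + 1) ^ w * M.card := by
  classical
  obtain ⟨S, hS1, hS2, hSm, hS3⟩ := exists_hard_minimal (q := q) K g hg hno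
  have hinj : Set.InjOn (fun (x : Fin r × β → Bool) (e : ι) => (Sum.elim x id (φ e) : Bool))
      (powSet r S : Set (Fin r × β → Bool)) := by
    rw [powSet_eq_tup]
    refine subst_injOn g S hS2 hSm (fun x => decide (f x)) φ fun y => ?_
    rw [decide_eq_true_eq, hφ]
  have hρ : ∀ (x : Fin r × β → Bool) (v : ι), v ∉ U →
      (Sum.elim x id (φ v) : Bool) = Sum.elim (fun _ => false) id (φ v) := by
    intro x v hv
    obtain ⟨c, hc⟩ := hU v hv
    rw [hc]
    rfl
  refine ⟨fun v => Sum.elim (fun _ => false) id (φ v),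
    (powSet r S).image fun (x : Fin r × β → Bool) (e : ι) => (Sum.elim x id (φ e) : Bool),
    ?_, ?_, ?_⟩
  · rw [Finset.image_nonempty, ← Finset.card_pos, card_powSet]
    exact pow_pos (Finset.card_pos.2 hS1) r
  · intro x hx
    obtain ⟨x₀, hx₀, rfl⟩ := Finset.mem_image.1 hx
    exact ⟨(hφ x₀).2 fun i => hS2 _ (mem_powSet.1 hx₀ i), fun v hv => hρ x₀ v hv⟩
  · intro Y _ w F hF hs
    obtain ⟨J, _, C, hJ, hC, hle, hacc⟩ := acc_family K
      (fun y x => F y fun s => Sum.elim x id (litMap φ s))
      (fun y => K.subst _ _ (F y) (litMap φ) (hF y))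
      (fun x => ∀ i, g (fun j => x (i, j)) = true)
      (fun x y hxy h i => Bool.le_iff_imp.mp (hg fun b => hxy (i, b)) (h i))
      (fun y x hy => by
        change F y (fun s => Sum.elim (Sum.elim x fun k => !x k) id (litMap φ s)) = true at hy
        rw [litMap_not] at hy
        exact (hφ x).1 (hs y _ (fun v hv => hρ x v hv) hy)) w
    set T : Set (ι → Bool) := {x | x ∈ (powSet r S).image
        (fun (x : Fin r × β → Bool) (e : ι) => (Sum.elim x id (φ e) : Bool)) ∧
        ∃ (y : Y) (Z : Finset ι), Z ⊆ U ∧ Z.card ≤ w ∧ (∀ v ∈ Z, x v = false) ∧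
          F y (Sum.elim x fun v => if v ∈ U then decide (v ∈ Z) else !x v) = true} with hT
    have h1 : T.ncard ≤
        (univ.biUnion fun j : J => (powSet r S).filter fun x => C j x = true).card := by
      rw [← Set.ncard_coe_finset]
      refine le_trans (Set.ncard_le_ncard (t := (fun (x : Fin r × β → Bool) (e : ι) =>
        (Sum.elim x id (φ e) : Bool)) '' ((univ.biUnion fun j : J =>
          (powSet r S).filter fun x => C j x = true : Finset (Fin r × β → Bool)) :
          Set (Fin r × β → Bool))) ?_ (Set.toFinite _)) (Set.ncard_image_le (Set.toFinite _))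
      rintro x ⟨hx, y, Z, hZU, hZ, h0, hy⟩
      obtain ⟨x₀, hx₀, rfl⟩ := Finset.mem_image.1 hx
      obtain ⟨Z', h1, h2, h3⟩ := restrict_core K (hF y) φ x₀ Z
        (fun v => if v ∈ U then decide (v ∈ Z) else !(Sum.elim x₀ id (φ v) : Bool))
        (fun v h => by
          by_cases hv : v ∈ U
          · rw [if_pos hv] at h
            exact Or.inl (of_decide_eq_true h)
          · exact Or.inr (hU v hv))
        (fun v h => by
          by_cases hv : v ∈ U
          · rw [if_pos hv] at h
            exact h0 v (of_decide_eq_true h)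
          · rw [if_neg hv] at h
            simpa using h) hy
      obtain ⟨j, hj⟩ := hacc x₀ ⟨y, Z', h1.trans hZ, h2, h3⟩
      exact ⟨x₀, by
        rw [Finset.mem_coe, Finset.mem_biUnion]
        exact ⟨j, Finset.mem_univ j, Finset.mem_filter.2 ⟨hx₀, hj⟩⟩, rfl⟩
    rw [Finset.card_image_of_injOn hinj]
    calc q ^ r * T.ncard
        ≤ q ^ r * (univ.biUnion fun j : J => (powSet r S).filter fun x => C j x = true).card :=
          Nat.mul_le_mul_left _ h1
      _ ≤ q ^ r * ∑ j : J, ((powSet r S).filter fun x => C j x = true).card :=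
          Nat.mul_le_mul_left _ Finset.card_biUnion_le
      _ = ∑ j : J, q ^ r * ((powSet r S).filter fun x => C j x = true).card := Finset.mul_sum _ _ _
      _ ≤ ∑ _j : J, (powSet r S).card :=
          Finset.sum_le_sum fun j _ => pow_bound K g hS3 (C j) (hC j) (hle j)
      _ = Fintype.card J * (powSet r S).card := by
          rw [Finset.sum_const, Finset.card_univ, smul_eq_mul]
      _ ≤ Fintype.card Y * (r * Fintype.card β + 1) ^ w * (powSet r S).card := by
          refine Nat.mul_le_mul_right _ (hJ.trans (le_of_eq ?_))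
          rw [Fintype.card_prod, Fintype.card_fin]

/-- Devices on partly hidden inputs. -/
theorem hardSet_general (K : MonoClass) {ι β : Type} [DecidableEq ι] [Fintype β] [Nonempty β]
    {r q n : ℕ} (g : (β → Bool) → Prop) (hg : ∀ u v : β → Bool, u ≤ v → g u → g v)
    (hK : ∀ Gs : List ((β → Bool) → Bool), Gs.length ≤ Fintype.card β * q →
      (∀ G ∈ Gs, K.mem _ G) → (∀ u, g u ↔ ∃ G ∈ Gs, G u = true) → False)
    (f : (ι → Bool) → Prop) (U : Finset ι)
    (hφ : ∃ φ : ι → (Fin r × β) ⊕ Bool, (∀ v, v ∉ U → ∃ c, φ v = Sum.inr c) ∧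
      ∀ x : Fin r × β → Bool, f (fun e => Sum.elim x id (φ e)) ↔ ∀ k, g fun e => x (k, e))
    (hn : r * Fintype.card β + 1 ≤ n) (K' : ((ι → Option Bool) → Bool) → Prop)
    (hK' : ∀ D, K' D → ∃ F, K.mem _ F ∧ ∀ p, D p = F (known p)) :
    HardSet f U K' n (q ^ r) := by
  classical
  obtain ⟨φ, hU, hφ⟩ := hφ
  obtain ⟨ρ, M, h1, h2, h3⟩ := hard_inputs K (r := r) (q := q) (fun u => decide (g u)) (by
      intro u v huv
      rw [Bool.le_iff_imp]
      simp only [decide_eq_true_eq]
      exact hg u v huv) U φ hU f (fun x => by rw [hφ]; simp) (by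
      rintro ⟨Gs, h1, h2, h3⟩
      exact hK Gs h1 h2 fun u => by
        rw [← h3 u]
        simp)
  refine ⟨ρ, M, h1, h2, fun Y _ w D hD hs => ?_⟩
  choose F hF hDF using fun y => hK' (D y) (hD y)
  have h4 : {x | x ∈ M ∧ AccSees U w D x} = {x | x ∈ M ∧ ∃ (y : Y) (Z : Finset ι), Z ⊆ U ∧
      Z.card ≤ w ∧ (∀ v ∈ Z, x v = false) ∧
      F y (Sum.elim x fun v => if v ∈ U then decide (v ∈ Z) else !x v) = true} := by
    ext x
    refine and_congr_right fun _ => ?_
    unfold AccSees
    refine exists_congr fun y => exists_congr fun Z => and_congr_right fun _ =>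
      and_congr_right fun _ => and_congr_right fun hZ => ?_
    rw [hDF, known_hide U Z x hZ]
  rw [h4]
  refine (h3 Y w F hF fun y x hx hy => hs y x hx ?_).trans ?_
  · rw [hDF, known_some]
    exact hy
  · gcongr

/-- The general theorem for functions of the class `K` of the known literals. -/
theorem hardSet_copies (K : MonoClass) {ι β : Type} [DecidableEq ι] [Fintype β] [Nonempty β]
    (r q : ℕ) (g : (β → Bool) → Bool) (hg : Monotone g) (f : (ι → Bool) → Prop) (U : Finset ι)
    (φ : ι → (Fin r × β) ⊕ Bool) (hU : ∀ v, v ∉ U → ∃ c, φ v = Sum.inr c)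
    (hφ : ∀ x : Fin r × β → Bool, f (fun e => Sum.elim x id (φ e)) ↔
      ∀ i, g (fun b => x (i, b)) = true)
    (hno : ¬ ∃ Gs : List ((β → Bool) → Bool), Gs.length ≤ Fintype.card β * q ∧
      (∀ G ∈ Gs, K.mem β G) ∧ ∀ u, g u = true ↔ ∃ G ∈ Gs, G u = true) :
    HardSet f U (fun D => ∃ F, K.mem _ F ∧ ∀ p, D p = F (known p))
      (r * Fintype.card β + 1) (q ^ r) :=
  hardSet_general K (fun u => g u = true) (fun _ _ huv hu => Bool.le_iff_imp.mp (hg huv) hu)
    (fun Gs h1 h2 h3 => hno ⟨Gs, h1, h2, h3⟩) f U ⟨φ, hU, hφ⟩ le_rfl _ fun _ h => h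

end Pool.Agent.GB24.Loc
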