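import Pool.Agent.GB24.HiddenUInst

/-!
# Polynomial size: zeros in every set of polylogarithmically many disjoint triples
-/

namespace Pool.Agent.GB24.Loc

open Finset Pool.Agent.NegLim Pool.Agent.NTR Pool.Agent.NTR.Gen Pool.Agent.NWE Pool.Agent.GB24
  Pool.Agent.TeleNeg Pool.Agent.PMB Pool.Agent.NTN

lemma eventually_pow4 (A : ℕ) : ∃ l₀, ∀ l ≥ l₀, A * (l + 1) ^ 4 ≤ 2 ^ l := by
  have h1 := (tendsto_pow_const_div_const_pow_of_one_lt 4 (r := (2 : ℝ)) (by norm_num))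
  have h2 : ∀ᶠ n : ℕ in Filter.atTop, (n : ℝ) ^ 4 / 2 ^ n ≤ 1 / (16 * A + 1) :=
    h1.eventually_le_const (by positivity)
  obtain ⟨l₁, hl₁⟩ := Filter.eventually_atTop.1 h2
  refine ⟨max l₁ 1, fun l hl => ?_⟩
  have h3 := hl₁ l ((le_max_left _ _).trans hl)
  have h4 : 1 ≤ l := (le_max_right _ _).trans hl
  have h5 : (0 : ℝ) < 2 ^ l := by positivity
  have h6 : (0 : ℝ) < 16 * A + 1 := by positivity
  rw [div_le_div_iff₀ h5 h6, one_mul] at h3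
  have h7 : (l + 1) ^ 4 ≤ 16 * l ^ 4 := by
    calc (l + 1) ^ 4 ≤ (2 * l) ^ 4 := Nat.pow_le_pow_left (by omega) 4
      _ = 16 * l ^ 4 := by ring
  have h8 : l ^ 4 * (16 * A + 1) ≤ 2 ^ l := by exact_mod_cast h3
  calc A * (l + 1) ^ 4 ≤ A * (16 * l ^ 4) := Nat.mul_le_mul_left _ h7
    _ ≤ l ^ 4 * (16 * A + 1) := by nlinarith [Nat.zero_le (l ^ 4)]
    _ ≤ 2 ^ l := h8

lemma small_aux (B : ℕ) {c : ℕ} (hc : 1 ≤ c) : ∃ L₀, 1 ≤ L₀ ∧ ∀ L ≥ L₀,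
    B * (c * (L + 1)) ^ 10 * (Nat.log 2 (c * (L + 1)) + 1) ^ 4 ≤ L ^ 11 := by
  obtain ⟨l₀, hl₀⟩ := eventually_pow4 (2048 * B * c ^ 11)
  refine ⟨2 ^ l₀, Nat.one_le_two_pow, fun L hL => ?_⟩
  have hL1 : 1 ≤ L := Nat.one_le_two_pow.trans hL
  set t := c * (L + 1) with ht
  have ht0 : t ≠ 0 := by positivity
  have h1 : l₀ ≤ Nat.log 2 t := by
    refine (Nat.le_log_iff_pow_le (by norm_num) ht0).2 ?_
    calc 2 ^ l₀ ≤ L := hL
      _ ≤ c * (L + 1) := by nlinarith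
  have h2 := hl₀ _ h1
  have h3 : 2 ^ Nat.log 2 t ≤ t := Nat.pow_log_le_self 2 ht0
  have h4 : t ≤ 2 * c * L := by
    rw [ht]
    nlinarith
  have h5 : 2048 * B * c ^ 11 * (Nat.log 2 t + 1) ^ 4 ≤ 2 * c * L := (h2.trans h3).trans h4
  have h6 : 1024 * B * c ^ 10 * (Nat.log 2 t + 1) ^ 4 ≤ L := by
    have h7 : 2 * c * (1024 * B * c ^ 10 * (Nat.log 2 t + 1) ^ 4) ≤ 2 * c * L := by
      calc 2 * c * (1024 * B * c ^ 10 * (Nat.log 2 t + 1) ^ 4)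
          = 2048 * B * c ^ 11 * (Nat.log 2 t + 1) ^ 4 := by ring
        _ ≤ 2 * c * L := h5
    exact Nat.le_of_mul_le_mul_left h7 (by positivity)
  calc B * t ^ 10 * (Nat.log 2 t + 1) ^ 4
      ≤ B * (2 * c * L) ^ 10 * (Nat.log 2 t + 1) ^ 4 :=
        Nat.mul_le_mul_right _ (Nat.mul_le_mul_left _ (Nat.pow_le_pow_left h4 10))
    _ = 1024 * B * c ^ 10 * (Nat.log 2 t + 1) ^ 4 * L ^ 10 := by ring
    _ ≤ L * L ^ 10 := Nat.mul_le_mul_right _ h6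
    _ = L ^ 11 := by ring

lemma csz_small {c : ℕ} (hc : 1 ≤ c) : ∃ L₀, 1 ≤ L₀ ∧ ∀ L ≥ L₀, csz (c * (L + 1)) ≤ L ^ 11 :=
  small_aux (2 ^ 302) hc

/-- **Polynomial size circuits for 3-dimensional matching.** -/
theorem tdm_poly (c : ℕ) : ∃ m₀ : ℕ, ∀ m ≥ m₀, ∀ U : Finset (Fin m × Fin m × Fin m),
    DisjointTriples (Nat.log 2 m ^ 11) U →
    ∃ (ρ : Fin m × Fin m × Fin m → Bool) (M : Finset (Fin m × Fin m × Fin m → Bool)),
      M.Nonempty ∧ (∀ x ∈ M, Has3DM x ∧ ∀ v, v ∉ U → x v = ρ v) ∧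
      ∀ (C : Circuit (Fin m × Fin m × Fin m)) (o : Wire (Fin m × Fin m × Fin m)),
        C.size ≤ m ^ c → (∀ x, (∀ v, v ∉ U → x v = ρ v) → C.val x o = true → Has3DM x) →
        m ^ c * {x | x ∈ M ∧ kleene C (hide U ∅ x) o = some true}.ncard ≤ M.card := by
  obtain ⟨L₀, hL₀1, hL₀⟩ := csz_small (c := c + 1) (by omega)
  refine ⟨2 ^ L₀, fun m hm U hU => ?_⟩
  have hm0 : m ≠ 0 := by
    have : 0 < 2 ^ L₀ := by positivity
    omega
  set L := Nat.log 2 m with hL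
  have h1 : L₀ ≤ L := (Nat.le_log_iff_pow_le (by norm_num) hm0).2 hm
  set s := (c + 1) * (L + 1) with hs
  have hs1 : 1 ≤ s := by
    rw [hs]
    exact Nat.one_le_iff_ne_zero.2 (by positivity)
  have hms : m ^ c ≤ 2 ^ s := by
    have h2 : m ≤ 2 ^ (L + 1) := (Nat.lt_pow_succ_log_self (by norm_num) m).le
    calc m ^ c ≤ (2 ^ (L + 1)) ^ c := Nat.pow_le_pow_left h2 c
      _ = 2 ^ ((L + 1) * c) := (pow_mul 2 _ _).symm
      _ ≤ 2 ^ s := Nat.pow_le_pow_right (by norm_num) (by rw [hs]; nlinarith)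
  obtain ⟨ρ, M, h2, h3, h4⟩ := (tdm_hidden hs1 U hU).1
  refine ⟨ρ, M, h2, h3, fun C o hC hsound => ?_⟩
  have h5 := h4 Unit 0 (fun _ p => kleene C p o == some true)
    (fun _ => ⟨C, o, hC.trans hms, fun _ => rfl⟩) (by
      intro _ x hx hy
      have h6 : kleene C (fun v => some (x v)) o = some true := by simpa using hy
      rw [kleene_total] at h6
      exact hsound x hx (Option.some.inj h6))
  have h6 : {x | x ∈ M ∧ AccSees U 0 (fun (_ : Unit) p => kleene C p o == some true) x} =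
      {x | x ∈ M ∧ kleene C (hide U ∅ x) o = some true} := by
    ext x
    refine and_congr_right fun _ => ⟨?_, fun h => ⟨(), ∅, by simp, by simp, by simp, by simpa using h⟩⟩
    rintro ⟨y, Z, -, hZ, -, hy⟩
    rw [Finset.card_eq_zero.1 (Nat.le_zero.1 hZ)] at hy
    simpa using hy
  rw [h6, pow_zero, mul_one, Fintype.card_unit, one_mul] at h5
  refine le_trans (Nat.mul_le_mul_right _ ?_) h5
  refine hms.trans ?_
  have h7 : 1 ≤ L ^ 11 / csz s := by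
    refine (Nat.le_div_iff_mul_le (by unfold csz; positivity)).2 ?_
    rw [one_mul]
    exact hL₀ L h1
  calc 2 ^ s = (2 ^ s) ^ 1 := (pow_one _).symm
    _ ≤ (2 ^ s) ^ (L ^ 11 / csz s) := Nat.pow_le_pow_right (by positivity) h7

end Pool.Agent.GB24.Loc
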