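import Pool.Agent.GB24.HiddenU
import Pool.Agent.GB24.Hidden0
import Pool.Agent.GB24.HiddenUCor
import Pool.Agent.NTN.CliqueNum
import Pool.Agent.NTN.CliqueRestr
import Pool.Agent.NTR.CliqueBound

/-!
# Clique: missing edges of every large set must be seen
-/

namespace Pool.Agent.GB24.Loc

open Finset Pool.Agent.NegLim Pool.Agent.NTR Pool.Agent.NTR.Gen Pool.Agent.NWE Pool.Agent.GB24
  Pool.Agent.NTN

/-- The trivial case. -/
theorem hardSet_one {ι : Type} [DecidableEq ι] {f : (ι → Bool) → Prop} (U : Finset ι)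
    (K : ((ι → Option Bool) → Bool) → Prop) {n : ℕ} (hn : 1 ≤ n) (x : ι → Bool) (hx : f x) :
    HardSet f U K n 1 := by
  refine ⟨x, {x}, Finset.singleton_nonempty x, fun y hy => ?_, fun Y _ w D _ _ => ?_⟩
  · rw [Finset.mem_singleton] at hy
    subst hy
    exact ⟨hx, fun _ _ => rfl⟩
  · rw [one_mul, Finset.card_singleton, mul_one]
    rcases Nat.eq_zero_or_pos (Fintype.card Y) with h0 | h0
    · have h1 : {y | y ∈ ({x} : Finset (ι → Bool)) ∧ AccSees U w D y} = ∅ := by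
        ext y
        simp only [Set.mem_setOf_eq, Set.mem_empty_iff_false, iff_false]
        rintro ⟨-, z, -⟩
        exact (Fintype.card_eq_zero_iff.1 h0).false z
      rw [h1, Set.ncard_empty]
      exact Nat.zero_le _
    · have h1 : {y | y ∈ ({x} : Finset (ι → Bool)) ∧ AccSees U w D y}.ncard ≤ 1 := by
        refine (Set.ncard_le_ncard (t := {x}) (fun y hy => ?_) (Set.finite_singleton x)).trans
          (Set.ncard_singleton x).le
        simpa using hy.1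
      exact h1.trans (Nat.one_le_iff_ne_zero.2
        (Nat.mul_ne_zero h0.ne' (pow_ne_zero _ (Nat.one_le_iff_ne_zero.1 hn))))

lemma card_edge_le (n : ℕ) : Fintype.card (Edge n) ≤ n ^ 2 := by
  refine (Fintype.card_le_of_injective (fun p : Edge n => p.1) Subtype.val_injective).trans ?_
  rw [Fintype.card_prod, Fintype.card_fin, sq]

/-- **One block.** -/
theorem one_clique {s : ℕ} (hs : 1 ≤ s) (Gs : List ((Edge (nsz s) → Bool) → Bool))
    (hlen : Gs.length ≤ Fintype.card (Edge (nsz s)) * 2 ^ s)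
    (hmem : ∀ G ∈ Gs, (circClass (2 ^ (s + 1))).mem _ G)
    (h : ∀ u, HasClique (nsz s / 2) u ↔ ∃ G ∈ Gs, G u = true) : False := by
  obtain ⟨C, o, h1, h2, h3⟩ := or_list Gs hmem
  have h4 := clique_bound (nsz s) (8 * (67 * s)) (by omega) (log_nsz_le' hs) (nsz_big hs) C o h1
    fun x => by rw [h3 x, h x]
  have h5 : nsz s ≤ 2 ^ (67 * s) := by
    have := four_nsz_le hs
    omega
  have h6 : 2 ^ (s + 1) + 1 ≤ 2 ^ (s + 2) := by
    have : 1 ≤ 2 ^ (s + 1) := Nat.one_le_two_pow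
    rw [pow_succ 2 (s + 1)]
    omega
  have h7 : Circuit.size C < 2 ^ (8 * (67 * s)) := by
    calc Circuit.size C ≤ Gs.length * (2 ^ (s + 1) + 1) := h2
      _ ≤ (nsz s ^ 2 * 2 ^ s) * 2 ^ (s + 2) :=
          Nat.mul_le_mul (hlen.trans (Nat.mul_le_mul_right _ (card_edge_le _))) h6
      _ ≤ ((2 ^ (67 * s)) ^ 2 * 2 ^ s) * 2 ^ (s + 2) :=
          Nat.mul_le_mul_right _ (Nat.mul_le_mul_right _ (Nat.pow_le_pow_left h5 2))
      _ = 2 ^ (136 * s + 2) := by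
          rw [← pow_mul, ← pow_add, ← pow_add]
          congr 1
          ring
      _ < 2 ^ (8 * (67 * s)) := Nat.pow_lt_pow_right (by norm_num) (by omega)
  omega

/-- **Clique.** -/
theorem clique_hidden {s : ℕ} (hs : 1 ≤ s) {N k : ℕ} (U : Finset (Edge N))
    (hU : DisjointPairs k U) :
    HardSet (HasClique (N / 2)) U
      (fun D => ∃ (C : Circuit (Edge N)) (o : Wire (Edge N)),
        C.size ≤ 2 ^ s ∧ ∀ p, D p = (kleene C p o == some true))
      (k + 1) ((2 ^ s) ^ (k / ccz s)) := by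
  classical
  rcases Nat.eq_zero_or_pos (k / ccz s) with h0 | h0
  · rw [h0, pow_zero]
    refine hardSet_one U _ (by omega) (fun _ => true) ?_
    obtain ⟨S, -, hS⟩ := Finset.exists_subset_card_eq (s := (univ : Finset (Fin N))) (n := N / 2)
      (by rw [Finset.card_univ, Fintype.card_fin]; omega)
    exact ⟨S, hS, fun _ _ _ _ _ => rfl⟩
  · have hn : 2 ≤ nsz s := by
      have := nsz_pos hs
      omega
    have h4 : 4 * (k / ccz s * nsz s ^ 2) ≤ k := by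
      calc 4 * (k / ccz s * nsz s ^ 2) = k / ccz s * (4 * nsz s ^ 2) := by ring
        _ = k / ccz s * ccz s := by rw [ccz_eq]
        _ ≤ k := Nat.div_mul_le_self _ _
    have : Nonempty (Edge (nsz s)) :=
      ⟨⟨(⟨0, by omega⟩, ⟨1, by omega⟩), by simp⟩⟩
    refine hardSet_general (circClass (2 ^ (s + 1)))
      (fun u : Edge (nsz s) → Bool => HasClique (nsz s / 2) u)
      (fun _ _ huv hu => hasClique_mono huv hu)
      (fun Gs h1 h2 h3 => one_clique hs Gs h1 h2 h3) (HasClique (N / 2)) U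
      (clique_blocks_U h0 hn h4 U hU) ?_ _ fun D h => kleene_lits D h
    have h5 : k / ccz s * Fintype.card (Edge (nsz s)) ≤ k / ccz s * nsz s ^ 2 :=
      Nat.mul_le_mul_left _ (card_edge_le _)
    omega

lemma eventually_pow6 (A : ℕ) : ∃ l₀, ∀ l ≥ l₀, A * (l + 1) ^ 6 ≤ 2 ^ l := by
  have h1 := (tendsto_pow_const_div_const_pow_of_one_lt 6 (r := (2 : ℝ)) (by norm_num))
  have h2 : ∀ᶠ n : ℕ in Filter.atTop, (n : ℝ) ^ 6 / 2 ^ n ≤ 1 / (64 * A + 1) :=
    h1.eventually_le_const (by positivity)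
  obtain ⟨l₁, hl₁⟩ := Filter.eventually_atTop.1 h2
  refine ⟨max l₁ 1, fun l hl => ?_⟩
  have h3 := hl₁ l ((le_max_left _ _).trans hl)
  have h4 : 1 ≤ l := (le_max_right _ _).trans hl
  have h5 : (0 : ℝ) < 2 ^ l := by positivity
  have h6 : (0 : ℝ) < 64 * A + 1 := by positivity
  rw [div_le_div_iff₀ h5 h6, one_mul] at h3
  have h7 : (l + 1) ^ 6 ≤ 64 * l ^ 6 := by
    calc (l + 1) ^ 6 ≤ (2 * l) ^ 6 := Nat.pow_le_pow_left (by omega) 6
      _ = 64 * l ^ 6 := by ring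
  have h8 : l ^ 6 * (64 * A + 1) ≤ 2 ^ l := by exact_mod_cast h3
  calc A * (l + 1) ^ 6 ≤ A * (64 * l ^ 6) := Nat.mul_le_mul_left _ h7
    _ ≤ l ^ 6 * (64 * A + 1) := by nlinarith [Nat.zero_le (l ^ 6)]
    _ ≤ 2 ^ l := h8

lemma ccz_small {c : ℕ} (hc : 1 ≤ c) : ∃ L₀, 1 ≤ L₀ ∧ ∀ L ≥ L₀, ccz (c * (L + 1)) ≤ L ^ 5 := by
  obtain ⟨l₀, hl₀⟩ := eventually_pow6 (2 ^ 127 * c ^ 5)
  refine ⟨2 ^ l₀, Nat.one_le_two_pow, fun L hL => ?_⟩
  have hL1 : 1 ≤ L := Nat.one_le_two_pow.trans hL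
  set t := c * (L + 1) with ht
  have ht0 : t ≠ 0 := by positivity
  have h1 : l₀ ≤ Nat.log 2 t := by
    refine (Nat.le_log_iff_pow_le (by norm_num) ht0).2 ?_
    calc 2 ^ l₀ ≤ L := hL
      _ ≤ c * (L + 1) := by nlinarith
  have h2 := hl₀ _ h1
  have h3 : 2 ^ Nat.log 2 t ≤ t := Nat.pow_log_le_self 2 ht0
  have h4 : t ≤ 2 * c * L := by
    rw [ht]
    nlinarith
  have h5 : 2 ^ 127 * c ^ 5 * (Nat.log 2 t + 1) ^ 6 ≤ 2 * c * L := (h2.trans h3).trans h4
  have h6 : 2 ^ 126 * c ^ 4 * (Nat.log 2 t + 1) ^ 6 ≤ L := by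
    have h7 : 2 * c * (2 ^ 126 * c ^ 4 * (Nat.log 2 t + 1) ^ 6) ≤ 2 * c * L := by
      calc 2 * c * (2 ^ 126 * c ^ 4 * (Nat.log 2 t + 1) ^ 6)
          = 2 ^ 127 * c ^ 5 * (Nat.log 2 t + 1) ^ 6 := by ring
        _ ≤ 2 * c * L := h5
    exact Nat.le_of_mul_le_mul_left h7 (by positivity)
  calc ccz t = 2 ^ 122 * t ^ 4 * (Nat.log 2 t + 1) ^ 6 := rfl
    _ ≤ 2 ^ 122 * (2 * c * L) ^ 4 * (Nat.log 2 t + 1) ^ 6 :=
        Nat.mul_le_mul_right _ (Nat.mul_le_mul_left _ (Nat.pow_le_pow_left h4 4))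
    _ = 2 ^ 126 * c ^ 4 * (Nat.log 2 t + 1) ^ 6 * L ^ 4 := by ring
    _ ≤ L * L ^ 4 := Nat.mul_le_mul_right _ h6
    _ = L ^ 5 := by ring

/-- Nothing seen, one circuit. -/
theorem poly_of_hardSet {ι : Type} [DecidableEq ι] {f : (ι → Bool) → Prop} {U : Finset ι}
    {S n Q S' q : ℕ} (hS : S' ≤ S) (hq : q ≤ Q)
    (h : HardSet f U (fun D => ∃ (C : Circuit ι) (o : Wire ι), C.size ≤ S ∧
      ∀ p, D p = (kleene C p o == some true)) n Q) :
    ∃ (ρ : ι → Bool) (M : Finset (ι → Bool)),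
      M.Nonempty ∧ (∀ x ∈ M, f x ∧ ∀ v, v ∉ U → x v = ρ v) ∧
      ∀ (C : Circuit ι) (o : Wire ι),
        C.size ≤ S' → (∀ x, (∀ v, v ∉ U → x v = ρ v) → C.val x o = true → f x) →
        q * {x | x ∈ M ∧ kleene C (hide U ∅ x) o = some true}.ncard ≤ M.card := by
  obtain ⟨ρ, M, h2, h3, h4⟩ := h
  refine ⟨ρ, M, h2, h3, fun C o hC hsound => ?_⟩
  have h5 := h4 Unit 0 (fun _ p => kleene C p o == some true)
    (fun _ => ⟨C, o, hC.trans hS, fun _ => rfl⟩) (by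
      intro _ x hx hy
      have h6 : kleene C (fun v => some (x v)) o = some true := by simpa using hy
      rw [kleene_total] at h6
      exact hsound x hx (Option.some.inj h6))
  have h6 : {x | x ∈ M ∧ AccSees U 0 (fun (_ : Unit) p => kleene C p o == some true) x} =
      {x | x ∈ M ∧ kleene C (hide U ∅ x) o = some true} := by
    ext x
    refine and_congr_right fun _ =>
      ⟨?_, fun h => ⟨(), ∅, by simp, by simp, by simp, by simpa using h⟩⟩
    rintro ⟨y, Z, -, hZ, -, hy⟩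
    rw [Finset.card_eq_zero.1 (Nat.le_zero.1 hZ)] at hy
    simpa using hy
  rw [h6, pow_zero, mul_one, Fintype.card_unit, one_mul] at h5
  exact le_trans (Nat.mul_le_mul_right _ hq) h5

/-- **Polynomial size circuits for clique.** -/
theorem clique_poly (c : ℕ) : ∃ N₀ : ℕ, ∀ N ≥ N₀, ∀ U : Finset (Edge N),
    DisjointPairs (Nat.log 2 N ^ 5) U →
    ∃ (ρ : Edge N → Bool) (M : Finset (Edge N → Bool)),
      M.Nonempty ∧ (∀ x ∈ M, HasClique (N / 2) x ∧ ∀ v, v ∉ U → x v = ρ v) ∧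
      ∀ (C : Circuit (Edge N)) (o : Wire (Edge N)),
        C.size ≤ N ^ c →
        (∀ x, (∀ v, v ∉ U → x v = ρ v) → C.val x o = true → HasClique (N / 2) x) →
        N ^ c * {x | x ∈ M ∧ kleene C (hide U ∅ x) o = some true}.ncard ≤ M.card := by
  obtain ⟨L₀, hL₀1, hL₀⟩ := ccz_small (c := c + 1) (by omega)
  refine ⟨2 ^ L₀, fun m hm U hU => ?_⟩
  have hm0 : m ≠ 0 := by
    have : 0 < 2 ^ L₀ := by positivity
    omega
  set L := Nat.log 2 m with hL
  have h1 : L₀ ≤ L := (Nat.le_log_iff_pow_le (by norm_num) hm0).2 hm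
  set s := (c + 1) * (L + 1) with hs
  have hs1 : 1 ≤ s := by
    rw [hs]
    exact Nat.one_le_iff_ne_zero.2 (by positivity)
  have hms : m ^ c ≤ 2 ^ s := by
    have h2 : m ≤ 2 ^ (L + 1) := (Nat.lt_pow_succ_log_self (by norm_num) m).le
    calc m ^ c ≤ (2 ^ (L + 1)) ^ c := Nat.pow_le_pow_left h2 c
      _ = 2 ^ ((L + 1) * c) := (pow_mul 2 _ _).symm
      _ ≤ 2 ^ s := Nat.pow_le_pow_right (by norm_num) (by rw [hs]; nlinarith)
  refine poly_of_hardSet hms ?_ (clique_hidden hs1 U hU)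
  refine hms.trans ?_
  have h7 : 1 ≤ L ^ 5 / ccz s := by
    refine (Nat.le_div_iff_mul_le (ccz_pos hs1)).2 ?_
    rw [one_mul]
    exact hL₀ L h1
  calc 2 ^ s = (2 ^ s) ^ 1 := (pow_one _).symm
    _ ≤ (2 ^ s) ^ (L ^ 5 / ccz s) := Nat.pow_le_pow_right (by positivity) h7

end Pool.Agent.GB24.Loc
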