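import Pool.Agent.NWE.Kleene

/-!
# Devices with guesses which see few zeros of a set of variables: definitions

A partly hidden input is a function `p : ι → Option Bool`; `p v = none` means that the bit `v` is
hidden. A device is a Boolean function of partly hidden inputs; `fun v => some (x v)` is the input `x`
with nothing hidden. `NWE.hide U Z x` (`Pool/Agent/NWE/Kleene.lean`) is the input `x` whose zeros in
`U` are hidden, except those in `Z`.
-/

namespace Pool.Agent.GB24.Loc

/-- The literals known to be true at the partly hidden input `p`: `Sum.inl v` is the variable `v`,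
`Sum.inr v` is the negated variable `v`. -/
def known {ι : Type} (p : ι → Option Bool) : ι ⊕ ι → Bool :=
  Sum.elim (fun v => p v == some true) fun v => p v == some false

/-- The devices `D y` (`y` a guess) accept the input `x` seeing at most `w` zeros in `U`: for some
guess `y` and some set `Z` of at most `w` zeros of `x` in `U`, the device `D y` accepts `x` with all
zeros in `U` hidden except those in `Z`. -/
def AccSees {ι Y : Type} [DecidableEq ι] (U : Finset ι) (w : ℕ)
    (D : Y → (ι → Option Bool) → Bool) (x : ι → Bool) : Prop :=
  ∃ (y : Y) (Z : Finset ι), Z ⊆ U ∧ Z.card ≤ w ∧ (∀ v ∈ Z, x v = false) ∧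
    D y (NWE.hide U Z x) = true

/-- There are `ρ` and a nonempty set `M` of inputs with `f x`, which agree with `ρ` outside `U`,
such that for all devices `D y` (`y ∈ Y` a guess) of the class `K` which accept, of the inputs which
agree with `ρ` outside `U`, only inputs with `f x`, at most `|Y| n ^ w |M| / Q` elements of `M` are
accepted seeing at most `w` zeros in `U`. -/
def HardSet {ι : Type} [DecidableEq ι] (f : (ι → Bool) → Prop) (U : Finset ι)
    (K : ((ι → Option Bool) → Bool) → Prop) (n Q : ℕ) : Prop :=
  ∃ (ρ : ι → Bool) (M : Finset (ι → Bool)), M.Nonempty ∧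
    (∀ x ∈ M, f x ∧ ∀ v, v ∉ U → x v = ρ v) ∧
    ∀ (Y : Type) [Fintype Y] (w : ℕ) (D : Y → (ι → Option Bool) → Bool), (∀ y, K (D y)) →
      (∀ y x, (∀ v, v ∉ U → x v = ρ v) → D y (fun v => some (x v)) = true → f x) →
      Q * {x | x ∈ M ∧ AccSees U w D x}.ncard ≤ Fintype.card Y * n ^ w * M.card

end Pool.Agent.GB24.Loc
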