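import Pool.Agent.GB24.HiddenUClique
import Pool.Agent.NTN.ForestRestr

/-!
# Clique: missing edges of EVERY set with many endpoints must be seen
-/

namespace Pool.Agent.GB24.Loc

open Finset Pool.Agent.NegLim Pool.Agent.NTR Pool.Agent.NTR.Gen Pool.Agent.NWE Pool.Agent.GB24
  Pool.Agent.NTN

/-- **Clique**: every set of edges with at least `2 k` endpoints. -/
theorem clique_hidden_ends {s : ℕ} (hs : 1 ≤ s) {N k : ℕ} (U : Finset (Edge N))
    (hU : 2 * k ≤ (ends U).card) :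
    HardSet (HasClique (N / 2)) U
      (fun D => ∃ (C : Circuit (Edge N)) (o : Wire (Edge N)),
        C.size ≤ 2 ^ s ∧ ∀ p, D p = (kleene C p o == some true))
      (k + 1) ((2 ^ s) ^ (k / (2 ^ 122 * s ^ 4 * (Nat.log 2 s + 1) ^ 6))) := by
  classical
  change HardSet (HasClique (N / 2)) U _ (k + 1) ((2 ^ s) ^ (k / ccz s))
  rcases Nat.eq_zero_or_pos (k / ccz s) with h0 | h0
  · rw [h0, pow_zero]
    refine hardSet_one U _ (by omega) (fun _ => true) ?_
    obtain ⟨S, -, hS⟩ := Finset.exists_subset_card_eq (s := (univ : Finset (Fin N))) (n := N / 2)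
      (by rw [Finset.card_univ, Fintype.card_fin]; omega)
    exact ⟨S, hS, fun _ _ _ _ _ => rfl⟩
  · have hn : 2 ≤ nsz s := by
      have := nsz_pos hs
      omega
    have h4 : 4 * (k / ccz s * nsz s ^ 2) ≤ k := by
      calc 4 * (k / ccz s * nsz s ^ 2) = k / ccz s * (4 * nsz s ^ 2) := by ring
        _ = k / ccz s * ccz s := by rw [ccz_eq]
        _ ≤ k := Nat.div_mul_le_self _ _
    have : Nonempty (Edge (nsz s)) :=
      ⟨⟨(⟨0, by omega⟩, ⟨1, by omega⟩), by simp⟩⟩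
    refine hardSet_general (circClass (2 ^ (s + 1)))
      (fun u : Edge (nsz s) → Bool => HasClique (nsz s / 2) u)
      (fun _ _ huv hu => hasClique_mono huv hu)
      (fun Gs h1 h2 h3 => one_clique hs Gs h1 h2 h3) (HasClique (N / 2)) U
      (clique_forest_U h0 hn h4 U hU) ?_ _ fun D h => kleene_lits D h
    have h5 : k / ccz s * Fintype.card (Edge (nsz s)) ≤ k / ccz s * nsz s ^ 2 :=
      Nat.mul_le_mul_left _ (card_edge_le _)
    omega

/-- Every set of `2 k ^ 2` edges has at least `2 k` endpoints. -/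
theorem card_ends_of_card {N k : ℕ} {U : Finset (Edge N)} (hU : 2 * k ^ 2 ≤ U.card) :
    2 * k ≤ (ends U).card := by
  have h1 := two_card_le_ends U
  have h2 : (2 * k) ^ 2 ≤ (ends U).card ^ 2 := by
    calc (2 * k) ^ 2 = 2 * (2 * k ^ 2) := by ring
      _ ≤ 2 * U.card := Nat.mul_le_mul_left _ hU
      _ ≤ _ := h1
  exact (Nat.pow_le_pow_iff_left (by norm_num)).1 h2

/-- **Polynomial size circuits for clique**: every set of edges with `(log N) ^ 5` endpoints. -/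
theorem clique_poly_ends (c : ℕ) : ∃ N₀ : ℕ, ∀ N ≥ N₀, ∀ U : Finset (Edge N),
    Nat.log 2 N ^ 5 ≤ (ends U).card →
    ∃ (ρ : Edge N → Bool) (M : Finset (Edge N → Bool)),
      M.Nonempty ∧ (∀ x ∈ M, HasClique (N / 2) x ∧ ∀ v, v ∉ U → x v = ρ v) ∧
      ∀ (C : Circuit (Edge N)) (o : Wire (Edge N)),
        C.size ≤ N ^ c →
        (∀ x, (∀ v, v ∉ U → x v = ρ v) → C.val x o = true → HasClique (N / 2) x) →
        N ^ c * {x | x ∈ M ∧ kleene C (hide U ∅ x) o = some true}.ncard ≤ M.card := by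
  obtain ⟨L₀, hL₀1, hL₀⟩ := ccz_small (c := 2 * (c + 1)) (by omega)
  refine ⟨2 ^ L₀, fun m hm U hU => ?_⟩
  have hm0 : m ≠ 0 := by
    have : 0 < 2 ^ L₀ := by positivity
    omega
  set L := Nat.log 2 m with hL
  have h1 : L₀ ≤ L := (Nat.le_log_iff_pow_le (by norm_num) hm0).2 hm
  set s := (c + 1) * (L + 1) with hs
  have hs1 : 1 ≤ s := by
    rw [hs]
    exact Nat.one_le_iff_ne_zero.2 (by positivity)
  have hms : m ^ c ≤ 2 ^ s := by
    have h2 : m ≤ 2 ^ (L + 1) := (Nat.lt_pow_succ_log_self (by norm_num) m).le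
    calc m ^ c ≤ (2 ^ (L + 1)) ^ c := Nat.pow_le_pow_left h2 c
      _ = 2 ^ ((L + 1) * c) := (pow_mul 2 _ _).symm
      _ ≤ 2 ^ s := Nat.pow_le_pow_right (by norm_num) (by rw [hs]; nlinarith)
  -- the number of endpoints used
  have h3 : 16 * ccz s ≤ L ^ 5 := by
    have h4 := hL₀ L h1
    have h5 : 2 * (c + 1) * (L + 1) = 2 * s := by rw [hs]; ring
    rw [h5] at h4
    refine le_trans ?_ h4
    have h6 : Nat.log 2 s ≤ Nat.log 2 (2 * s) := Nat.log_mono_right (by omega)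
    calc 16 * ccz s = 2 ^ 122 * (2 * s) ^ 4 * (Nat.log 2 s + 1) ^ 6 := by
          unfold ccz
          ring
      _ ≤ 2 ^ 122 * (2 * s) ^ 4 * (Nat.log 2 (2 * s) + 1) ^ 6 :=
          Nat.mul_le_mul_left _ (Nat.pow_le_pow_left (by omega) 6)
      _ = ccz (2 * s) := rfl
  have hU2 : 2 * (L ^ 5 / 2) ≤ (ends U).card := (Nat.mul_div_le _ _).trans hU
  refine poly_of_hardSet hms ?_ (clique_hidden_ends hs1 U hU2)
  refine hms.trans ?_
  have h7 : 1 ≤ L ^ 5 / 2 / ccz s := by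
    refine (Nat.le_div_iff_mul_le (ccz_pos hs1)).2 ?_
    rw [one_mul]
    omega
  calc 2 ^ s = (2 ^ s) ^ 1 := (pow_one _).symm
    _ ≤ (2 ^ s) ^ (L ^ 5 / 2 / ccz s) := Nat.pow_le_pow_right (by positivity) h7

/-- **Polynomial size circuits for clique**, every set of `(log N) ^ 10` edges. -/
theorem clique_poly_every (c : ℕ) : ∃ N₀ : ℕ, ∀ N ≥ N₀, ∀ U : Finset (Edge N),
    Nat.log 2 N ^ 10 ≤ U.card →
    ∃ (ρ : Edge N → Bool) (M : Finset (Edge N → Bool)),
      M.Nonempty ∧ (∀ x ∈ M, HasClique (N / 2) x ∧ ∀ v, v ∉ U → x v = ρ v) ∧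
      ∀ (C : Circuit (Edge N)) (o : Wire (Edge N)),
        C.size ≤ N ^ c →
        (∀ x, (∀ v, v ∉ U → x v = ρ v) → C.val x o = true → HasClique (N / 2) x) →
        N ^ c * {x | x ∈ M ∧ kleene C (hide U ∅ x) o = some true}.ncard ≤ M.card := by
  obtain ⟨N₀, h⟩ := clique_poly_ends c
  refine ⟨N₀, fun N hN U hU => h N hN U ?_⟩
  have h1 := two_card_le_ends U
  refine (Nat.pow_le_pow_iff_left (n := 2) (by norm_num)).1 ?_
  calc (Nat.log 2 N ^ 5) ^ 2 = Nat.log 2 N ^ 10 := by ring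
    _ ≤ U.card := hU
    _ ≤ 2 * U.card := by omega
    _ ≤ _ := h1

end Pool.Agent.GB24.Loc
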