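import Pool.Agent.GB24.Match

set_option autoImplicit false

/-!
# Perfect matchings and 3-dimensional matchings: every set of edges with many disjoint ones

`U` is a set of edges of the complete bipartite graph on `m + m` vertices which contains `k` pairwise
disjoint edges. The variables outside `U` can be made constant such that the perfect matching
function becomes the conjunction of `r` perfect matching functions on `b + b` vertices, if
`3 r b ^ 2 ≤ k`: an edge `p q` of a small graph is replaced by a path `p s₁ a c s₄ q` whose middle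
edge `a c` is in `U`.
-/

namespace Pool.Agent.GB24

open Pool.Agent.PMB

/-- A bijection which extends a partial injection. -/
theorem exists_equiv_extend {A W T : Type} [Fintype A] [Fintype W]
    (hc : Fintype.card A = Fintype.card W) (f : T → A) (hf : Function.Injective f) (g : T → W)
    (hg : Function.Injective g) : ∃ e : A ≃ W, ∀ t, e (f t) = g t := by
  classical
  let e₀ : A ≃ W := Fintype.equivOfCardEq hc
  have h1 : Function.Injective fun t => e₀ (f t) := fun t t' h => hf (e₀.injective h)
  let σ : {x // x ∈ Set.range fun t => e₀ (f t)} ≃ {x // x ∈ Set.range g} :=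
    (Equiv.ofInjective _ h1).symm.trans (Equiv.ofInjective g hg)
  refine ⟨e₀.trans σ.extendSubtype, fun t => ?_⟩
  rw [Equiv.trans_apply, Equiv.extendSubtype_apply_of_mem σ (e₀ (f t)) ⟨t, rfl⟩]
  have h2 : (Equiv.ofInjective _ h1).symm ⟨e₀ (f t), ⟨t, rfl⟩⟩ = t :=
    Equiv.ofInjective_symm_apply h1 t
  simp only [σ, Equiv.trans_apply]
  rw [h2]
  rfl

/-- The vertices of one side: those of the `r` small graphs, two for each edge of a small graph, and
the rest. -/
abbrev GV (r b : ℕ) (D : Type) : Type :=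
  (Fin r × Fin b) ⊕ (Fin r × (Fin b × Fin b)) ⊕ (Fin r × (Fin b × Fin b)) ⊕ D

/-- The edges of the graph: paths `p s₁ a c s₄ q` instead of the edges of the small graphs, and
disjoint edges. On the left side: `p`, `a`, `s₄`, the rest; on the right side: `q`, `c`, `s₁`, the
rest. -/
def gadj {r b : ℕ} {D : Type} [DecidableEq D] :
    GV r b D → GV r b D → (Fin r × (Fin b × Fin b)) ⊕ Bool
  | .inl p, .inr (.inr (.inl t)) => .inr (decide (p = (t.1, t.2.1)))
  | .inr (.inl t), .inr (.inr (.inl t')) => .inr (decide (t = t'))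
  | .inr (.inl t), .inr (.inl t') => if t = t' then .inl t else .inr false
  | .inr (.inr (.inl t)), .inr (.inl t') => .inr (decide (t = t'))
  | .inr (.inr (.inl t)), .inl q => .inr (decide ((t.1, t.2.2) = q))
  | .inr (.inr (.inr d)), .inr (.inr (.inr d')) => .inr (decide (d = d'))
  | _, _ => .inr false

theorem gadj_eq_inl {r b : ℕ} {D : Type} [DecidableEq D] (v w : GV r b D)
    (t : Fin r × (Fin b × Fin b)) (h : gadj v w = .inl t) :
    v = .inr (.inl t) ∧ w = .inr (.inl t) := by
  rcases v with p | t₁ | t₁ | d <;> rcases w with q | t₂ | t₂ | d' <;> simp only [gadj] at h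
  all_goals first
    | exact absurd h (by simp)
    | skip
  by_cases h1 : t₁ = t₂
  · subst h1
    rw [if_pos rfl] at h
    rw [Sum.inl.inj h]
    exact ⟨rfl, rfl⟩
  · rw [if_neg h1] at h
    exact absurd h (by simp)

theorem gblocks_iff {r b : ℕ} {D : Type} [DecidableEq D] [Finite D]
    (x : Fin r × (Fin b × Fin b) → Bool) :
    (∃ π : Equiv.Perm (GV r b D), ∀ i, Sum.elim x id (gadj i (π i)) = true) ↔
      ∀ k, HasPM fun e => x (k, e) := by
  constructor
  · rintro ⟨π, hπ⟩ k
    have h1 : ∀ a : Fin b, ∃ a' : Fin b, π (.inl (k, a)) = .inr (.inr (.inl (k, (a, a')))) := by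
      intro a
      have h2 := hπ (.inl (k, a))
      rcases h3 : π (.inl (k, a)) with q | t | ⟨k', a₁, a'⟩ | d
      · rw [h3] at h2; simp [gadj] at h2
      · rw [h3] at h2; simp [gadj] at h2
      · rw [h3] at h2
        simp only [gadj, Sum.elim_inr, id, decide_eq_true_eq, Prod.mk.injEq] at h2
        obtain ⟨rfl, rfl⟩ := h2
        exact ⟨a', rfl⟩
      · rw [h3] at h2; simp [gadj] at h2
    choose τ hτ using h1
    have h2 : ∀ a, π (.inr (.inl (k, (a, τ a)))) = .inr (.inl (k, (a, τ a))) ∧
        x (k, (a, τ a)) = true := by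
      intro a
      have h3 := hπ (.inr (.inl (k, (a, τ a))))
      rcases h4 : π (.inr (.inl (k, (a, τ a)))) with q | t | t | d
      · rw [h4] at h3; simp [gadj] at h3
      · rw [h4] at h3
        simp only [gadj] at h3
        by_cases h5 : (k, (a, τ a)) = t
        · subst h5
          rw [if_pos rfl] at h3
          exact ⟨rfl, h3⟩
        · rw [if_neg h5] at h3
          simp at h3
      · rw [h4] at h3
        simp only [gadj, Sum.elim_inr, id, decide_eq_true_eq] at h3
        subst h3
        have h5 := π.injective (h4.trans (hτ a).symm)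
        simp at h5
      · rw [h4] at h3; simp [gadj] at h3
    have h3 : ∀ a, π (.inr (.inr (.inl (k, (a, τ a))))) = .inl (k, τ a) := by
      intro a
      have h3 := hπ (.inr (.inr (.inl (k, (a, τ a)))))
      rcases h4 : π (.inr (.inr (.inl (k, (a, τ a))))) with q | t | t | d
      · rw [h4] at h3
        simp only [gadj, Sum.elim_inr, id, decide_eq_true_eq] at h3
        rw [← h3]
      · rw [h4] at h3
        simp only [gadj, Sum.elim_inr, id, decide_eq_true_eq] at h3
        subst h3
        have h5 := π.injective (h4.trans (h2 a).1.symm)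
        simp at h5
      · rw [h4] at h3; simp [gadj] at h3
      · rw [h4] at h3; simp [gadj] at h3
    have hinj : Function.Injective τ := by
      intro a a' h
      have h4 : π (.inr (.inr (.inl (k, (a, τ a))))) = π (.inr (.inr (.inl (k, (a', τ a'))))) := by
        rw [h3, h3, h]
      have h5 := π.injective h4
      simp only [Sum.inr.injEq, Sum.inl.injEq, Prod.mk.injEq, true_and] at h5
      exact h5.1
    exact ⟨Equiv.ofBijective τ (Finite.injective_iff_bijective.mp hinj), fun a => (h2 a).2⟩
  · intro h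
    choose τ hτ using h
    let ρ : GV r b D → GV r b D
      | .inl p => .inr (.inr (.inl (p.1, (p.2, τ p.1 p.2))))
      | .inr (.inl t) => if τ t.1 t.2.1 = t.2.2 then .inr (.inl t) else .inr (.inr (.inl t))
      | .inr (.inr (.inl t)) => if τ t.1 t.2.1 = t.2.2 then .inl (t.1, t.2.2) else .inr (.inl t)
      | .inr (.inr (.inr d)) => .inr (.inr (.inr d))
    have hρ : Function.Surjective ρ := by
      rintro (⟨k, c⟩ | ⟨k, a, a'⟩ | ⟨k, a, a'⟩ | d)
      · exact ⟨.inr (.inr (.inl (k, ((τ k).symm c, c)))), by simp [ρ]⟩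
      · by_cases h1 : τ k a = a'
        · exact ⟨.inr (.inl (k, (a, a'))), by simp [ρ, h1]⟩
        · exact ⟨.inr (.inr (.inl (k, (a, a')))), by simp [ρ, h1]⟩
      · by_cases h1 : τ k a = a'
        · exact ⟨.inl (k, a), by simp [ρ, h1]⟩
        · exact ⟨.inr (.inl (k, (a, a'))), by simp [ρ, h1]⟩
      · exact ⟨.inr (.inr (.inr d)), rfl⟩
    refine ⟨Equiv.ofBijective ρ (Finite.surjective_iff_bijective.mp hρ), fun i => ?_⟩
    rw [Equiv.ofBijective_apply]
    rcases i with ⟨k, a⟩ | ⟨k, a, a'⟩ | ⟨k, a, a'⟩ | d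
    · simp [ρ, gadj]
    · by_cases h1 : τ k a = a'
      · subst h1
        simpa [ρ, gadj] using hτ k a
      · simp [ρ, gadj, h1]
    · by_cases h1 : τ k a = a'
      · simp [ρ, gadj, h1]
      · simp [ρ, gadj, h1]
    · simp [ρ, gadj]

/-- The numbers of vertices agree. -/
theorem card_GV {r b m : ℕ} (h : r * (b + 2 * b ^ 2) ≤ m) :
    Fintype.card (Fin m) = Fintype.card (GV r b (Fin (m - r * (b + 2 * b ^ 2)))) := by
  simp only [Fintype.card_sum, Fintype.card_prod, Fintype.card_fin]
  have h1 : r * (b + 2 * b ^ 2) = r * b + (r * (b * b) + r * (b * b)) := by ring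
  omega

/-- **Perfect matching: every set `U` of edges** which contains `k` pairwise disjoint ones. -/
theorem pm_blocks_on {r b m k : ℕ} (e : Fin k → Fin m × Fin m)
    (h1 : Function.Injective fun i => (e i).1)
    (h2 : Function.Injective fun i => (e i).2) (hk : r * b ^ 2 ≤ k)
    (hm : r * (b + 2 * b ^ 2) ≤ m) :
    ∃ φ : Fin m × Fin m → (Fin r × (Fin b × Fin b)) ⊕ Bool,
      (∀ v t, φ v = .inl t → ∃ i, v = e i) ∧
      ∀ x : Fin r × (Fin b × Fin b) → Bool,
        HasPM (fun e => Sum.elim x id (φ e)) ↔ ∀ k, HasPM fun e => x (k, e) := by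
  classical
  obtain ⟨ι⟩ : Nonempty ((Fin r × (Fin b × Fin b)) ↪ Fin k) := by
    apply Function.Embedding.nonempty_of_card_le
    simp only [Fintype.card_prod, Fintype.card_fin]
    rw [← pow_two]
    exact hk
  let g : Fin r × (Fin b × Fin b) → GV r b (Fin (m - r * (b + 2 * b ^ 2))) := fun t =>
    .inr (.inl t)
  have hg : Function.Injective g := fun t t' h => Sum.inl.inj (Sum.inr.inj h)
  obtain ⟨eL, hL⟩ := exists_equiv_extend (card_GV hm) (fun t => (e (ι t)).1)
    (fun t t' h => ι.injective (h1 h)) g hg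
  obtain ⟨eR, hR⟩ := exists_equiv_extend (card_GV hm) (fun t => (e (ι t)).2)
    (fun t t' h => ι.injective (h2 h)) g hg
  refine ⟨fun v => gadj (eL v.1) (eR v.2), ?_, fun x => ?_⟩
  · intro v t hv
    obtain ⟨ha, hb⟩ := gadj_eq_inl _ _ t hv
    refine ⟨ι t, ?_⟩
    have h3 : v.1 = (e (ι t)).1 := eL.injective (ha.trans (hL t).symm)
    have h4 : v.2 = (e (ι t)).2 := eR.injective (hb.trans (hR t).symm)
    exact Prod.ext h3 h4
  · rw [← gblocks_iff (D := Fin (m - r * (b + 2 * b ^ 2))) x]
    unfold HasPM
    constructor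
    · rintro ⟨π, hπ⟩
      refine ⟨eL.symm.trans (π.trans eR), fun i => ?_⟩
      have h := hπ (eL.symm i)
      simpa using h
    · rintro ⟨π, hπ⟩
      refine ⟨eL.trans (π.trans eR.symm), fun i => ?_⟩
      have h := hπ (eL i)
      simpa using h

/-- **3-dimensional matching: every set `U` of triples** which contains `k` pairwise disjoint
ones. -/
theorem tdm_blocks_on {r b m k : ℕ} (e : Fin k → Fin m × Fin m × Fin m)
    (h1 : Function.Injective fun i => (e i).1) (h2 : Function.Injective fun i => (e i).2.1)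
    (h3 : Function.Injective fun i => (e i).2.2) (hk : r * b ^ 2 ≤ k)
    (hm : r * (b + 2 * b ^ 2) ≤ m) :
    ∃ φ : Fin m × Fin m × Fin m → (Fin r × (Fin b × Fin b)) ⊕ Bool,
      (∀ v t, φ v = .inl t → ∃ i, v = e i) ∧
      ∀ x : Fin r × (Fin b × Fin b) → Bool,
        Has3DM (fun e => Sum.elim x id (φ e)) ↔ ∀ k, HasPM fun e => x (k, e) := by
  classical
  obtain ⟨φ, hφ, hPM⟩ := pm_blocks_on (r := r) (b := b) (fun i => ((e i).1, (e i).2.1)) h1 h2 hk hm
  obtain ⟨ζ, hζ⟩ := exists_equiv_extend rfl (fun i => (e i).1) h1 (fun i => (e i).2.2) h3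
  refine ⟨fun v => if v.2.2 = ζ v.1 then φ (v.1, v.2.1) else .inr false, ?_, fun x => ?_⟩
  · intro v t hv
    by_cases h4 : v.2.2 = ζ v.1
    · simp only [h4, if_true] at hv
      obtain ⟨i, hi⟩ := hφ _ t hv
      refine ⟨i, ?_⟩
      have hi' : (v.1, v.2.1) = ((e i).1, (e i).2.1) := hi
      have h5 : v.1 = (e i).1 := (Prod.mk.inj hi').1
      have h6 : v.2.1 = (e i).2.1 := (Prod.mk.inj hi').2
      have h7 : v.2.2 = (e i).2.2 := by rw [h4, h5, hζ]
      exact Prod.ext h5 (Prod.ext h6 h7)
    · simp only [h4, if_false] at hv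
      exact absurd hv (by simp)
  · rw [← hPM x]
    constructor
    · rintro ⟨π, σ, h4⟩
      refine ⟨π, fun i => ?_⟩
      have h5 := h4 i
      by_cases h6 : σ i = ζ i
      · simpa [h6] using h5
      · simp [h6] at h5
    · rintro ⟨π, h4⟩
      exact ⟨π, ζ, fun i => by simpa using h4 i⟩

end Pool.Agent.GB24
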