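import Pool.Agent.GB24.HiddenU
import Pool.Agent.GB24.Hidden0
import Pool.Agent.NTN.Inst
import Pool.Agent.NTN.Restr

/-!
# Perfect matching and 3-dimensional matching: zeros of a set of variables must be seen
-/

namespace Pool.Agent.GB24.Loc

open Finset Pool.Agent.NegLim Pool.Agent.NTR Pool.Agent.NTR.Gen Pool.Agent.NWE Pool.Agent.GB24
  Pool.Agent.TeleNeg Pool.Agent.PMB Pool.Agent.NTN

lemma room {s k : ℕ} : 3 * (k / csz s) * bsz s ^ 2 ≤ k := by
  have h1 : k / csz s * csz s ≤ k := Nat.div_mul_le_self _ _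
  calc 3 * (k / csz s) * bsz s ^ 2 ≤ k / csz s * csz s := by
        rw [csz_eq]
        nlinarith [Nat.zero_le (k / (4 * bsz s ^ 2) * bsz s ^ 2)]
    _ ≤ k := h1

lemma room' {s k : ℕ} :
    k / csz s * Fintype.card (Fin (bsz s) × Fin (bsz s)) + 1 ≤ k + 1 := by
  rw [Fintype.card_prod, Fintype.card_fin]
  have h1 := room (s := s) (k := k)
  nlinarith [Nat.zero_le (k / csz s * bsz s ^ 2)]

section

variable {s : ℕ} (hs : 1 ≤ s) {m k : ℕ}

include hs

/-- Perfect matching. -/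
theorem pm_hidden (U : Finset (Fin m × Fin m)) (hU : DisjointEdges k U) :
    HardSet HasPM U (fun D => ∃ (C : Circuit (Fin m × Fin m)) (o : Wire (Fin m × Fin m)),
        C.size ≤ 2 ^ s ∧ ∀ p, D p = (kleene C p o == some true))
      (k + 1) ((2 ^ s) ^ (k / csz s)) ∧
    HardSet HasPM U (fun D => ∃ P : Net (Fin m × Fin m ⊕ Fin m × Fin m) (2 ^ s),
        ∀ p, D p = P.dval (known p))
      (k + 1) ((2 ^ s) ^ (k / csz s)) := by
  have hb : 0 < bsz s := bsz_pos hs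
  have : Nonempty (Fin (bsz s) × Fin (bsz s)) := ⟨(⟨0, hb⟩, ⟨0, hb⟩)⟩
  have hmono : ∀ u v : Fin (bsz s) × Fin (bsz s) → Bool, u ≤ v → HasPM u → HasPM v :=
    fun _ _ h => hasPM_mono h
  refine ⟨hardSet_general (circClass (2 ^ (s + 1)))
      (fun u : Fin (bsz s) × Fin (bsz s) → Bool => HasPM u) hmono
      (fun Gs h1 h2 h3 => one_circuit' hs rfl Gs h1 h2 h3) HasPM U
      (pm_blocks_U U hU room) room' _ ?_,
    hardSet_general (dnetClass (2 ^ s))
      (fun u : Fin (bsz s) × Fin (bsz s) → Bool => HasPM u) hmono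
      (fun Gs h1 h2 h3 => one_dnet hs rfl Gs h1 h2 h3) HasPM U
      (pm_blocks_U U hU room) room' _ ?_⟩
  · exact fun D h => kleene_lits D h
  · exact fun D ⟨P, hP⟩ => ⟨P.dval, ⟨P, fun _ => rfl⟩, hP⟩

/-- 3-dimensional matching. -/
theorem tdm_hidden (U : Finset (Fin m × Fin m × Fin m)) (hU : DisjointTriples k U) :
    HardSet Has3DM U
      (fun D => ∃ (C : Circuit (Fin m × Fin m × Fin m)) (o : Wire (Fin m × Fin m × Fin m)),
        C.size ≤ 2 ^ s ∧ ∀ p, D p = (kleene C p o == some true))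
      (k + 1) ((2 ^ s) ^ (k / csz s)) ∧
    HardSet Has3DM U
      (fun D => ∃ P : Net ((Fin m × Fin m × Fin m) ⊕ (Fin m × Fin m × Fin m)) (2 ^ s),
        ∀ p, D p = P.dval (known p))
      (k + 1) ((2 ^ s) ^ (k / csz s)) := by
  have hb : 0 < bsz s := bsz_pos hs
  have : Nonempty (Fin (bsz s) × Fin (bsz s)) := ⟨(⟨0, hb⟩, ⟨0, hb⟩)⟩
  have hmono : ∀ u v : Fin (bsz s) × Fin (bsz s) → Bool, u ≤ v → HasPM u → HasPM v :=
    fun _ _ h => hasPM_mono h
  refine ⟨hardSet_general (circClass (2 ^ (s + 1)))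
      (fun u : Fin (bsz s) × Fin (bsz s) → Bool => HasPM u) hmono
      (fun Gs h1 h2 h3 => one_circuit' hs rfl Gs h1 h2 h3) Has3DM U
      (tdm_blocks_U U hU room) room' _ ?_,
    hardSet_general (dnetClass (2 ^ s))
      (fun u : Fin (bsz s) × Fin (bsz s) → Bool => HasPM u) hmono
      (fun Gs h1 h2 h3 => one_dnet hs rfl Gs h1 h2 h3) Has3DM U
      (tdm_blocks_U U hU room) room' _ ?_⟩
  · exact fun D h => kleene_lits D h
  · exact fun D ⟨P, hP⟩ => ⟨P.dval, ⟨P, fun _ => rfl⟩, hP⟩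

end

end Pool.Agent.GB24.Loc
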