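import Pool.Agent.PMB.Fin

/-!
# Perfect matchings and 3-dimensional matchings contain conjunctions of small perfect matching
# problems
-/

namespace Pool.Agent.GB24

open Pool.Agent.PMB

/-- The substitution which makes a graph of `r` disjoint graphs on `b + b` vertices and of disjoint
edges. -/
def blockSub {r b : ℕ} {D : Type} [DecidableEq D] (p q : (Fin r × Fin b) ⊕ D) :
    (Fin r × (Fin b × Fin b)) ⊕ Bool :=
  match p, q with
  | .inl p, .inl q => if p.1 = q.1 then .inl (p.1, (p.2, q.2)) else .inr false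
  | .inr d, .inr d' => .inr (decide (d = d'))
  | .inl _, .inr _ => .inr false
  | .inr _, .inl _ => .inr false

theorem blocks_iff {r b : ℕ} {D : Type} [DecidableEq D] (x : Fin r × (Fin b × Fin b) → Bool) :
    (∃ π : Equiv.Perm ((Fin r × Fin b) ⊕ D), ∀ i, Sum.elim x id (blockSub i (π i)) = true) ↔
      ∀ k, HasPM fun e => x (k, e) := by
  constructor
  · rintro ⟨π, hπ⟩ k
    have h1 : ∀ a : Fin b, ∃ a' : Fin b, π (.inl (k, a)) = .inl (k, a') ∧ x (k, (a, a')) = true := by
      intro a
      have h2 := hπ (.inl (k, a))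
      rcases h3 : π (.inl (k, a)) with ⟨k', a'⟩ | d
      · rw [h3] at h2
        simp only [blockSub] at h2
        by_cases h4 : k = k'
        · subst h4
          rw [if_pos rfl] at h2
          exact ⟨a', rfl, h2⟩
        · rw [if_neg h4] at h2
          simp at h2
      · rw [h3] at h2
        simp [blockSub] at h2
    choose τ hτ using h1
    have hinj : Function.Injective τ := by
      intro a a' h
      have h2 : π (.inl (k, a)) = π (.inl (k, a')) := by rw [(hτ a).1, (hτ a').1, h]
      have h3 := π.injective h2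
      simpa using h3
    exact ⟨Equiv.ofBijective τ (Finite.injective_iff_bijective.mp hinj), fun a => (hτ a).2⟩
  · intro h
    choose π hπ using h
    refine ⟨Equiv.sumCongr (Equiv.prodShear (Equiv.refl _) π) (Equiv.refl _), ?_⟩
    rintro (⟨k, a⟩ | d)
    · simp only [Equiv.sumCongr_apply, Sum.map_inl, Equiv.prodShear_apply, Equiv.refl_apply,
        blockSub, if_true, Sum.elim_inl]
      exact hπ k a
    · simp [blockSub]

/-- The vertices: `r` blocks of `b` vertices and the rest. -/
noncomputable def vtx {r b m : ℕ} (h : r * b ≤ m) : Fin m ≃ (Fin r × Fin b) ⊕ Fin (m - r * b) :=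
  (finCongr (by omega : m = r * b + (m - r * b))).trans
    (finSumFinEquiv.symm.trans (Equiv.sumCongr finProdFinEquiv.symm (Equiv.refl _)))

theorem perm_transport {V W : Type} (e : V ≃ W) (P : W → W → Prop) :
    (∃ π : Equiv.Perm V, ∀ i, P (e i) (e (π i))) ↔ ∃ π : Equiv.Perm W, ∀ i, P i (π i) := by
  constructor
  · rintro ⟨π, hπ⟩
    refine ⟨e.symm.trans (π.trans e), fun i => ?_⟩
    have h := hπ (e.symm i)
    simpa using h
  · rintro ⟨π, hπ⟩
    refine ⟨e.trans (π.trans e.symm), fun i => ?_⟩
    have h := hπ (e i)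
    simpa using h

/-- **Perfect matching contains the conjunction of `r` perfect matching problems.** -/
theorem pm_blocks {r b m : ℕ} (h : r * b ≤ m) :
    ∃ φ : Fin m × Fin m → (Fin r × (Fin b × Fin b)) ⊕ Bool,
      ∀ x : Fin r × (Fin b × Fin b) → Bool,
        HasPM (fun e => Sum.elim x id (φ e)) ↔ ∀ k, HasPM fun e => x (k, e) := by
  refine ⟨fun e => blockSub (vtx h e.1) (vtx h e.2), fun x => ?_⟩
  unfold HasPM
  rw [perm_transport (vtx h) fun p q => Sum.elim x id (blockSub p q) = true]
  exact blocks_iff x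

/-- The 3-partite hypergraph `u` on `m + m + m` vertices has a perfect matching (3-dimensional
matching). -/
def Has3DM {m : ℕ} (u : Fin m × Fin m × Fin m → Bool) : Prop :=
  ∃ π σ : Equiv.Perm (Fin m), ∀ i, u (i, π i, σ i) = true

/-- **3-dimensional matching contains the conjunction of `r` perfect matching problems.** -/
theorem tdm_blocks {r b m : ℕ} (h : r * b ≤ m) :
    ∃ φ : Fin m × Fin m × Fin m → (Fin r × (Fin b × Fin b)) ⊕ Bool,
      ∀ x : Fin r × (Fin b × Fin b) → Bool,
        Has3DM (fun e => Sum.elim x id (φ e)) ↔ ∀ k, HasPM fun e => x (k, e) := by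
  obtain ⟨φ, hφ⟩ := pm_blocks h
  refine ⟨fun e => if e.2.2 = e.1 then φ (e.1, e.2.1) else .inr false, fun x => ?_⟩
  rw [← hφ x]
  constructor
  · rintro ⟨π, σ, h1⟩
    refine ⟨π, fun i => ?_⟩
    have h2 := h1 i
    by_cases h3 : σ i = i
    · simpa [h3] using h2
    · simp [h3] at h2
  · rintro ⟨π, h1⟩
    exact ⟨π, Equiv.refl _, fun i => by simpa using h1 i⟩

end Pool.Agent.GB24
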