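import Pool.Agent.GB24.Num
import Pool.Agent.GB24.Match
import Pool.Agent.GB24.Neg
import Pool.Agent.GB24.Conn
import Pool.Agent.NTR.Final

/-!
# Perfect matching, 3-dimensional matching and reachability
-/

namespace Pool.Agent.GB24

open Pool.Agent.NegLim Pool.Agent.NTR Pool.Agent.TeleNeg Pool.Agent.PMB Gen

/-- **Matching, any class.** -/
theorem match_general (K : MonoClass) {ι Y : Type} [Fintype Y] {s m w b : ℕ} (hb : 0 < b)
    (hK : ∀ Gs : List ((Fin b × Fin b → Bool) → Bool),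
      Gs.length ≤ Fintype.card (Fin b × Fin b) * 2 ^ s → (∀ G ∈ Gs, K.mem _ G) →
      (∀ u, HasPM u ↔ ∃ G ∈ Gs, G u = true) → False)
    (f : (ι → Bool) → Prop)
    (hφ : ∀ r, r * b ≤ m → ∃ φ : ι → (Fin r × (Fin b × Fin b)) ⊕ Bool,
      ∀ x : Fin r × (Fin b × Fin b) → Bool,
        f (fun e => Sum.elim x id (φ e)) ↔ ∀ k, HasPM fun e => x (k, e))
    (F : Y → (ι ⊕ ι → Bool) → Bool) (hF : ∀ y, K.mem _ (F y)) (hf : FewNeg w F f) :
    2 ^ (s * (m / b)) ≤ Fintype.card Y * (m ^ 2 + 1) ^ w := by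
  classical
  by_contra hcon
  rw [not_le] at hcon
  have hrb : m / b * b ≤ m := Nat.div_mul_le_self m b
  obtain ⟨φ, hφ⟩ := hφ (m / b) hrb
  have : Nonempty (Fin b × Fin b) := ⟨(⟨0, hb⟩, ⟨0, hb⟩)⟩
  obtain ⟨Gs, h1, h2, h3⟩ := neg_cover K (fun u => decide (HasPM u)) (by
      intro u v huv
      rw [Bool.le_iff_imp]
      simp only [decide_eq_true_eq]
      exact hasPM_mono huv) φ f (fun x => by rw [hφ]; simp) F hF hf (q := 2 ^ s) (by
      refine lt_of_le_of_lt (Nat.mul_le_mul_left _ (Nat.pow_le_pow_left (Nat.succ_le_succ ?_) w))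
        (hcon.trans_le ?_)
      · rw [Fintype.card_prod, Fintype.card_fin]
        by_cases hr : m / b = 0
        · rw [hr]; simp
        · have hbm : b ≤ m := by
            have : 1 * b ≤ m / b * b := Nat.mul_le_mul_right _ (Nat.one_le_iff_ne_zero.2 hr)
            omega
          calc m / b * (b * b) = m / b * b * b := by ring
            _ ≤ m * m := Nat.mul_le_mul hrb hbm
            _ = m ^ 2 := by ring
      · rw [← pow_mul])
  exact hK Gs h1 h2 fun u => by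
    rw [← h3 u]
    simp

/-- **Perfect matching and 3-dimensional matching, circuits.** -/
theorem matching_circuits {Y : Type} [Fintype Y] {s m w : ℕ} (hs : 1 ≤ s) :
    (∀ F : Y → (Fin m × Fin m ⊕ Fin m × Fin m → Bool) → Bool,
      (∀ y, MonCirc (2 ^ s) (F y)) → FewNeg w F HasPM →
      2 ^ (s * (m / bsz s)) ≤ Fintype.card Y * (m ^ 2 + 1) ^ w) ∧
    ∀ F : Y → ((Fin m × Fin m × Fin m) ⊕ (Fin m × Fin m × Fin m) → Bool) → Bool,
      (∀ y, MonCirc (2 ^ s) (F y)) → FewNeg w F Has3DM →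
      2 ^ (s * (m / bsz s)) ≤ Fintype.card Y * (m ^ 2 + 1) ^ w :=
  ⟨fun F hF hf => match_general (circClass (2 ^ s)) (bsz_pos hs)
      (fun Gs h1 h2 h3 => one_circuit hs rfl Gs h1 h2 h3) HasPM (fun _ h => pm_blocks h) F hF hf,
    fun F hF hf => match_general (circClass (2 ^ s)) (bsz_pos hs)
      (fun Gs h1 h2 h3 => one_circuit hs rfl Gs h1 h2 h3) Has3DM (fun _ h => tdm_blocks h) F hF hf⟩

/-- **Perfect matching and 3-dimensional matching, nondeterministic branching programs.** -/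
theorem matching_dnets {Y : Type} [Fintype Y] {s m w : ℕ} (hs : 1 ≤ s) :
    (∀ N : Y → Net (Fin m × Fin m ⊕ Fin m × Fin m) (2 ^ s),
      FewNeg w (fun y => (N y).dval) HasPM →
      2 ^ (s * (m / bsz s)) ≤ Fintype.card Y * (m ^ 2 + 1) ^ w) ∧
    ∀ N : Y → Net ((Fin m × Fin m × Fin m) ⊕ (Fin m × Fin m × Fin m)) (2 ^ s),
      FewNeg w (fun y => (N y).dval) Has3DM →
      2 ^ (s * (m / bsz s)) ≤ Fintype.card Y * (m ^ 2 + 1) ^ w :=
  ⟨fun N hf => match_general (dnetClass (2 ^ s)) (bsz_pos hs)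
      (fun Gs h1 h2 h3 => one_dnet hs rfl Gs h1 h2 h3) HasPM (fun _ h => pm_blocks h)
      (fun y => (N y).dval) (fun y => ⟨N y, fun _ => rfl⟩) hf,
    fun N hf => match_general (dnetClass (2 ^ s)) (bsz_pos hs)
      (fun Gs h1 h2 h3 => one_dnet hs rfl Gs h1 h2 h3) Has3DM (fun _ h => tdm_blocks h)
      (fun y => (N y).dval) (fun y => ⟨N y, fun _ => rfl⟩) hf⟩

/-- **Reachability, one block.** -/
theorem one_net {s p : ℕ} (hp : 16 ≤ p) (hs : 2 * s ≤ p ^ 2)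
    [Fintype (Arc 6 (2 ^ p - 1) (2 ^ (5 * p)))]
    (Gs : List ((Arc 6 (2 ^ p - 1) (2 ^ (5 * p)) → Bool) → Bool))
    (hlen : Gs.length ≤ Fintype.card (Arc 6 (2 ^ p - 1) (2 ^ (5 * p))) * 2 ^ s)
    (hmem : ∀ G ∈ Gs, (netClass (2 ^ s)).mem _ G)
    (h : ∀ u, Reach u ↔ ∃ G ∈ Gs, G u = true) : False := by
  have h1 := inst_reach Gs hlen hmem h
  have h2 : Fintype.card (Arc 6 (2 ^ p - 1) (2 ^ (5 * p))) ≤ 6 * 2 ^ (11 * p) := by
    rw [← Nat.card_eq_fintype_card]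
    exact card_arc_le 6 p (by omega)
  have h3 : 6 * (Fintype.card (Arc 6 (2 ^ p - 1) (2 ^ (5 * p))) * 2 ^ s * 2 ^ s + 2) ≤
      2 ^ (11 * p + 2 * s + 6) := by
    have h4 : 1 ≤ 2 ^ (11 * p) * (2 ^ s * 2 ^ s) := Nat.one_le_iff_ne_zero.2 (by positivity)
    calc 6 * (Fintype.card (Arc 6 (2 ^ p - 1) (2 ^ (5 * p))) * 2 ^ s * 2 ^ s + 2)
        ≤ 6 * (6 * 2 ^ (11 * p) * 2 ^ s * 2 ^ s + 2) := by gcongr
      _ = 36 * (2 ^ (11 * p) * (2 ^ s * 2 ^ s)) + 12 := by ring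
      _ ≤ 64 * (2 ^ (11 * p) * (2 ^ s * 2 ^ s)) := by omega
      _ = 2 ^ (11 * p + 2 * s + 6) := by
          rw [show (64 : ℕ) = 2 ^ 6 from rfl, ← pow_add, ← pow_add, ← pow_add]
          congr 1
          ring
  have h5 : 2 ^ (2 * p ^ 2) ≤ 2 ^ (4 * p + 6 + (11 * p + 2 * s + 6)) := by
    rw [pow_add 2 (4 * p + 6)]
    exact h1.trans (Nat.mul_le_mul_left _ h3)
  have h6 := (Nat.pow_le_pow_iff_right (by norm_num : 1 < 2)).1 h5
  nlinarith

/-- **Reachability, switching networks.** -/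
theorem reach_nets {Y : Type} [Fintype Y] {s p w N : ℕ} (hp : 16 ≤ p) (hs : 2 * s ≤ p ^ 2)
    (D : Y → Net (Fin (N + 1) × Fin (N + 1) ⊕ Fin (N + 1) × Fin (N + 1)) (2 ^ s))
    (hf : FewNeg w (fun y => (D y).val) Conn) :
    2 ^ (s * (N / 2 ^ (6 * p + 3))) ≤ Fintype.card Y * (N ^ 2 + 1) ^ w := by
  classical
  by_contra hcon
  rw [not_le] at hcon
  set r := N / 2 ^ (6 * p + 3) with hr
  have hB : 6 * (2 ^ p - 1 + 1) * 2 ^ (5 * p) + 1 ≤ 2 ^ (6 * p + 3) := by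
    have h1 : 2 ^ p - 1 + 1 = 2 ^ p := Nat.sub_add_cancel Nat.one_le_two_pow
    have h2 : 2 ^ p * 2 ^ (5 * p) = 2 ^ (6 * p) := by
      rw [← pow_add]; congr 1; ring
    have h3 : 1 ≤ 2 ^ (6 * p) := Nat.one_le_two_pow
    rw [h1, mul_assoc, h2, pow_add]
    omega
  have hrN : r * 2 ^ (6 * p + 3) ≤ N := Nat.div_mul_le_self _ _
  obtain ⟨φ, hφ⟩ := conn_blocks (k := 6) (L := 2 ^ p - 1) (M := 2 ^ (5 * p)) (r := r) (N := N)
    ((Nat.mul_le_mul_left r hB).trans hrN)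
  have : Nonempty (Arc 6 (2 ^ p - 1) (2 ^ (5 * p))) :=
    ⟨.first 0 ⟨0, by positivity⟩⟩
  have : Finite (Arc 6 (2 ^ p - 1) (2 ^ (5 * p))) :=
    Finite.of_equiv _ (arcEquiv 6 (2 ^ p - 1) (2 ^ (5 * p))).symm
  let _ : Fintype (Arc 6 (2 ^ p - 1) (2 ^ (5 * p))) := Fintype.ofFinite _
  have hcard : Fintype.card (Arc 6 (2 ^ p - 1) (2 ^ (5 * p))) ≤ 6 * 2 ^ (11 * p) := by
    rw [← Nat.card_eq_fintype_card]
    exact card_arc_le 6 p (by omega)
  obtain ⟨Gs, h1, h2, h3⟩ := neg_cover (netClass (2 ^ s))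
    (fun u : Arc 6 (2 ^ p - 1) (2 ^ (5 * p)) → Bool => decide (Reach u)) (by
      intro u v huv
      rw [Bool.le_iff_imp]
      simp only [decide_eq_true_eq]
      exact reach_mono huv) φ Conn (fun x => by rw [hφ]; simp) (fun y => (D y).val)
    (fun y => ⟨D y, fun _ => rfl⟩) hf (q := 2 ^ s) (by
      refine lt_of_le_of_lt (Nat.mul_le_mul_left _ (Nat.pow_le_pow_left (Nat.succ_le_succ ?_) w))
        (hcon.trans_le ?_)
      · by_cases hr0 : r = 0
        · rw [hr0]; simp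
        · have hBN : 2 ^ (6 * p + 3) ≤ N := by
            have : 1 * 2 ^ (6 * p + 3) ≤ r * 2 ^ (6 * p + 3) :=
              Nat.mul_le_mul_right _ (Nat.one_le_iff_ne_zero.2 hr0)
            omega
          have h4 : 6 * 2 ^ (11 * p) ≤ 2 ^ (6 * p + 3) * 2 ^ (6 * p + 3) := by
            have h5 : 2 ^ (11 * p) ≤ 2 ^ (12 * p) := Nat.pow_le_pow_right (by norm_num) (by omega)
            calc 6 * 2 ^ (11 * p) ≤ 64 * 2 ^ (12 * p) := Nat.mul_le_mul (by norm_num) h5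
              _ = 2 ^ (6 * p + 3) * 2 ^ (6 * p + 3) := by
                  rw [show (64 : ℕ) = 2 ^ 6 from rfl, ← pow_add, ← pow_add]
                  congr 1
                  ring
          calc r * Fintype.card (Arc 6 (2 ^ p - 1) (2 ^ (5 * p)))
              ≤ r * (2 ^ (6 * p + 3) * 2 ^ (6 * p + 3)) :=
                Nat.mul_le_mul_left _ (hcard.trans h4)
            _ = (r * 2 ^ (6 * p + 3)) * 2 ^ (6 * p + 3) := by ring
            _ ≤ N * N := Nat.mul_le_mul hrN hBN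
            _ = N ^ 2 := by ring
      · rw [← pow_mul])
  exact one_net hp hs Gs h1 h2 fun u => by
    rw [← h3 u]
    simp

end Pool.Agent.GB24
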