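import Pool.Agent.GB24.HiddenU
import Pool.Agent.GB24.ConnUA
import Pool.Agent.GB24.Inst

/-!
# Reachability: zeros of a set of variables must be seen
-/

namespace Pool.Agent.GB24.Loc

open Finset Pool.Agent.NegLim Pool.Agent.NTR Pool.Agent.NTR.Gen Pool.Agent.NWE Pool.Agent.GB24
  Pool.Agent.TeleNeg Pool.Agent.NTN

/-- Reachability, switching networks. -/
theorem conn_hidden {s p : ℕ} (hp : 16 ≤ p) (hs : 2 * s ≤ p ^ 2) {N k : ℕ}
    (U : Finset (Fin (N + 1) × Fin (N + 1))) (hU : DisjointArcs k U) (hN : 0 < N) :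
    HardSet (Conn (N := N)) U
      (fun D => ∃ P : Net (Fin (N + 1) × Fin (N + 1) ⊕ Fin (N + 1) × Fin (N + 1)) (2 ^ s),
        ∀ q, D q = P.val (known q))
      (k + 1) ((2 ^ s) ^ (k / 2 ^ (11 * p + 4))) := by
  classical
  have : Nonempty (Arc 6 (2 ^ p - 1) (2 ^ (5 * p))) :=
    ⟨.first 0 ⟨0, by positivity⟩⟩
  have : Finite (Arc 6 (2 ^ p - 1) (2 ^ (5 * p))) :=
    Finite.of_equiv _ (arcEquiv 6 (2 ^ p - 1) (2 ^ (5 * p))).symm
  let _ : Fintype (Arc 6 (2 ^ p - 1) (2 ^ (5 * p))) := Fintype.ofFinite _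
  have hcard : Fintype.card (Arc 6 (2 ^ p - 1) (2 ^ (5 * p))) ≤ 6 * 2 ^ (11 * p) := by
    rw [← Nat.card_eq_fintype_card]
    exact card_arc_le 6 p (by omega)
  set r := k / 2 ^ (11 * p + 4) with hr
  have hrk : r * 2 ^ (11 * p + 4) ≤ k := Nat.div_mul_le_self _ _
  have h2 : 2 * r * Fintype.card (Arc 6 (2 ^ p - 1) (2 ^ (5 * p))) ≤ k := by
    refine le_trans ?_ hrk
    calc 2 * r * Fintype.card (Arc 6 (2 ^ p - 1) (2 ^ (5 * p)))
        ≤ 2 * r * (6 * 2 ^ (11 * p)) := Nat.mul_le_mul_left _ hcard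
      _ = r * (12 * 2 ^ (11 * p)) := by ring
      _ ≤ r * (2 ^ 4 * 2 ^ (11 * p)) :=
          Nat.mul_le_mul_left _ (Nat.mul_le_mul_right _ (by norm_num))
      _ = r * 2 ^ (11 * p + 4) := by rw [pow_add, mul_comm (2 ^ 4)]
  refine hardSet_general (netClass (2 ^ s))
    (fun u : Arc 6 (2 ^ p - 1) (2 ^ (5 * p)) → Bool => Reach u) (fun _ _ h => reach_mono h)
    (fun Gs h1 h2 h3 => one_net hp hs Gs h1 h2 h3) Conn U (conn_blocks_UA U hU h2 hN) ?_ _ ?_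
  · have h3 : r * Fintype.card (Arc 6 (2 ^ p - 1) (2 ^ (5 * p))) ≤
        2 * r * Fintype.card (Arc 6 (2 ^ p - 1) (2 ^ (5 * p))) := by
      nlinarith [Nat.zero_le (r * Fintype.card (Arc 6 (2 ^ p - 1) (2 ^ (5 * p))))]
    omega
  · exact fun D ⟨P, hP⟩ => ⟨P.val, ⟨P, fun _ => rfl⟩, hP⟩

end Pool.Agent.GB24.Loc
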