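import Pool.Agent.GB24.Match

/-!
# The substitutions of `Match.lean` contain every variable of the blocks
-/

namespace Pool.Agent.GB24

open Pool.Agent.PMB

theorem pm_blocks' {r b m : ℕ} (h : r * b ≤ m) :
    ∃ φ : Fin m × Fin m → (Fin r × (Fin b × Fin b)) ⊕ Bool, (∀ v, ∃ e, φ e = Sum.inl v) ∧
      ∀ x : Fin r × (Fin b × Fin b) → Bool,
        HasPM (fun e => Sum.elim x id (φ e)) ↔ ∀ k, HasPM fun e => x (k, e) := by
  refine ⟨fun e => blockSub (vtx h e.1) (vtx h e.2), ?_, fun x => ?_⟩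
  · rintro ⟨k, a, a'⟩
    refine ⟨((vtx h).symm (.inl (k, a)), (vtx h).symm (.inl (k, a'))), ?_⟩
    simp [blockSub]
  · unfold HasPM
    rw [perm_transport (vtx h) fun p q => Sum.elim x id (blockSub p q) = true]
    exact blocks_iff x

theorem tdm_blocks' {r b m : ℕ} (h : r * b ≤ m) :
    ∃ φ : Fin m × Fin m × Fin m → (Fin r × (Fin b × Fin b)) ⊕ Bool,
      (∀ v, ∃ e, φ e = Sum.inl v) ∧
      ∀ x : Fin r × (Fin b × Fin b) → Bool,
        Has3DM (fun e => Sum.elim x id (φ e)) ↔ ∀ k, HasPM fun e => x (k, e) := by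
  obtain ⟨φ, hs, hφ⟩ := pm_blocks' h
  refine ⟨fun e => if e.2.2 = e.1 then φ (e.1, e.2.1) else .inr false, fun v => ?_, fun x => ?_⟩
  · obtain ⟨e, he⟩ := hs v
    exact ⟨(e.1, e.2, e.1), by simpa using he⟩
  · rw [← hφ x]
    constructor
    · rintro ⟨π, σ, h1⟩
      refine ⟨π, fun i => ?_⟩
      have h2 := h1 i
      by_cases h3 : σ i = i
      · simpa [h3] using h2
      · simp [h3] at h2
    · rintro ⟨π, h1⟩
      exact ⟨π, Equiv.refl _, fun i => by simpa using h1 i⟩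

end Pool.Agent.GB24
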