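import Pool.Agent.GB24.Avg
import Pool.Agent.GB24.MatchS
import Pool.Agent.GB24.Inst

/-!
# Perfect matching, 3-dimensional matching: hard inputs
-/

namespace Pool.Agent.GB24

open Pool.Agent.NegLim Pool.Agent.NTR Pool.Agent.TeleNeg Pool.Agent.PMB Gen

/-- Conjunctions of copies. -/
theorem hard_and (K : MonoClass) {β : Type} [Fintype β] [Nonempty β] (r q : ℕ)
    (g : (β → Bool) → Bool) (hg : Monotone g)
    (hno : ¬ ∃ Gs : List ((β → Bool) → Bool), Gs.length ≤ Fintype.card β * q ∧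
      (∀ G ∈ Gs, K.mem β G) ∧ ∀ u, g u = true ↔ ∃ G ∈ Gs, G u = true) :
    HardInputs (fun x : Fin r × β → Bool => ∀ i, g (fun b => x (i, b)) = true) (K.mem _)
      (r * Fintype.card β + 1) (q ^ r) :=
  hard_inputs K g hg (fun e => Sum.inl e) (fun v => ⟨v, rfl⟩) _ (fun _ => Iff.rfl) hno

theorem hard_general (K : MonoClass) {ι β : Type} [Fintype β] [Nonempty β] {s r n : ℕ}
    (g : (β → Bool) → Prop) (hg : ∀ u v : β → Bool, u ≤ v → g u → g v)
    (hK : ∀ Gs : List ((β → Bool) → Bool), Gs.length ≤ Fintype.card β * 2 ^ s →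
      (∀ G ∈ Gs, K.mem _ G) → (∀ u, g u ↔ ∃ G ∈ Gs, G u = true) → False)
    (f : (ι → Bool) → Prop)
    (hφ : ∃ φ : ι → (Fin r × β) ⊕ Bool, (∀ v, ∃ e, φ e = Sum.inl v) ∧
      ∀ x : Fin r × β → Bool, f (fun e => Sum.elim x id (φ e)) ↔ ∀ k, g fun e => x (k, e))
    (hn : r * Fintype.card β + 1 ≤ n) : HardInputs f (K.mem _) n (2 ^ (s * r)) := by
  classical
  obtain ⟨φ, hs, hφ⟩ := hφ
  obtain ⟨M, h1, h2, h3⟩ := hard_inputs K (r := r) (q := 2 ^ s) (fun u => decide (g u)) (by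
      intro u v huv
      rw [Bool.le_iff_imp]
      simp only [decide_eq_true_eq]
      exact hg u v huv) φ hs f (fun x => by rw [hφ]; simp) (by
      rintro ⟨Gs, h1, h2, h3⟩
      exact hK Gs h1 h2 fun u => by
        rw [← h3 u]
        simp)
  refine ⟨M, h1, h2, fun Y _ w F hF hs => ?_⟩
  rw [pow_mul]
  refine (h3 Y w F hF hs).trans ?_
  gcongr

lemma numbers {m b : ℕ} : m / b * Fintype.card (Fin b × Fin b) + 1 ≤ m ^ 2 + 1 := by
  rw [Fintype.card_prod, Fintype.card_fin]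
  by_cases hr : m / b = 0
  · rw [hr]; simp
  · have hrb : m / b * b ≤ m := Nat.div_mul_le_self m b
    have hbm : b ≤ m := by
      have : 1 * b ≤ m / b * b := Nat.mul_le_mul_right _ (Nat.one_le_iff_ne_zero.2 hr)
      omega
    refine Nat.succ_le_succ ?_
    calc m / b * (b * b) = m / b * b * b := by ring
      _ ≤ m * m := Nat.mul_le_mul hrb hbm
      _ = m ^ 2 := by ring

/-- **Perfect matching and 3-dimensional matching**: circuits and nondeterministic branching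
programs. -/
theorem matching_hard {s : ℕ} (hs : 1 ≤ s) (m : ℕ) :
    HardInputs (HasPM (m := m)) ((circClass (2 ^ s)).mem _) (m ^ 2 + 1) (2 ^ (s * (m / bsz s))) ∧
    HardInputs (HasPM (m := m)) ((dnetClass (2 ^ s)).mem _) (m ^ 2 + 1) (2 ^ (s * (m / bsz s))) ∧
    HardInputs (Has3DM (m := m)) ((circClass (2 ^ s)).mem _) (m ^ 2 + 1) (2 ^ (s * (m / bsz s))) ∧
    HardInputs (Has3DM (m := m)) ((dnetClass (2 ^ s)).mem _) (m ^ 2 + 1) (2 ^ (s * (m / bsz s))) := by
  have hb : 0 < bsz s := bsz_pos hs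
  have : Nonempty (Fin (bsz s) × Fin (bsz s)) := ⟨(⟨0, hb⟩, ⟨0, hb⟩)⟩
  have hrb : m / bsz s * bsz s ≤ m := Nat.div_mul_le_self m _
  have hmono : ∀ u v : Fin (bsz s) × Fin (bsz s) → Bool, u ≤ v → HasPM u → HasPM v :=
    fun _ _ h => hasPM_mono h
  exact ⟨hard_general _ (fun u : Fin (bsz s) × Fin (bsz s) → Bool => HasPM u) hmono
      (fun Gs h1 h2 h3 => one_circuit hs rfl Gs h1 h2 h3) _ (pm_blocks' hrb) numbers,
    hard_general _ (fun u : Fin (bsz s) × Fin (bsz s) → Bool => HasPM u) hmono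
      (fun Gs h1 h2 h3 => one_dnet hs rfl Gs h1 h2 h3) _ (pm_blocks' hrb) numbers,
    hard_general _ (fun u : Fin (bsz s) × Fin (bsz s) → Bool => HasPM u) hmono
      (fun Gs h1 h2 h3 => one_circuit hs rfl Gs h1 h2 h3) _ (tdm_blocks' hrb) numbers,
    hard_general _ (fun u : Fin (bsz s) × Fin (bsz s) → Bool => HasPM u) hmono
      (fun Gs h1 h2 h3 => one_dnet hs rfl Gs h1 h2 h3) _ (tdm_blocks' hrb) numbers⟩

end Pool.Agent.GB24
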